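import Pool.Agent.Chi73.Steps

set_option autoImplicit false

namespace Pool.Agent.Chi73

open Polynomial

variable {F : Type} [Field F]

/-- evaluate the polynomial `P` at the shift operator, applied to `x`, at `0`; only the first `N`
coefficients are used -/
noncomputable def Lf (N : ℕ) (x : ℕ → F) (P : F[X]) : F :=
  ∑ k ∈ Finset.range N, P.coeff k * x k

lemma Lf_congr (N : ℕ) (x y : ℕ → F) (P : F[X]) (h : ∀ k, k ≤ P.natDegree → x k = y k) :
    Lf N x P = Lf N y P := by
  apply Finset.sum_congr rfl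
  intro k _
  by_cases hk : k ≤ P.natDegree
  · rw [h k hk]
  · rw [Polynomial.coeff_eq_zero_of_natDegree_lt (by omega)]
    ring

lemma Lf_mul (N : ℕ) (x : ℕ → F) (P : F[X]) (η : F) (hP : P.natDegree < N) :
    Lf (N + 1) x ((X - C η) * P) = Lf N (fun k => x (k + 1) - η * x k) P := by
  unfold Lf
  have h1 : ∀ k, ((X - C η) * P).coeff (k + 1) = P.coeff k - η * P.coeff (k + 1) := by
    intro k
    rw [sub_mul, coeff_sub, coeff_X_mul, coeff_C_mul]
  have h0 : ((X - C η) * P).coeff 0 = - η * P.coeff 0 := by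
    rw [sub_mul, coeff_sub, coeff_C_mul]
    simp
  rw [Finset.sum_range_succ']
  simp only [h1, h0]
  have h2 : ∑ k ∈ Finset.range N, P.coeff (k + 1) * x (k + 1) + P.coeff 0 * x 0
      = ∑ k ∈ Finset.range N, P.coeff k * x k := by
    rw [← Finset.sum_range_succ' (fun k => P.coeff k * x k) N, Finset.sum_range_succ,
      Polynomial.coeff_eq_zero_of_natDegree_lt hP]
    ring
  have h3 : ∑ k ∈ Finset.range N, P.coeff k * (x (k + 1) - η * x k)
      = ∑ k ∈ Finset.range N, P.coeff k * x (k + 1) - η * ∑ k ∈ Finset.range N, P.coeff k * x k := by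
    rw [Finset.mul_sum, ← Finset.sum_sub_distrib]
    apply Finset.sum_congr rfl
    intro k _
    ring
  have h4 : ∑ k ∈ Finset.range N, (P.coeff k - η * P.coeff (k + 1)) * x (k + 1)
      = ∑ k ∈ Finset.range N, P.coeff k * x (k + 1)
        - η * ∑ k ∈ Finset.range N, P.coeff (k + 1) * x (k + 1) := by
    rw [Finset.mul_sum, ← Finset.sum_sub_distrib]
    apply Finset.sum_congr rfl
    intro k _
    ring
  rw [h3, h4, ← h2]
  ring

lemma Lf_geo (N : ℕ) (x : ℕ → F) (P : F[X]) (z κ : F) (hP : P.natDegree < N)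
    (h : ∀ k < N, x k = κ * z ^ k) : Lf N x P = κ * P.eval z := by
  unfold Lf
  rw [Polynomial.eval_eq_sum_range' hP, Finset.mul_sum]
  apply Finset.sum_congr rfl
  intro k hk
  rw [h k (Finset.mem_range.1 hk)]
  ring

lemma Lf_sub (N : ℕ) (x y : ℕ → F) (P : F[X]) :
    Lf N (fun k => x k - y k) P = Lf N x P - Lf N y P := by
  unfold Lf
  rw [← Finset.sum_sub_distrib]
  apply Finset.sum_congr rfl
  intro k _
  ring

lemma Lf_big (N N' : ℕ) (x : ℕ → F) (P : F[X]) (hP : P.natDegree < N) (hN : N ≤ N') :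
    Lf N' x P = Lf N x P := by
  unfold Lf
  symm
  apply Finset.sum_subset
  · intro k hk
    rw [Finset.mem_range] at *
    omega
  · intro k _ hk
    rw [Finset.mem_range] at hk
    rw [Polynomial.coeff_eq_zero_of_natDegree_lt (by omega), zero_mul]

open Classical in
/-- the product of `X - η` over the elements of `Ω` that are not among the first `d` entries of `x` -/
noncomputable def prodP (Ω : Finset F) (d : ℕ) (x : ℕ → F) : F[X] :=
  ∏ η ∈ Ω \ (Finset.range d).image x, (X - C η)

open Classical in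
lemma natDegree_prodP (Ω : Finset F) (d : ℕ) (x : ℕ → F) :
    (prodP Ω d x).natDegree = (Ω \ (Finset.range d).image x).card := by
  unfold prodP
  rw [Polynomial.natDegree_prod_of_monic _ _ (fun η _ => monic_X_sub_C η)]
  simp

lemma natDegree_prodP_le (Ω : Finset F) (d : ℕ) (x : ℕ → F) :
    (prodP Ω d x).natDegree ≤ Ω.card := by
  classical
  rw [natDegree_prodP]
  exact Finset.card_le_card (by convert Finset.sdiff_subset)

lemma prodP_congr (Ω : Finset F) (d : ℕ) (x y : ℕ → F) (h : ∀ j < d, x j = y j) :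
    prodP Ω d x = prodP Ω d y := by
  classical
  have : (Finset.range d).image x = (Finset.range d).image y := by
    apply Finset.image_congr
    intro j hj
    exact h j (by simpa using hj)
  unfold prodP
  simp only [this]

lemma prodP_eval_ne (Ω : Finset F) (d : ℕ) (x : ℕ → F) (z : F) (hz : z ∉ Ω) :
    (prodP Ω d x).eval z ≠ 0 := by
  classical
  unfold prodP
  rw [Polynomial.eval_prod, Finset.prod_ne_zero_iff]
  intro η hη
  simp only [eval_sub, eval_X, eval_C]
  intro h
  apply hz
  rw [sub_eq_zero.1 h]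
  simp only [Finset.mem_sdiff] at hη
  exact hη.1

lemma prodP_step (D : Dat F) (b : Bool) (d : ℕ) (x y : ℕ → F) (hs : Step D b d x y)
    (Ω : Finset F) (hΩ : y d ∈ Ω) :
    prodP Ω d x = (X - C (y d)) * prodP Ω (d + 1) y := by
  classical
  have hnot : y d ∉ (Finset.range d).image x := by
    intro h
    rw [Finset.mem_image] at h
    obtain ⟨j, hj, hxj⟩ := h
    rw [Finset.mem_range] at hj
    have h1 := hs.labx j hj
    have h2 := hs.laby
    rw [hxj] at h1
    have := (D.hZd _ _ _ _ _ h1 h2).2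
    omega
  have him : (Finset.range (d + 1)).image y = insert (y d) ((Finset.range d).image x) := by
    rw [Finset.range_add_one, Finset.image_insert]
    congr 1
    apply Finset.image_congr
    intro j hj
    exact hs.low j (by simpa using hj)
  have hset : Ω \ (Finset.range d).image x
      = insert (y d) (Ω \ (Finset.range (d + 1)).image y) := by
    rw [him]
    ext a
    simp only [Finset.mem_sdiff, Finset.mem_insert]
    constructor
    · intro h
      by_cases ha : a = y d
      · exact Or.inl ha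
      · exact Or.inr ⟨h.1, by tauto⟩
    · intro h
      rcases h with h | h
      · rw [h]
        exact ⟨hΩ, hnot⟩
      · exact ⟨h.1, by tauto⟩
  have hnot2 : y d ∉ Ω \ (Finset.range (d + 1)).image y := by
    rw [him]
    simp
  have h3 := Finset.prod_insert (f := fun η => (X - C η : F[X])) hnot2
  rw [← hset] at h3
  unfold prodP
  convert h3

lemma step_inv (D : Dat F) (b : Bool) (d : ℕ) (x y : ℕ → F) (hs : Step D b d x y)
    (Ω : Finset F) (hΩ : y d ∈ Ω) (hc : Ω.card ≤ 8) :
    Lf 9 (fun k => x (d + k)) (prodP Ω d x) = Lf 9 (fun k => y (d + 1 + k)) (prodP Ω (d + 1) y) := by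
  classical
  have hM := D.hM (!b)
  have ht := D.t_eq b
  have hd := hs.lt
  have hdeg : (prodP Ω (d + 1) y).natDegree < 8 := by
    have h1 := prodP_step D b d x y hs Ω hΩ
    have h2 : (prodP Ω d x).natDegree = (prodP Ω (d + 1) y).natDegree + 1 := by
      rw [h1, Polynomial.Monic.natDegree_mul (monic_X_sub_C _)]
      · simp [add_comm]
      · unfold prodP
        exact monic_prod_of_monic _ _ (fun η _ => monic_X_sub_C η)
    have h3 := natDegree_prodP_le Ω d x
    omega
  rw [prodP_step D b d x y hs Ω hΩ, Lf_mul 8 _ _ _ hdeg, Lf_big 8 9 _ _ hdeg (by omega)]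
  apply Lf_congr
  intro k hk
  have := hs.high (d + k) (by omega) (by omega)
  rw [show d + 1 + k = d + k + 1 by ring, this]
  rfl

/-- a closed walk whose vertices have well defined depth and coordinates -/
structure WalkA (D : Dat F) (ℓ : ℕ) (σ : ℕ → Bool) (h : ℕ → ℕ) (X : ℕ → ℕ → F) : Prop where
  perσ : ∀ k, σ (k + ℓ) = σ k
  perh : ∀ k, h (k + ℓ) = h k
  perX : ∀ k, X (k + ℓ) = X k
  edge : ∀ k, (h (k + 1) = h k + 1 ∧ Step D (σ k) (h k) (X k) (X (k + 1))) ∨
    (h k = h (k + 1) + 1 ∧ Step D (σ k) (h (k + 1)) (X (k + 1)) (X k))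
  same : ∀ k, 0 < h (k + 1) → σ k = σ (k + 1)
  nb : ∀ k, σ k = σ (k + 1) → h k = h (k + 2) → ¬ (∀ j < D.t, X k j = X (k + 2) j)

/-- the label of an edge -/
def lam (h : ℕ → ℕ) (X : ℕ → ℕ → F) (k : ℕ) : F :=
  if h k < h (k + 1) then X (k + 1) (h k) else X k (h (k + 1))

namespace WalkA

variable {D : Dat F} {ℓ : ℕ} {σ : ℕ → Bool} {h : ℕ → ℕ} {X : ℕ → ℕ → F}

lemma shift (W : WalkA D ℓ σ h X) (r : ℕ) :
    WalkA D ℓ (fun k => σ (k + r)) (fun k => h (k + r)) (fun k => X (k + r)) where
  perσ k := by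
    have := W.perσ (k + r)
    rw [show k + ℓ + r = k + r + ℓ by ring]
    exact this
  perh k := by
    have := W.perh (k + r)
    rw [show k + ℓ + r = k + r + ℓ by ring]
    exact this
  perX k := by
    have := W.perX (k + r)
    rw [show k + ℓ + r = k + r + ℓ by ring]
    exact this
  edge k := by
    have := W.edge (k + r)
    rw [show k + 1 + r = k + r + 1 by ring]
    exact this
  same k := by
    have := W.same (k + r)
    rw [show k + 1 + r = k + r + 1 by ring]
    exact this
  nb k := by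
    have := W.nb (k + r)
    rw [show k + 1 + r = k + r + 1 by ring, show k + 2 + r = k + r + 2 by ring]
    exact this

lemma lam_up (k : ℕ) (hk : h (k + 1) = h k + 1) : lam h X k = X (k + 1) (h k) := by
  unfold lam
  rw [if_pos (by omega)]

lemma lam_down (k : ℕ) (hk : h k = h (k + 1) + 1) : lam h X k = X k (h (k + 1)) := by
  unfold lam
  rw [if_neg (by omega)]

lemma lam_mem (W : WalkA D ℓ σ h X) (k : ℕ) : lam h X k ∈ D.Z (σ k) (min (h k) (h (k + 1))) := by
  rcases W.edge k with ⟨h1, h2⟩ | ⟨h1, h2⟩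
  · rw [lam_up k h1, min_eq_left (by omega)]
    exact h2.laby
  · rw [lam_down k h1, min_eq_right (by omega)]
    exact h2.laby

lemma level (W : WalkA D ℓ σ h X) (j k : ℕ) (hjk : lam h X j = lam h X k) :
    min (h j) (h (j + 1)) = min (h k) (h (k + 1)) := by
  have h1 := W.lam_mem j
  have h2 := W.lam_mem k
  rw [hjk] at h1
  exact (D.hZd _ _ _ _ _ h1 h2).2

lemma persist (W : WalkA D ℓ σ h X) (k i : ℕ) (h1 : i < h k) (h2 : i < h (k + 1)) :
    X k i = X (k + 1) i := by
  rcases W.edge k with ⟨h3, h4⟩ | ⟨h3, h4⟩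
  · exact (h4.low i h1).symm
  · exact h4.low i h2

lemma matching (W : WalkA D ℓ σ h X) (k n : ℕ) (h1 : h (k + 1) = h k + 1)
    (h2 : ∀ j, 1 ≤ j → j ≤ n → h k < h (k + j)) (h3 : h (k + n + 1) = h k) :
    lam h X k = lam h X (k + n) := by
  have hn : 1 ≤ n := by
    rcases Nat.eq_zero_or_pos n with h0 | h0
    · subst h0
      simp at h3
      omega
    · exact h0
  have h5 : h (k + n) = h (k + n + 1) + 1 := by
    have h6 := h2 n hn le_rfl
    rcases W.edge (k + n) with ⟨h7, _⟩ | ⟨h7, _⟩
    · omega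
    · exact h7
  rw [lam_up k h1, lam_down (k + n) h5, h3]
  have key : ∀ m, 1 ≤ m → m ≤ n → X (k + 1) (h k) = X (k + m) (h k) := by
    intro m hm
    induction m, hm using Nat.le_induction with
    | base => intro _; rfl
    | succ m hm ih =>
      intro hm2
      rw [ih (by omega)]
      exact W.persist (k + m) (h k) (h2 m hm (by omega)) (h2 (m + 1) (by omega) hm2)
  exact key n hn le_rfl

lemma valley (W : WalkA D ℓ σ h X) (k : ℕ) (h1 : h k = h (k + 1) + 1)
    (h2 : h (k + 2) = h (k + 1) + 1) : lam h X k ≠ lam h X (k + 1) := by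
  intro heq
  have hs1 : Step D (σ k) (h (k + 1)) (X (k + 1)) (X k) := by
    rcases W.edge k with ⟨h3, _⟩ | ⟨_, h4⟩
    · omega
    · exact h4
  have hs2 : Step D (σ (k + 1)) (h (k + 1)) (X (k + 1)) (X (k + 2)) := by
    rcases W.edge (k + 1) with ⟨_, h4⟩ | ⟨h3, _⟩
    · exact h4
    · have : k + 1 + 1 = k + 2 := rfl
      rw [this] at h3
      omega
  rw [lam_down k h1, lam_up (k + 1) h2] at heq
  have heq' : X k (h (k + 1)) = X (k + 2) (h (k + 1)) := heq
  have hσ : σ k = σ (k + 1) := by
    have h3 := hs1.laby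
    have h4 := hs2.laby
    rw [heq'] at h3
    exact (D.hZd _ _ _ _ _ h3 h4).1
  apply W.nb k hσ (by omega)
  intro j hj
  rcases lt_trichotomy j (h (k + 1)) with hlt | heq2 | hgt
  · rw [hs1.low j hlt, hs2.low j hlt]
  · rw [heq2]
    exact heq'
  · obtain ⟨j', rfl⟩ : ∃ j', j = j' + 1 := ⟨j - 1, by omega⟩
    rw [hs1.high j' (by omega) hj, hs2.high j' (by omega) hj, heq']

lemma peak_eq (k : ℕ) (h1 : h (k + 1) = h k + 1)
    (h2 : h (k + 1) = h (k + 2) + 1) : lam h X k = lam h X (k + 1) := by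
  rw [lam_up k h1, lam_down (k + 1) h2]
  have : h (k + 1 + 1) = h k := by
    have : h (k + 1 + 1) = h (k + 2) := rfl
    omega
  rw [this]

lemma peak (W : WalkA D ℓ σ h X) (hℓ : ℓ ≤ 10) (hℓ2 : 2 ≤ ℓ) (k : ℕ) (h1 : h (k + 1) = h k + 1)
    (h2 : h (k + 1) = h (k + 2) + 1) :
    ∃ j, 2 ≤ j ∧ j < ℓ ∧ lam h X (k + j) = lam h X k := by
  classical
  by_contra hcon
  push Not at hcon
  set Ω : Finset F := (Finset.Ico 2 ℓ).image (fun j => lam h X (k + j)) with hΩ
  have hcard : Ω.card ≤ 8 := by
    refine le_trans Finset.card_image_le ?_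
    rw [Nat.card_Ico]
    omega
  have hz : lam h X k ∉ Ω := by
    rw [hΩ, Finset.mem_image]
    rintro ⟨j, hj, hj2⟩
    rw [Finset.mem_Ico] at hj
    exact hcon j hj.1 hj.2 hj2
  set Φ : ℕ → F := fun j => Lf 9 (fun m => X j (h j + m)) (prodP Ω (h j) (X j)) with hΦ
  have hinv : ∀ j, 2 ≤ j → j < ℓ → Φ (k + j) = Φ (k + j + 1) := by
    intro j hj1 hj2
    have hmem : lam h X (k + j) ∈ Ω := by
      rw [hΩ, Finset.mem_image]
      exact ⟨j, Finset.mem_Ico.2 ⟨hj1, hj2⟩, rfl⟩
    simp only [hΦ]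
    rcases W.edge (k + j) with ⟨h3, h4⟩ | ⟨h3, h4⟩
    · rw [lam_up _ h3] at hmem
      have := step_inv D _ _ _ _ h4 Ω hmem hcard
      rw [h3]
      exact this
    · rw [lam_down _ h3] at hmem
      have := step_inv D _ _ _ _ h4 Ω hmem hcard
      rw [h3]
      exact this.symm
  have hconst : ∀ j, 2 ≤ j → j ≤ ℓ → Φ (k + 2) = Φ (k + j) := by
    intro j hj
    induction j, hj using Nat.le_induction with
    | base => intro _; rfl
    | succ j hj ih =>
      intro hj2
      rw [ih (by omega), hinv j hj (by omega)]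
      rfl
  have hfin : Φ (k + 2) = Φ k := by
    rw [hconst ℓ hℓ2 le_rfl]
    simp only [hΦ]
    rw [W.perX k, W.perh k]
  have hs1 : Step D (σ k) (h k) (X k) (X (k + 1)) := by
    rcases W.edge k with ⟨_, h4⟩ | ⟨h3, _⟩
    · exact h4
    · omega
  have hh : h (k + 2) = h k := by omega
  have hs2 : Step D (σ (k + 1)) (h k) (X (k + 2)) (X (k + 1)) := by
    rcases W.edge (k + 1) with ⟨h3, _⟩ | ⟨_, h4⟩
    · have : h (k + 1 + 1) = h (k + 2) := rfl
      omega
    · have : h (k + 1 + 1) = h k := hh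
      rw [this] at h4
      exact h4
  have hσ : σ k = σ (k + 1) := W.same k (by omega)
  have hMb := D.hM (!(σ k))
  have ht := D.t_eq (σ k)
  have hlt := hs1.lt
  set z := X (k + 1) (h k) with hzdef
  have hlamz : lam h X k = z := lam_up k h1
  rw [hlamz] at hz
  have hrec : ∀ m, h k + m < D.t →
      X k (h k + m) - X (k + 2) (h k + m) = (X k (h k) - X (k + 2) (h k)) * z ^ m := by
    intro m
    induction m with
    | zero => intro _; simp
    | succ m ih =>
      intro hm
      have h3 := hs1.high (h k + m) (by omega) hm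
      have h4 := hs2.high (h k + m) (by omega) hm
      have h5 := ih (by omega)
      rw [show h k + (m + 1) = h k + m + 1 by ring, pow_succ]
      rw [h3] at h4
      linear_combination h4 + z * h5
  have hlow : ∀ j < h k, X k j = X (k + 2) j := by
    intro j hj
    rw [← hs1.low j hj, hs2.low j hj]
  have hP : prodP Ω (h (k + 2)) (X (k + 2)) = prodP Ω (h k) (X k) := by
    rw [hh]
    exact (prodP_congr Ω (h k) (X k) (X (k + 2)) hlow).symm
  have hdegP : (prodP Ω (h k) (X k)).natDegree < 9 := by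
    have := natDegree_prodP_le Ω (h k) (X k)
    omega
  have hdiff : Lf 9 (fun m => X k (h k + m) - X (k + 2) (h k + m)) (prodP Ω (h k) (X k)) = 0 := by
    rw [Lf_sub]
    simp only [hΦ] at hfin
    rw [hP, hh] at hfin
    rw [hfin, sub_self]
  rw [Lf_geo 9 _ _ z (X k (h k) - X (k + 2) (h k)) hdegP (fun m hm => hrec m (by omega))] at hdiff
  have hκ : X k (h k) - X (k + 2) (h k) = 0 := by
    rcases mul_eq_zero.1 hdiff with h3 | h3
    · exact h3
    · exact absurd h3 (prodP_eval_ne Ω (h k) (X k) z hz)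
  apply W.nb k hσ (by omega)
  intro j hj
  rcases lt_or_ge j (h k) with h3 | h3
  · exact hlow j h3
  · obtain ⟨m, rfl⟩ := Nat.exists_eq_add_of_le h3
    have := hrec m hj
    rw [hκ, zero_mul] at this
    exact sub_eq_zero.1 this

end WalkA

end Pool.Agent.Chi73
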