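import Pool.Agent.Chi73.Steps

set_option autoImplicit false

namespace Pool.Agent.Chi73

variable {F : Type} [Field F]

/-- the 3x3 Hankel determinant (up to sign) of the first five entries -/
def Hk (β : ℕ → F) : F :=
  β 2 * (β 2 * β 2 - β 1 * β 3) - β 1 * (β 3 * β 2 - β 1 * β 4) + β 0 * (β 3 * β 3 - β 2 * β 4)

lemma nd_of_Hk (β : ℕ → F) (h : Hk β ≠ 0) (a b c : F)
    (h0 : a * β 2 + b * β 1 + c * β 0 = 0) (h1 : a * β 3 + b * β 2 + c * β 1 = 0)
    (h2 : a * β 4 + b * β 3 + c * β 2 = 0) : a = 0 ∧ b = 0 ∧ c = 0 := by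
  refine ⟨?_, ?_, ?_⟩
  · have : Hk β * a = 0 := by
      unfold Hk
      linear_combination (β 2 * β 2 - β 1 * β 3) * h0 + (β 0 * β 3 - β 1 * β 2) * h1
        + (β 1 * β 1 - β 0 * β 2) * h2
    rcases mul_eq_zero.1 this with h3 | h3
    · exact absurd h3 h
    · exact h3
  · have : Hk β * b = 0 := by
      unfold Hk
      linear_combination (β 1 * β 4 - β 2 * β 3) * h0 + (β 2 * β 2 - β 0 * β 4) * h1
        + (β 0 * β 3 - β 1 * β 2) * h2
    rcases mul_eq_zero.1 this with h3 | h3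
    · exact absurd h3 h
    · exact h3
  · have : Hk β * c = 0 := by
      unfold Hk
      linear_combination (β 3 * β 3 - β 2 * β 4) * h0 + (β 1 * β 4 - β 2 * β 3) * h1
        + (β 2 * β 2 - β 1 * β 3) * h2
    rcases mul_eq_zero.1 this with h3 | h3
    · exact absurd h3 h
    · exact h3

lemma Step.seq {D : Dat F} {b : Bool} {i : ℕ} {x y : ℕ → F} (hs : Step D b i x y) (j : ℕ)
    (hj : i + 1 + j < D.t) : y (i + 1 + j) = x (i + (j + 1)) - y i * x (i + j) := by
  have := hs.high (i + j) (by omega) (by omega)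
  rw [show i + 1 + j = i + j + 1 by ring, this]
  rfl

lemma Step.up_unique {D : Dat F} {b : Bool} {i : ℕ} {x y y' : ℕ → F} (hs : Step D b i x y)
    (hs' : Step D b i x y') (h : y i = y' i) : ∀ j < D.t, y j = y' j := by
  intro j hj
  rcases lt_trichotomy j i with hlt | heq2 | hgt
  · rw [hs.low j hlt, hs'.low j hlt]
  · rw [heq2]
    exact h
  · obtain ⟨j', rfl⟩ : ∃ j', j = j' + 1 := ⟨j - 1, by omega⟩
    rw [hs.high j' (by omega) hj, hs'.high j' (by omega) hj, h]

lemma Step.down_unique {D : Dat F} {b : Bool} {i : ℕ} {x x' y : ℕ → F} (hs : Step D b i x y)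
    (hs' : Step D b i x' y) (h : x i = x' i) : ∀ j < D.t, x j = x' j := by
  intro j
  induction j with
  | zero =>
    intro _
    rcases Nat.eq_zero_or_pos i with h0 | h0
    · subst h0
      exact h
    · rw [← hs.low 0 h0, hs'.low 0 h0]
  | succ j ih =>
    intro hj
    rcases lt_trichotomy (j + 1) i with hlt | heq2 | hgt
    · rw [← hs.low _ hlt, hs'.low _ hlt]
    · rw [heq2]
      exact h
    · have h1 := hs.high j (by omega) hj
      have h2 := hs'.high j (by omega) hj
      have h3 := ih (by omega)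
      rw [h1] at h2
      linear_combination h2 + y i * h3

/-- a closed walk in the upper half -/
structure WalkB (D : Dat F) (ℓ : ℕ) (σ : ℕ → Bool) (e : ℕ → ℕ) (Y : Bool → ℕ → ℕ → F) : Prop where
  perσ : ∀ k, σ (k + ℓ) = σ k
  pere : ∀ k, e (k + ℓ) = e k
  perY : ∀ b k, Y b (k + ℓ) = Y b k
  small : ∀ k, e k ≤ 7
  edge : ∀ k, (e k = e (k + 1) + 1 ∧
      Step D (σ k) (D.M (σ k) - e k) (Y (σ k) k) (Y (σ k) (k + 1))) ∨
    (e (k + 1) = e k + 1 ∧ Step D (σ k) (D.M (σ k) - e (k + 1)) (Y (σ k) (k + 1)) (Y (σ k) k))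
  same : ∀ k, 0 < e (k + 1) → σ k = σ (k + 1)
  top : ∀ k, e k = 0 → ∀ b, (∀ j < D.M (!b), Y b k (D.M b + j) = Y (!b) k j) ∧
    (∀ j < D.M b, Y b k j ∈ D.Z b j) ∧ Hk (Y b k) ≠ 0
  nb : ∀ k b, σ k = b → σ (k + 1) = b → e k = e (k + 2) → ¬ ∀ j < D.t, Y b k j = Y b (k + 2) j

namespace WalkB

variable {D : Dat F} {ℓ : ℕ} {σ : ℕ → Bool} {e : ℕ → ℕ} {Y : Bool → ℕ → ℕ → F}

lemma shift (W : WalkB D ℓ σ e Y) (r : ℕ) :
    WalkB D ℓ (fun k => σ (k + r)) (fun k => e (k + r)) (fun b k => Y b (k + r)) where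
  perσ k := by
    have := W.perσ (k + r)
    rw [show k + ℓ + r = k + r + ℓ by ring]
    exact this
  pere k := by
    have := W.pere (k + r)
    rw [show k + ℓ + r = k + r + ℓ by ring]
    exact this
  perY b k := by
    have := W.perY b (k + r)
    rw [show k + ℓ + r = k + r + ℓ by ring]
    exact this
  small k := W.small (k + r)
  edge k := by
    have := W.edge (k + r)
    rw [show k + 1 + r = k + r + 1 by ring]
    exact this
  same k := by
    have := W.same (k + r)
    rw [show k + 1 + r = k + r + 1 by ring]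
    exact this
  top k := W.top (k + r)
  nb k := by
    have := W.nb (k + r)
    rw [show k + 1 + r = k + r + 1 by ring, show k + 2 + r = k + r + 2 by ring]
    exact this

lemma step_e (W : WalkB D ℓ σ e Y) (k : ℕ) : e k = e (k + 1) + 1 ∨ e (k + 1) = e k + 1 := by
  rcases W.edge k with ⟨h1, _⟩ | ⟨h1, _⟩
  · exact Or.inl h1
  · exact Or.inr h1

lemma edge_up (W : WalkB D ℓ σ e Y) (k : ℕ) (b : Bool) (hb : σ k = b) (n : ℕ)
    (h1 : e k = n + 1) (h2 : e (k + 1) = n) :
    Step D b (D.M b - (n + 1)) (Y b k) (Y b (k + 1)) := by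
  rcases W.edge k with ⟨h3, h4⟩ | ⟨h3, h4⟩
  · rw [hb, h1] at h4
    exact h4
  · omega

lemma edge_down (W : WalkB D ℓ σ e Y) (k : ℕ) (b : Bool) (hb : σ k = b) (n : ℕ)
    (h1 : e k = n) (h2 : e (k + 1) = n + 1) :
    Step D b (D.M b - (n + 1)) (Y b (k + 1)) (Y b k) := by
  rcases W.edge k with ⟨h3, h4⟩ | ⟨h3, h4⟩
  · omega
  · rw [hb, h2] at h4
    exact h4

lemma stay (W : WalkB D ℓ σ e Y) (b : Bool) (K a : ℕ) (n : ℕ)
    (h : ∀ k, a ≤ k → k < a + n → σ k = b ∧ e k ≤ K ∧ e (k + 1) ≤ K) :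
    ∀ j, j + K < D.M b → Y b a j = Y b (a + n) j := by
  intro j hj
  induction n with
  | zero => rfl
  | succ n ih =>
    rw [ih (fun k hk1 hk2 => h k hk1 (by omega))]
    obtain ⟨h1, h2, h3⟩ := h (a + n) (by omega) (by omega)
    rcases W.edge (a + n) with ⟨h4, h5⟩ | ⟨h4, h5⟩
    · rw [h1] at h5
      exact (h5.low j (by omega)).symm
    · rw [h1] at h5
      exact h5.low j (by omega)

/-- the formulas at an edge ending at a top -/
lemma top_seq (W : WalkB D ℓ σ e Y) (k : ℕ) (b : Bool) (hk : e k = 0) (x : ℕ → F)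
    (hs : Step D b (D.M b - 1) x (Y b k)) (j : ℕ) (hj : j < D.M (!b)) :
    Y (!b) k j = x (D.M b - 1 + (j + 1)) - Y b k (D.M b - 1) * x (D.M b - 1 + j) := by
  have hM := D.hM b
  have ht := D.t_eq b
  have h1 := (W.top k hk b).1 j hj
  have h2 := hs.seq j (by omega)
  rw [show D.M b - 1 + 1 + j = D.M b + j by omega] at h2
  rw [← h1, h2]

lemma M1 (W : WalkB D ℓ σ e Y) (hℓ : ℓ ≤ 10) (hℓ2 : 4 ≤ ℓ) (b : Bool) (e0 : e 0 = 0)
    (e2 : e 2 = 0) (s0 : σ 0 = b) (s1 : σ 1 = b) (s2 : ∀ k, 2 ≤ k → k < ℓ → σ k = !b) : False := by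
  have hM := D.hM b
  have hM' := D.hM (!b)
  have t0 := W.step_e 0
  have t1 := W.step_e 1
  simp only [zero_add, Nat.reduceAdd] at t0 t1
  have e1 : e 1 = 1 := by omega
  have st0 : Step D b (D.M b - 1) (Y b 1) (Y b 0) := W.edge_down 0 b s0 0 e0 e1
  have st1 : Step D b (D.M b - 1) (Y b 1) (Y b 2) := W.edge_up 1 b s1 0 e1 e2
  have heℓ : e ℓ = 0 := by
    have := W.pere 0
    rw [zero_add] at this
    rw [this, e0]
  have hK : ∀ k, 2 ≤ k → k < 2 + (ℓ - 2) → σ k = (!b) ∧ e k ≤ 4 ∧ e (k + 1) ≤ 4 := by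
    have up : ∀ k, e (2 + k) ≤ k := by
      intro k
      induction k with
      | zero => simp [e2]
      | succ k ih =>
        have := W.step_e (2 + k)
        rw [show 2 + k + 1 = 2 + (k + 1) by ring] at this
        omega
    have down : ∀ k, k ≤ ℓ → e (ℓ - k) ≤ k := by
      intro k
      induction k with
      | zero => intro _; simp [heℓ]
      | succ k ih =>
        intro hk
        have := W.step_e (ℓ - (k + 1))
        rw [show ℓ - (k + 1) + 1 = ℓ - k by omega] at this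
        have := ih (by omega)
        omega
    intro k hk1 hk2
    refine ⟨s2 k hk1 (by omega), ?_, ?_⟩
    · have h1 := up (k - 2)
      have h2 := down (ℓ - k) (by omega)
      rw [show 2 + (k - 2) = k by omega] at h1
      rw [show ℓ - (ℓ - k) = k by omega] at h2
      omega
    · have h1 := up (k - 1)
      have h2 := down (ℓ - (k + 1)) (by omega)
      rw [show 2 + (k - 1) = k + 1 by omega] at h1
      rw [show ℓ - (ℓ - (k + 1)) = k + 1 by omega] at h2
      omega
  have hstay := W.stay (!b) 4 2 (ℓ - 2) hK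
  rw [show 2 + (ℓ - 2) = ℓ by omega] at hstay
  have hperY := W.perY (!b) 0
  rw [zero_add] at hperY
  rw [hperY] at hstay
  have q0 := hstay 0 (by omega)
  have q1 := hstay 1 (by omega)
  have a0 := W.top_seq 0 b e0 _ st0 0 (by omega)
  have a1 := W.top_seq 0 b e0 _ st0 1 (by omega)
  have b0 := W.top_seq 2 b e2 _ st1 0 (by omega)
  have b1 := W.top_seq 2 b e2 _ st1 1 (by omega)
  rw [q0] at b0
  rw [q1] at b1
  have hne : Y b 0 (D.M b - 1) ≠ Y b 2 (D.M b - 1) := by
    intro h
    exact W.nb 0 b s0 s1 (by rw [e0, zero_add, e2]) (st0.up_unique st1 h)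
  have hne' := sub_ne_zero.2 hne
  simp only [zero_add, add_zero, Nat.reduceAdd] at a0 a1 b0 b1
  set u0 := Y b 1 (D.M b - 1)
  set u1 := Y b 1 (D.M b - 1 + 1)
  set u2 := Y b 1 (D.M b - 1 + 2)
  have hu0 : u0 = 0 := by
    have : (Y b 0 (D.M b - 1) - Y b 2 (D.M b - 1)) * u0 = 0 := by linear_combination a0 - b0
    exact (mul_eq_zero.1 this).resolve_left hne'
  have hu1 : u1 = 0 := by
    have : (Y b 0 (D.M b - 1) - Y b 2 (D.M b - 1)) * u1 = 0 := by linear_combination a1 - b1
    exact (mul_eq_zero.1 this).resolve_left hne'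
  have hz : Y (!b) 0 0 = 0 := by
    rw [a0, hu0, hu1]
    ring
  have hmem := (W.top 0 e0 (!b)).2.1 0 (by omega)
  rw [hz] at hmem
  exact D.hZ0 _ _ hmem

lemma M2 (W : WalkB D ℓ σ e Y) (hℓ : ℓ ≤ 10) (hℓ2 : 4 ≤ ℓ) (b : Bool) (e0 : e 0 = 0)
    (e4 : e 4 = 0) (s0 : σ 0 = b) (s1 : σ 1 = b) (s2 : σ 2 = b) (s3 : σ 3 = b)
    (s4 : ∀ k, 4 ≤ k → k < ℓ → σ k = !b) : False := by
  have hM := D.hM b
  have hM' := D.hM (!b)
  have t0 := W.step_e 0
  have t1 := W.step_e 1
  have t2 := W.step_e 2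
  have t3 := W.step_e 3
  simp only [zero_add, Nat.reduceAdd] at t0 t1 t2 t3
  have e1 : e 1 = 1 := by omega
  have e3 : e 3 = 1 := by omega
  have st0 : Step D b (D.M b - 1) (Y b 1) (Y b 0) := W.edge_down 0 b s0 0 e0 e1
  have st3 : Step D b (D.M b - 1) (Y b 3) (Y b 4) := W.edge_up 3 b s3 0 e3 e4
  have heℓ : e ℓ = 0 := by
    have := W.pere 0
    rw [zero_add] at this
    rw [this, e0]
  have hK : ∀ k, 4 ≤ k → k < 4 + (ℓ - 4) → σ k = (!b) ∧ e k ≤ 3 ∧ e (k + 1) ≤ 3 := by
    have up : ∀ k, e (4 + k) ≤ k := by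
      intro k
      induction k with
      | zero => simp [e4]
      | succ k ih =>
        have := W.step_e (4 + k)
        rw [show 4 + k + 1 = 4 + (k + 1) by ring] at this
        omega
    have down : ∀ k, k ≤ ℓ → e (ℓ - k) ≤ k := by
      intro k
      induction k with
      | zero => intro _; simp [heℓ]
      | succ k ih =>
        intro hk
        have := W.step_e (ℓ - (k + 1))
        rw [show ℓ - (k + 1) + 1 = ℓ - k by omega] at this
        have := ih (by omega)
        omega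
    intro k hk1 hk2
    refine ⟨s4 k hk1 (by omega), ?_, ?_⟩
    · have h1 := up (k - 4)
      have h2 := down (ℓ - k) (by omega)
      rw [show 4 + (k - 4) = k by omega] at h1
      rw [show ℓ - (ℓ - k) = k by omega] at h2
      omega
    · have h1 := up (k - 3)
      have h2 := down (ℓ - (k + 1)) (by omega)
      rw [show 4 + (k - 3) = k + 1 by omega] at h1
      rw [show ℓ - (ℓ - (k + 1)) = k + 1 by omega] at h2
      omega
  have hstay := W.stay (!b) 3 4 (ℓ - 4) hK
  rw [show 4 + (ℓ - 4) = ℓ by omega] at hstay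
  have hperY := W.perY (!b) 0
  rw [zero_add] at hperY
  rw [hperY] at hstay
  have a : ∀ j < 8, Y (!b) 0 j = Y b 1 (D.M b - 1 + (j + 1))
      - Y b 0 (D.M b - 1) * Y b 1 (D.M b - 1 + j) :=
    fun j hj => W.top_seq 0 b e0 _ st0 j (by omega)
  have c : ∀ j < 5, Y (!b) 0 j = Y b 3 (D.M b - 1 + (j + 1))
      - Y b 4 (D.M b - 1) * Y b 3 (D.M b - 1 + j) := by
    intro j hj
    rw [← hstay j (by omega)]
    exact W.top_seq 4 b e4 _ st3 j (by omega)
  have hnd := nd_of_Hk _ (W.top 0 e0 (!b)).2.2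
  rcases t1 with e2 | e2
  · -- touching a top at vertex 2
    have e2' : e 2 = 0 := by omega
    have st1 : Step D b (D.M b - 1) (Y b 1) (Y b 2) := W.edge_up 1 b s1 0 e1 e2'
    have st2 : Step D b (D.M b - 1) (Y b 3) (Y b 2) := W.edge_down 2 b s2 0 e2' e3
    have hne0 : Y b 0 (D.M b - 1) ≠ Y b 2 (D.M b - 1) := by
      intro h
      exact W.nb 0 b s0 s1 (by rw [e0, zero_add, e2']) (st0.up_unique st1 h)
    have hne4 : Y b 2 (D.M b - 1) ≠ Y b 4 (D.M b - 1) := by
      intro h
      exact W.nb 2 b s2 s3 (by rw [e4, e2']) (st2.up_unique st3 h)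
    have hne13 : Y b 1 (D.M b - 1) ≠ Y b 3 (D.M b - 1) := by
      intro h
      exact W.nb 1 b s1 s2 (by simp only [Nat.reduceAdd]; rw [e1, e3]) (st1.down_unique st2 h)
    have a0 := a 0 (by omega)
    have a1 := a 1 (by omega)
    have c0 := c 0 (by omega)
    have c1 := c 1 (by omega)
    have m0 := W.top_seq 2 b e2' _ st1 0 (by omega)
    have m1 := W.top_seq 2 b e2' _ st1 1 (by omega)
    have n0 := W.top_seq 2 b e2' _ st2 0 (by omega)
    have n1 := W.top_seq 2 b e2' _ st2 1 (by omega)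
    have hmem := (W.top 2 e2' (!b)).2.1 0 (by omega)
    simp only [zero_add, add_zero, Nat.reduceAdd] at a0 a1 c0 c1 m0 m1 n0 n1
    have hz : Y (!b) 2 0 ≠ 0 := by
      intro h
      rw [h] at hmem
      exact D.hZ0 _ _ hmem
    set u0 := Y b 1 (D.M b - 1)
    set u1 := Y b 1 (D.M b - 1 + 1)
    set u2 := Y b 1 (D.M b - 1 + 2)
    set w0 := Y b 3 (D.M b - 1)
    set w1 := Y b 3 (D.M b - 1 + 1)
    set w2 := Y b 3 (D.M b - 1 + 2)
    set z0 := Y b 0 (D.M b - 1)
    set z2 := Y b 2 (D.M b - 1)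
    set z4 := Y b 4 (D.M b - 1)
    -- (z2 - z0) u = (z2 - z4) w
    have r0 : (z2 - z0) * u0 = (z2 - z4) * w0 := by linear_combination c0 - a0 + m0 - n0
    have r1 : (z2 - z0) * u1 = (z2 - z4) * w1 := by linear_combination c1 - a1 + m1 - n1
    have r2 : (z0 - z4) * (w1 - z2 * w0) = 0 := by
      linear_combination - (z2 - z0) * (m0 - n0) - r1 + z2 * r0
    rcases mul_eq_zero.1 r2 with h | h
    · have h' : z0 = z4 := sub_eq_zero.1 h
      rw [← h'] at r0
      have : u0 = w0 := mul_left_cancel₀ (sub_ne_zero.2 (Ne.symm hne0)) r0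
      exact hne13 this
    · apply hz
      rw [n0, h]
  · -- vertex 2 has codepth 2
    have e2' : e 2 = 2 := by omega
    have st1 : Step D b (D.M b - 2) (Y b 2) (Y b 1) := W.edge_down 1 b s1 1 e1 e2'
    have st2 : Step D b (D.M b - 2) (Y b 2) (Y b 3) := W.edge_up 2 b s2 1 e2' e3
    have hne13 : Y b 1 (D.M b - 2) ≠ Y b 3 (D.M b - 2) := by
      intro h
      exact W.nb 1 b s1 s2 (by simp only [Nat.reduceAdd]; rw [e1, e3]) (st1.up_unique st2 h)
    have ht := D.t_eq b
    have p : ∀ j < 9, Y b 1 (D.M b - 1 + j) = Y b 2 (D.M b - 2 + (j + 1))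
        - Y b 1 (D.M b - 2) * Y b 2 (D.M b - 2 + j) := by
      intro j hj
      have := st1.seq j (by omega)
      rw [show D.M b - 2 + 1 + j = D.M b - 1 + j by omega] at this
      exact this
    have q : ∀ j < 9, Y b 3 (D.M b - 1 + j) = Y b 2 (D.M b - 2 + (j + 1))
        - Y b 3 (D.M b - 2) * Y b 2 (D.M b - 2 + j) := by
      intro j hj
      have := st2.seq j (by omega)
      rw [show D.M b - 2 + 1 + j = D.M b - 1 + j by omega] at this
      exact this
    have hmix : Y b 1 (D.M b - 2) ≠ Y b 4 (D.M b - 1) := by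
      intro h
      have h1 := st1.laby
      have h2 := st3.laby
      rw [h] at h1
      have := (D.hZd _ _ _ _ _ h1 h2).2
      omega
    set u : ℕ → F := fun j => Y b 2 (D.M b - 2 + j) with hu
    set z1 := Y b 1 (D.M b - 2)
    set z3 := Y b 3 (D.M b - 2)
    set z0 := Y b 0 (D.M b - 1)
    set z4 := Y b 4 (D.M b - 1)
    have A : ∀ j < 8, Y (!b) 0 j = u (j + 2) - (z1 + z0) * u (j + 1) + z1 * z0 * u j := by
      intro j hj
      rw [a j hj, p (j + 1) (by omega), p j (by omega)]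
      simp only [hu]
      rw [show j + 1 + 1 = j + 2 by ring]
      ring
    have C : ∀ j < 5, Y (!b) 0 j = u (j + 2) - (z3 + z4) * u (j + 1) + z3 * z4 * u j := by
      intro j hj
      rw [c j hj, q (j + 1) (by omega), q j (by omega)]
      simp only [hu]
      rw [show j + 1 + 1 = j + 2 by ring]
      ring
    have R : ∀ j < 5, (z3 + z4 - z1 - z0) * u (j + 1) + (z1 * z0 - z3 * z4) * u j = 0 := by
      intro j hj
      have h1 := A j (by omega)
      have h2 := C j hj
      linear_combination h2 - h1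
    have S : ∀ j < 3, (z3 + z4 - z1 - z0) * Y (!b) 0 (j + 1)
        + (z1 * z0 - z3 * z4) * Y (!b) 0 j = 0 := by
      intro j hj
      have r0 := R j (by omega)
      have r1 := R (j + 1) (by omega)
      have r2 := R (j + 2) (by omega)
      rw [A j (by omega), A (j + 1) (by omega)]
      rw [show j + 1 + 1 = j + 2 by ring] at *
      rw [show j + 2 + 1 = j + 3 by ring] at *
      rw [show j + 1 + 2 = j + 3 by ring] at *
      linear_combination r2 - (z1 + z0) * r1 + z1 * z0 * r0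
    have hfin := hnd 0 (z3 + z4 - z1 - z0) (z1 * z0 - z3 * z4)
      (by linear_combination S 0 (by omega))
      (by linear_combination S 1 (by omega))
      (by linear_combination S 2 (by omega))
    have h5 : (z1 - z3) * (z1 - z4) = 0 := by
      linear_combination - z1 * hfin.2.1 - hfin.2.2
    rcases mul_eq_zero.1 h5 with h | h
    · exact hne13 (sub_eq_zero.1 h)
    · exact hmix (sub_eq_zero.1 h)

lemma M3 (W : WalkB D 10 σ e Y) (b : Bool) (e0 : e 0 = 0) (e2 : e 2 = 0)
    (e4 : e 4 = 0) (e8 : e 8 = 0) (s0 : σ 0 = b) (s1 : σ 1 = b) (s2 : σ 2 = !b) (s3 : σ 3 = !b)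
    (s4 : σ 4 = b) (s5 : σ 5 = b) (s6 : σ 6 = b) (s7 : σ 7 = b) (s8 : σ 8 = !b)
    (s9 : σ 9 = !b) : False := by
  have hM := D.hM b
  have hM' := D.hM (!b)
  have ht := D.t_eq b
  have t0 := W.step_e 0
  have t2 := W.step_e 2
  have t4 := W.step_e 4
  have t5 := W.step_e 5
  have t6 := W.step_e 6
  have t7 := W.step_e 7
  have t8 := W.step_e 8
  have e10 : e 10 = 0 := by
    have := W.pere 0
    rw [zero_add] at this
    rw [this, e0]
  simp only [zero_add, Nat.reduceAdd] at t0 t2 t4 t5 t6 t7 t8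
  have e1 : e 1 = 1 := by omega
  have e3 : e 3 = 1 := by omega
  have e5 : e 5 = 1 := by omega
  have e7 : e 7 = 1 := by omega
  have e9 : e 9 = 1 := by omega
  have st0 : Step D b (D.M b - 1) (Y b 1) (Y b 0) := W.edge_down 0 b s0 0 e0 e1
  have st1 : Step D b (D.M b - 1) (Y b 1) (Y b 2) := W.edge_up 1 b s1 0 e1 e2
  have st4 : Step D b (D.M b - 1) (Y b 5) (Y b 4) := W.edge_down 4 b s4 0 e4 e5
  have st7 : Step D b (D.M b - 1) (Y b 7) (Y b 8) := W.edge_up 7 b s7 0 e7 e8
  have h24 : ∀ j < 7, Y (!b) 2 j = Y (!b) 4 j := by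
    intro j hj
    apply W.stay (!b) 1 2 2 _ j (by omega)
    intro k hk1 hk2
    have : k = 2 ∨ k = 3 := by omega
    rcases this with rfl | rfl
    · exact ⟨s2, by omega, by simp only [Nat.reduceAdd]; omega⟩
    · exact ⟨s3, by omega, by simp only [Nat.reduceAdd]; omega⟩
  have h80 : ∀ j < 7, Y (!b) 8 j = Y (!b) 0 j := by
    intro j hj
    have hper := W.perY (!b) 0
    rw [zero_add] at hper
    rw [← hper]
    apply W.stay (!b) 1 8 2 _ j (by omega)
    intro k hk1 hk2
    have : k = 8 ∨ k = 9 := by omega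
    rcases this with rfl | rfl
    · exact ⟨s8, by omega, by simp only [Nat.reduceAdd]; omega⟩
    · exact ⟨s9, by omega, by simp only [Nat.reduceAdd]; omega⟩
  have hne02 : Y b 0 (D.M b - 1) ≠ Y b 2 (D.M b - 1) := by
    intro h
    exact W.nb 0 b s0 s1 (by rw [e0, zero_add, e2]) (st0.up_unique st1 h)
  have a : ∀ j < 8, Y (!b) 0 j = Y b 1 (D.M b - 1 + (j + 1))
      - Y b 0 (D.M b - 1) * Y b 1 (D.M b - 1 + j) :=
    fun j hj => W.top_seq 0 b e0 _ st0 j (by omega)
  have a2 : ∀ j < 8, Y (!b) 2 j = Y b 1 (D.M b - 1 + (j + 1))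
      - Y b 2 (D.M b - 1) * Y b 1 (D.M b - 1 + j) :=
    fun j hj => W.top_seq 2 b e2 _ st1 j (by omega)
  have a4 : ∀ j < 8, Y (!b) 4 j = Y b 5 (D.M b - 1 + (j + 1))
      - Y b 4 (D.M b - 1) * Y b 5 (D.M b - 1 + j) :=
    fun j hj => W.top_seq 4 b e4 _ st4 j (by omega)
  have a8 : ∀ j < 8, Y (!b) 8 j = Y b 7 (D.M b - 1 + (j + 1))
      - Y b 8 (D.M b - 1) * Y b 7 (D.M b - 1 + j) :=
    fun j hj => W.top_seq 8 b e8 _ st7 j (by omega)
  rcases t5 with e6 | e6
  · -- touching a top at vertex 6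
    have e6' : e 6 = 0 := by omega
    have st5 : Step D b (D.M b - 1) (Y b 5) (Y b 6) := W.edge_up 5 b s5 0 e5 e6'
    have st6 : Step D b (D.M b - 1) (Y b 7) (Y b 6) := W.edge_down 6 b s6 0 e6' e7
    have hne46 : Y b 4 (D.M b - 1) ≠ Y b 6 (D.M b - 1) := by
      intro h
      exact W.nb 4 b s4 s5 (by rw [e4]; exact e6'.symm) (st4.up_unique st5 h)
    have hne68 : Y b 6 (D.M b - 1) ≠ Y b 8 (D.M b - 1) := by
      intro h
      exact W.nb 6 b s6 s7 (by rw [e6']; exact e8.symm) (st6.up_unique st7 h)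
    have hne57 : Y b 5 (D.M b - 1) ≠ Y b 7 (D.M b - 1) := by
      intro h
      exact W.nb 5 b s5 s6 (by rw [e5]; exact e7.symm) (st5.down_unique st6 h)
    have a6 : ∀ j < 8, Y (!b) 6 j = Y b 5 (D.M b - 1 + (j + 1))
        - Y b 6 (D.M b - 1) * Y b 5 (D.M b - 1 + j) :=
      fun j hj => W.top_seq 6 b e6' _ st5 j (by omega)
    have a6' : ∀ j < 8, Y (!b) 6 j = Y b 7 (D.M b - 1 + (j + 1))
        - Y b 6 (D.M b - 1) * Y b 7 (D.M b - 1 + j) :=
      fun j hj => W.top_seq 6 b e6' _ st6 j (by omega)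
    have hnd := nd_of_Hk _ (W.top 0 e0 (!b)).2.2
    set f : ℕ → F := fun j => Y b 1 (D.M b - 1 + j) with hf
    set w : ℕ → F := fun j => Y b 5 (D.M b - 1 + j) with hw
    set v : ℕ → F := fun j => Y b 7 (D.M b - 1 + j) with hv
    set z0 := Y b 0 (D.M b - 1)
    set z2 := Y b 2 (D.M b - 1)
    set z4 := Y b 4 (D.M b - 1)
    set z6 := Y b 6 (D.M b - 1)
    set z8 := Y b 8 (D.M b - 1)
    have E1 : ∀ j < 7, f (j + 1) - z2 * f j = w (j + 1) - z4 * w j := by
      intro j hj
      have h1 := a2 j (by omega)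
      have h2 := a4 j (by omega)
      have h3 := h24 j hj
      simp only [hf, hw]
      linear_combination h2 - h1 + h3
    have E2 : ∀ j < 7, f (j + 1) - z0 * f j = v (j + 1) - z8 * v j := by
      intro j hj
      have h1 := a j (by omega)
      have h2 := a8 j (by omega)
      have h3 := h80 j hj
      simp only [hf, hv]
      linear_combination h2 - h1 - h3
    have E3 : ∀ j < 7, w (j + 1) - z6 * w j = v (j + 1) - z6 * v j := by
      intro j hj
      have h1 := a6 j (by omega)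
      have h2 := a6' j (by omega)
      simp only [hw, hv]
      linear_combination h2 - h1
    have E4 : ∀ j < 5, (z4 + z0 - z8 - z2) * f (j + 2)
        + ((z8 * z2 - z4 * z0) - (z4 + z0 - z8 - z2) * z6) * f (j + 1)
        - (z8 * z2 - z4 * z0) * z6 * f j = 0 := by
      intro j hj
      have p0 := E1 j (by omega)
      have p1 := E1 (j + 1) (by omega)
      have p2 := E1 (j + 2) (by omega)
      have q0 := E2 j (by omega)
      have q1 := E2 (j + 1) (by omega)
      have q2 := E2 (j + 2) (by omega)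
      have r0 := E3 j (by omega)
      have r1 := E3 (j + 1) (by omega)
      have r2 := E3 (j + 2) (by omega)
      rw [show j + 2 + 1 = j + 3 by ring] at p2 q2 r2
      rw [show j + 1 + 1 = j + 2 by ring] at p1 q1 r1
      -- (E - z8)(E - z6) applied to E1 minus (E - z4)(E - z6) applied to E2
      linear_combination (p2 - (z8 + z6) * p1 + z8 * z6 * p0) - (q2 - (z4 + z6) * q1 + z4 * z6 * q0)
        + (r2 - (z4 + z8) * r1 + z4 * z8 * r0)
    have E5 : ∀ j < 3, (z4 + z0 - z8 - z2) * Y (!b) 0 (j + 2)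
        + ((z8 * z2 - z4 * z0) - (z4 + z0 - z8 - z2) * z6) * Y (!b) 0 (j + 1)
        + (- (z8 * z2 - z4 * z0) * z6) * Y (!b) 0 j = 0 := by
      intro j hj
      have p0 := E4 j (by omega)
      have p1 := E4 (j + 1) (by omega)
      have x0 : Y (!b) 0 j = f (j + 1) - z0 * f j := a j (by omega)
      have x1 : Y (!b) 0 (j + 1) = f (j + 2) - z0 * f (j + 1) := a (j + 1) (by omega)
      have x2 : Y (!b) 0 (j + 2) = f (j + 3) - z0 * f (j + 2) := a (j + 2) (by omega)
      rw [x0, x1, x2]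
      rw [show j + 1 + 1 = j + 2 by ring, show j + 1 + 2 = j + 3 by ring] at p1
      linear_combination p1 - z0 * p0
    have hfin := hnd _ _ _ (E5 0 (by omega)) (E5 1 (by omega)) (E5 2 (by omega))
    have hA : z4 + z0 - z8 - z2 = 0 := hfin.1
    have hB : z8 * z2 - z4 * z0 = 0 := by
      have := hfin.2.1
      rw [hA] at this
      linear_combination this
    have hroot : (z4 - z8) * (z4 - z2) = 0 := by linear_combination z4 * hA + hB
    rcases mul_eq_zero.1 hroot with h | h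
    · apply hne02
      linear_combination hA - h
    · have h42 : z4 = z2 := sub_eq_zero.1 h
      have h08 : z0 = z8 := by linear_combination hA - h
      have p0 := E1 0 (by omega)
      have p1 := E1 1 (by omega)
      have q0 := E2 0 (by omega)
      have q1 := E2 1 (by omega)
      have r0 := E3 0 (by omega)
      have r1 := E3 1 (by omega)
      simp only [zero_add, Nat.reduceAdd] at p0 p1 q0 q1 r0 r1
      rw [h42] at p0 p1
      rw [← h08] at q0 q1
      have hk : (z6 - z0) * (z6 - z2) * (w 0 - v 0) = 0 := by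
        linear_combination (q1 - z2 * q0) - (p1 - z0 * p0) - r1 + (z0 + z2 - z6) * r0
      rcases mul_eq_zero.1 hk with h' | h'
      · rcases mul_eq_zero.1 h' with h'' | h''
        · exact hne68 (by linear_combination h'' + h08)
        · exact hne46 (by linear_combination h42 - h'')
      · apply hne57
        exact sub_eq_zero.1 h'
  · -- vertex 6 has codepth 2
    have e6' : e 6 = 2 := by omega
    have st5 : Step D b (D.M b - 2) (Y b 6) (Y b 5) := W.edge_down 5 b s5 1 e5 e6'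
    have st6 : Step D b (D.M b - 2) (Y b 6) (Y b 7) := W.edge_up 6 b s6 1 e6' e7
    have hne57 : Y b 5 (D.M b - 2) ≠ Y b 7 (D.M b - 2) := by
      intro h
      exact W.nb 5 b s5 s6 (by rw [e5]; exact e7.symm) (st5.up_unique st6 h)
    have p : ∀ j < 9, Y b 5 (D.M b - 1 + j) = Y b 6 (D.M b - 2 + (j + 1))
        - Y b 5 (D.M b - 2) * Y b 6 (D.M b - 2 + j) := by
      intro j hj
      have := st5.seq j (by omega)
      rw [show D.M b - 2 + 1 + j = D.M b - 1 + j by omega] at this
      exact this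
    have q : ∀ j < 9, Y b 7 (D.M b - 1 + j) = Y b 6 (D.M b - 2 + (j + 1))
        - Y b 7 (D.M b - 2) * Y b 6 (D.M b - 2 + j) := by
      intro j hj
      have := st6.seq j (by omega)
      rw [show D.M b - 2 + 1 + j = D.M b - 1 + j by omega] at this
      exact this
    have hmix : ∀ z, z ∈ D.Z b (D.M b - 1) → Y b 5 (D.M b - 2) ≠ z := by
      intro z hz h
      have h1 := st5.laby
      rw [h] at h1
      have := (D.hZd _ _ _ _ _ h1 hz).2
      omega
    have hmix2 := hmix _ st1.laby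
    have hmix8 := hmix _ st7.laby
    have hnd := nd_of_Hk _ (W.top 4 e4 (!b)).2.2
    set f : ℕ → F := fun j => Y b 1 (D.M b - 1 + j) with hf
    set u : ℕ → F := fun j => Y b 6 (D.M b - 2 + j) with hu
    set z0 := Y b 0 (D.M b - 1)
    set z2 := Y b 2 (D.M b - 1)
    set z4 := Y b 4 (D.M b - 1)
    set z8 := Y b 8 (D.M b - 1)
    set y5 := Y b 5 (D.M b - 2)
    set y7 := Y b 7 (D.M b - 2)
    have A : ∀ j < 8, Y (!b) 4 j = u (j + 2) - (y5 + z4) * u (j + 1) + y5 * z4 * u j := by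
      intro j hj
      rw [a4 j hj, p (j + 1) (by omega), p j (by omega)]
      simp only [hu]
      rw [show j + 1 + 1 = j + 2 by ring]
      ring
    have C : ∀ j < 8, Y (!b) 8 j = u (j + 2) - (y7 + z8) * u (j + 1) + y7 * z8 * u j := by
      intro j hj
      rw [a8 j hj, q (j + 1) (by omega), q j (by omega)]
      simp only [hu]
      rw [show j + 1 + 1 = j + 2 by ring]
      ring
    have R : ∀ j < 6, Y (!b) 4 (j + 1) - z0 * Y (!b) 4 j = Y (!b) 8 (j + 1) - z2 * Y (!b) 8 j := by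
      intro j hj
      rw [← h24 j (by omega), ← h24 (j + 1) (by omega), h80 j (by omega), h80 (j + 1) (by omega),
        a j (by omega), a (j + 1) (by omega), a2 j (by omega), a2 (j + 1) (by omega)]
      ring
    have N : ∀ j < 6, (- (z0 + z4 + y5) + (z2 + z8 + y7)) * u (j + 2)
        + ((z0 * z4 + z0 * y5 + z4 * y5) - (z2 * z8 + z2 * y7 + z8 * y7)) * u (j + 1)
        + (- (z0 * z4 * y5) + z2 * z8 * y7) * u j = 0 := by
      intro j hj
      have h1 := R j hj
      rw [A j (by omega), A (j + 1) (by omega), C j (by omega), C (j + 1) (by omega)] at h1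
      rw [show j + 1 + 1 = j + 2 by ring, show j + 1 + 2 = j + 3 by ring] at h1
      linear_combination h1
    have S : ∀ j < 3, (- (z0 + z4 + y5) + (z2 + z8 + y7)) * Y (!b) 4 (j + 2)
        + ((z0 * z4 + z0 * y5 + z4 * y5) - (z2 * z8 + z2 * y7 + z8 * y7)) * Y (!b) 4 (j + 1)
        + (- (z0 * z4 * y5) + z2 * z8 * y7) * Y (!b) 4 j = 0 := by
      intro j hj
      have n0 := N j (by omega)
      have n1 := N (j + 1) (by omega)
      have n2 := N (j + 2) (by omega)
      rw [A j (by omega), A (j + 1) (by omega), A (j + 2) (by omega)]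
      rw [show j + 1 + 1 = j + 2 by ring, show j + 1 + 2 = j + 3 by ring] at *
      rw [show j + 2 + 1 = j + 3 by ring, show j + 2 + 2 = j + 4 by ring] at *
      linear_combination n2 - (y5 + z4) * n1 + y5 * z4 * n0
    have hfin := hnd _ _ _ (S 0 (by omega)) (S 1 (by omega)) (S 2 (by omega))
    have h5 : (y5 - z2) * (y5 - z8) * (y5 - y7) = 0 := by
      linear_combination - y5 ^ 2 * hfin.1 - y5 * hfin.2.1 - hfin.2.2
    rcases mul_eq_zero.1 h5 with h | h
    · rcases mul_eq_zero.1 h with h' | h'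
      · exact hmix2 (sub_eq_zero.1 h')
      · exact hmix8 (sub_eq_zero.1 h')
    · exact hne57 (sub_eq_zero.1 h)

end WalkB

end Pool.Agent.Chi73
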