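import Mathlib

set_option autoImplicit false

namespace Pool.Agent.Chi73

/-- the combinatorial properties of heights and labels along a closed walk of case A -/
structure Prof (F : Type) (ℓ : ℕ) (h : ℕ → ℕ) (lam : ℕ → F) : Prop where
  perh : ∀ k, h (k + ℓ) = h k
  perl : ∀ k, lam (k + ℓ) = lam k
  step : ∀ k, h (k + 1) = h k + 1 ∨ h k = h (k + 1) + 1
  valley : ∀ k, h k = h (k + 1) + 1 → h (k + 2) = h (k + 1) + 1 → lam k ≠ lam (k + 1)
  peakeq : ∀ k, h (k + 1) = h k + 1 → h (k + 1) = h (k + 2) + 1 → lam k = lam (k + 1)
  peak : ∀ k, h (k + 1) = h k + 1 → h (k + 1) = h (k + 2) + 1 →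
    ∃ j, 2 ≤ j ∧ j < ℓ ∧ lam (k + j) = lam k
  level : ∀ j k, lam j = lam k → min (h j) (h (j + 1)) = min (h k) (h (k + 1))
  matching : ∀ k n, h (k + 1) = h k + 1 → (∀ j, 1 ≤ j → j ≤ n → h k < h (k + j)) →
    h (k + n + 1) = h k → lam k = lam (k + n)

namespace Prof


variable {F : Type} {ℓ : ℕ} {h : ℕ → ℕ} {lam : ℕ → F}

lemma shift (W : Prof F ℓ h lam) (r : ℕ) : Prof F ℓ (fun k => h (k + r)) (fun k => lam (k + r)) where
  perh k := by
    have := W.perh (k + r)
    rw [show k + ℓ + r = k + r + ℓ by ring]
    exact this
  perl k := by
    have := W.perl (k + r)
    rw [show k + ℓ + r = k + r + ℓ by ring]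
    exact this
  step k := by
    have := W.step (k + r)
    rw [show k + 1 + r = k + r + 1 by ring]
    exact this
  valley k := by
    have := W.valley (k + r)
    rw [show k + 1 + r = k + r + 1 by ring, show k + 2 + r = k + r + 2 by ring]
    exact this
  peakeq k := by
    have := W.peakeq (k + r)
    rw [show k + 1 + r = k + r + 1 by ring, show k + 2 + r = k + r + 2 by ring]
    exact this
  peak k := by
    intro h1 h2
    rw [show k + 1 + r = k + r + 1 by ring] at h1 h2
    rw [show k + 2 + r = k + r + 2 by ring] at h2
    obtain ⟨j, hj1, hj2, hj3⟩ := W.peak (k + r) h1 h2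
    refine ⟨j, hj1, hj2, ?_⟩
    rw [show k + j + r = k + r + j by ring]
    exact hj3
  level j k := by
    have := W.level (j + r) (k + r)
    rw [show j + 1 + r = j + r + 1 by ring, show k + 1 + r = k + r + 1 by ring]
    exact this
  matching k n := by
    intro h1 h2 h3
    rw [show k + 1 + r = k + r + 1 by ring] at h1
    rw [show k + n + 1 + r = k + r + n + 1 by ring] at h3
    rw [show k + n + r = k + r + n by ring]
    apply W.matching (k + r) n h1 _ h3
    intro j hj1 hj2
    have := h2 j hj1 hj2
    rw [show k + r + j = k + j + r by ring]
    exact this

/-- some shift of the walk starts at its minimum -/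
lemma exists_min (hper : ∀ k, h (k + ℓ) = h k) (hℓ : 0 < ℓ) : ∃ r, ∀ k, h r ≤ h k := by
  classical
  obtain ⟨r, _, hr⟩ := Finset.exists_min_image (Finset.range ℓ) h ⟨0, by simpa using hℓ⟩
  refine ⟨r, fun k => ?_⟩
  have : h k = h (k % ℓ) := by
    have key : ∀ m n, h (m + n * ℓ) = h m := by
      intro m n
      induction n with
      | zero => simp
      | succ n ih => rw [show m + (n + 1) * ℓ = (m + n * ℓ) + ℓ by ring, hper, ih]
    conv_lhs => rw [← Nat.mod_add_div k ℓ, mul_comm]
    rw [key]
  rw [this]
  exact hr _ (Finset.mem_range.2 (Nat.mod_lt _ hℓ))

lemma no4 (W : Prof F 4 h lam) (hmin : ∀ k, h 0 ≤ h k) : False := by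
  have p0 : h 4 = h 0 := W.perh 0
  have p1 : h 5 = h 1 := W.perh 1
  have q0 : lam 4 = lam 0 := W.perl 0
  have s0 := W.step 0
  have s1 := W.step 1
  have s2 := W.step 2
  have s3 := W.step 3
  have m1 := hmin 1
  have m2 := hmin 2
  have m3 := hmin 3
  simp only [Nat.reduceAdd] at s0 s1 s2 s3
  by_cases z2 : h 2 = h 0
  · obtain ⟨j, j1, j2, j3⟩ := W.peak 0 (by simp only [Nat.reduceAdd]; omega) (by simp only [Nat.reduceAdd]; omega)
    have v1 := W.valley 1 (by simp only [Nat.reduceAdd]; omega) (by simp only [Nat.reduceAdd]; omega)
    have v3 := W.valley 3 (by simp only [Nat.reduceAdd]; omega) (by simp only [Nat.reduceAdd]; omega)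
    have e0 := W.peakeq 0 (by simp only [Nat.reduceAdd]; omega) (by simp only [Nat.reduceAdd]; omega)
    have e2 := W.peakeq 2 (by simp only [Nat.reduceAdd]; omega) (by simp only [Nat.reduceAdd]; omega)
    simp only [Nat.reduceAdd, zero_add] at *
    interval_cases j <;> grind
  · have e := W.matching 0 3 (by simp only [Nat.reduceAdd]; omega) (by
      intro j hj1 hj2
      interval_cases j <;> simp only [Nat.reduceAdd] <;> omega) (by simp only [Nat.reduceAdd]; omega)
    have v3 := W.valley 3 (by simp only [Nat.reduceAdd]; omega) (by simp only [Nat.reduceAdd]; omega)
    simp only [Nat.reduceAdd, zero_add] at *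
    grind

lemma no6 (W : Prof F 6 h lam) (hmin : ∀ k, h 0 ≤ h k) : False := by
  have p0 : h 6 = h 0 := W.perh 0
  have q0 : lam 6 = lam 0 := W.perl 0
  have p1 : h 7 = h 1 := W.perh 1
  have q1 : lam 7 = lam 1 := W.perl 1
  have p2 : h 8 = h 2 := W.perh 2
  have q2 : lam 8 = lam 2 := W.perl 2
  have p3 : h 9 = h 3 := W.perh 3
  have q3 : lam 9 = lam 3 := W.perl 3
  have p4 : h 10 = h 4 := W.perh 4
  have q4 : lam 10 = lam 4 := W.perl 4
  have p5 : h 11 = h 5 := W.perh 5
  have q5 : lam 11 = lam 5 := W.perl 5
  have s0 : h 1 = h 0 + 1 ∨ h 0 = h 1 + 1 := W.step 0
  have s1 : h 2 = h 1 + 1 ∨ h 1 = h 2 + 1 := W.step 1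
  have s2 : h 3 = h 2 + 1 ∨ h 2 = h 3 + 1 := W.step 2
  have s3 : h 4 = h 3 + 1 ∨ h 3 = h 4 + 1 := W.step 3
  have s4 : h 5 = h 4 + 1 ∨ h 4 = h 5 + 1 := W.step 4
  have s5 : h 6 = h 5 + 1 ∨ h 5 = h 6 + 1 := W.step 5
  have m1 := hmin 1
  have m2 := hmin 2
  have m3 := hmin 3
  have m4 := hmin 4
  have m5 := hmin 5
  clear hmin
  by_cases z2 : h 2 = h 0
  · have _ := m1
    by_cases z4 : h 4 = h 0
    · have _ := m1
      -- zeros [2, 4]
      have e0 := W.peakeq 0 (by first | omega | (simp only [Nat.reduceAdd, zero_add]; omega)) (by first | omega | (simp only [Nat.reduceAdd, zero_add]; omega))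
      have e2 := W.peakeq 2 (by first | omega | (simp only [Nat.reduceAdd, zero_add]; omega)) (by first | omega | (simp only [Nat.reduceAdd, zero_add]; omega))
      have e4 := W.peakeq 4 (by first | omega | (simp only [Nat.reduceAdd, zero_add]; omega)) (by first | omega | (simp only [Nat.reduceAdd, zero_add]; omega))
      have v2 := W.valley 1 (by first | omega | (simp only [Nat.reduceAdd, zero_add]; omega)) (by first | omega | (simp only [Nat.reduceAdd, zero_add]; omega))
      have v4 := W.valley 3 (by first | omega | (simp only [Nat.reduceAdd, zero_add]; omega)) (by first | omega | (simp only [Nat.reduceAdd, zero_add]; omega))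
      have v6 := W.valley 5 (by first | omega | (simp only [Nat.reduceAdd, zero_add]; omega)) (by first | omega | (simp only [Nat.reduceAdd, zero_add]; omega))
      obtain ⟨j0, ja0, jb0, jc0⟩ := W.peak 0 (by first | omega | (simp only [Nat.reduceAdd, zero_add]; omega)) (by first | omega | (simp only [Nat.reduceAdd, zero_add]; omega))
      have jd0 := W.level _ _ jc0
      interval_cases j0 <;> simp only [Nat.reduceAdd, zero_add] at * <;> first | (exfalso; omega) | (exfalso; grind)
    · have _ := m1
      -- zeros [2]
      have e0 := W.peakeq 0 (by first | omega | (simp only [Nat.reduceAdd, zero_add]; omega)) (by first | omega | (simp only [Nat.reduceAdd, zero_add]; omega))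
      have e2 := W.matching 2 3 (by first | omega | (simp only [Nat.reduceAdd, zero_add]; omega)) (by intro j hj1 hj2; interval_cases j <;> first | omega | (simp only [Nat.reduceAdd, zero_add]; omega)) (by first | omega | (simp only [Nat.reduceAdd, zero_add]; omega))
      have v2 := W.valley 1 (by first | omega | (simp only [Nat.reduceAdd, zero_add]; omega)) (by first | omega | (simp only [Nat.reduceAdd, zero_add]; omega))
      have v6 := W.valley 5 (by first | omega | (simp only [Nat.reduceAdd, zero_add]; omega)) (by first | omega | (simp only [Nat.reduceAdd, zero_add]; omega))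
      obtain ⟨j0, ja0, jb0, jc0⟩ := W.peak 0 (by first | omega | (simp only [Nat.reduceAdd, zero_add]; omega)) (by first | omega | (simp only [Nat.reduceAdd, zero_add]; omega))
      have jd0 := W.level _ _ jc0
      interval_cases j0 <;> simp only [Nat.reduceAdd, zero_add] at * <;> first | (exfalso; omega) | (exfalso; grind)
  · have _ := m1
    by_cases z4 : h 4 = h 0
    · have _ := m1
      -- zeros [4]
      have e0 := W.matching 0 3 (by first | omega | (simp only [Nat.reduceAdd, zero_add]; omega)) (by intro j hj1 hj2; interval_cases j <;> first | omega | (simp only [Nat.reduceAdd, zero_add]; omega)) (by first | omega | (simp only [Nat.reduceAdd, zero_add]; omega))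
      have e4 := W.peakeq 4 (by first | omega | (simp only [Nat.reduceAdd, zero_add]; omega)) (by first | omega | (simp only [Nat.reduceAdd, zero_add]; omega))
      have v4 := W.valley 3 (by first | omega | (simp only [Nat.reduceAdd, zero_add]; omega)) (by first | omega | (simp only [Nat.reduceAdd, zero_add]; omega))
      have v6 := W.valley 5 (by first | omega | (simp only [Nat.reduceAdd, zero_add]; omega)) (by first | omega | (simp only [Nat.reduceAdd, zero_add]; omega))
      obtain ⟨j4, ja4, jb4, jc4⟩ := W.peak 4 (by first | omega | (simp only [Nat.reduceAdd, zero_add]; omega)) (by first | omega | (simp only [Nat.reduceAdd, zero_add]; omega))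
      have jd4 := W.level _ _ jc4
      interval_cases j4 <;> simp only [Nat.reduceAdd, zero_add] at * <;> first | (exfalso; omega) | (exfalso; grind)
    · have _ := m1
      -- zeros []
      have e0 := W.matching 0 5 (by first | omega | (simp only [Nat.reduceAdd, zero_add]; omega)) (by intro j hj1 hj2; interval_cases j <;> first | omega | (simp only [Nat.reduceAdd, zero_add]; omega)) (by first | omega | (simp only [Nat.reduceAdd, zero_add]; omega))
      have v6 := W.valley 5 (by first | omega | (simp only [Nat.reduceAdd, zero_add]; omega)) (by first | omega | (simp only [Nat.reduceAdd, zero_add]; omega))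
      simp only [Nat.reduceAdd, zero_add] at *
      grind

lemma no10 (W : Prof F 10 h lam) (hmin : ∀ k, h 0 ≤ h k) : False := by
  have p0 : h 10 = h 0 := W.perh 0
  have q0 : lam 10 = lam 0 := W.perl 0
  have p1 : h 11 = h 1 := W.perh 1
  have q1 : lam 11 = lam 1 := W.perl 1
  have p2 : h 12 = h 2 := W.perh 2
  have q2 : lam 12 = lam 2 := W.perl 2
  have p3 : h 13 = h 3 := W.perh 3
  have q3 : lam 13 = lam 3 := W.perl 3
  have p4 : h 14 = h 4 := W.perh 4
  have q4 : lam 14 = lam 4 := W.perl 4
  have p5 : h 15 = h 5 := W.perh 5
  have q5 : lam 15 = lam 5 := W.perl 5
  have p6 : h 16 = h 6 := W.perh 6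
  have q6 : lam 16 = lam 6 := W.perl 6
  have p7 : h 17 = h 7 := W.perh 7
  have q7 : lam 17 = lam 7 := W.perl 7
  have p8 : h 18 = h 8 := W.perh 8
  have q8 : lam 18 = lam 8 := W.perl 8
  have p9 : h 19 = h 9 := W.perh 9
  have q9 : lam 19 = lam 9 := W.perl 9
  have s0 : h 1 = h 0 + 1 ∨ h 0 = h 1 + 1 := W.step 0
  have s1 : h 2 = h 1 + 1 ∨ h 1 = h 2 + 1 := W.step 1
  have s2 : h 3 = h 2 + 1 ∨ h 2 = h 3 + 1 := W.step 2
  have s3 : h 4 = h 3 + 1 ∨ h 3 = h 4 + 1 := W.step 3
  have s4 : h 5 = h 4 + 1 ∨ h 4 = h 5 + 1 := W.step 4
  have s5 : h 6 = h 5 + 1 ∨ h 5 = h 6 + 1 := W.step 5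
  have s6 : h 7 = h 6 + 1 ∨ h 6 = h 7 + 1 := W.step 6
  have s7 : h 8 = h 7 + 1 ∨ h 7 = h 8 + 1 := W.step 7
  have s8 : h 9 = h 8 + 1 ∨ h 8 = h 9 + 1 := W.step 8
  have s9 : h 10 = h 9 + 1 ∨ h 9 = h 10 + 1 := W.step 9
  have m1 := hmin 1
  have m2 := hmin 2
  have m3 := hmin 3
  have m4 := hmin 4
  have m5 := hmin 5
  have m6 := hmin 6
  have m7 := hmin 7
  have m8 := hmin 8
  have m9 := hmin 9
  clear hmin
  by_cases z2 : h 2 = h 0
  · have _ := m1
    by_cases z4 : h 4 = h 0
    · have _ := m1
      by_cases z6 : h 6 = h 0
      · have _ := m1
        by_cases z8 : h 8 = h 0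
        · have _ := m1
          -- zeros [2, 4, 6, 8]
          have e0 := W.peakeq 0 (by first | omega | (simp only [Nat.reduceAdd, zero_add]; omega)) (by first | omega | (simp only [Nat.reduceAdd, zero_add]; omega))
          have e2 := W.peakeq 2 (by first | omega | (simp only [Nat.reduceAdd, zero_add]; omega)) (by first | omega | (simp only [Nat.reduceAdd, zero_add]; omega))
          have e4 := W.peakeq 4 (by first | omega | (simp only [Nat.reduceAdd, zero_add]; omega)) (by first | omega | (simp only [Nat.reduceAdd, zero_add]; omega))
          have e6 := W.peakeq 6 (by first | omega | (simp only [Nat.reduceAdd, zero_add]; omega)) (by first | omega | (simp only [Nat.reduceAdd, zero_add]; omega))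
          have e8 := W.peakeq 8 (by first | omega | (simp only [Nat.reduceAdd, zero_add]; omega)) (by first | omega | (simp only [Nat.reduceAdd, zero_add]; omega))
          have v2 := W.valley 1 (by first | omega | (simp only [Nat.reduceAdd, zero_add]; omega)) (by first | omega | (simp only [Nat.reduceAdd, zero_add]; omega))
          have v4 := W.valley 3 (by first | omega | (simp only [Nat.reduceAdd, zero_add]; omega)) (by first | omega | (simp only [Nat.reduceAdd, zero_add]; omega))
          have v6 := W.valley 5 (by first | omega | (simp only [Nat.reduceAdd, zero_add]; omega)) (by first | omega | (simp only [Nat.reduceAdd, zero_add]; omega))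
          have v8 := W.valley 7 (by first | omega | (simp only [Nat.reduceAdd, zero_add]; omega)) (by first | omega | (simp only [Nat.reduceAdd, zero_add]; omega))
          have v10 := W.valley 9 (by first | omega | (simp only [Nat.reduceAdd, zero_add]; omega)) (by first | omega | (simp only [Nat.reduceAdd, zero_add]; omega))
          have d0 : lam 0 = lam 4 ∨ lam 0 = lam 6 := by
            obtain ⟨j, ja, jb, jc⟩ := W.peak 0 (by first | omega | (simp only [Nat.reduceAdd, zero_add]; omega)) (by first | omega | (simp only [Nat.reduceAdd, zero_add]; omega))
            interval_cases j <;> simp only [Nat.reduceAdd, zero_add] at * <;> grind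
          have d2 : lam 2 = lam 6 ∨ lam 2 = lam 8 := by
            obtain ⟨j, ja, jb, jc⟩ := W.peak 2 (by first | omega | (simp only [Nat.reduceAdd, zero_add]; omega)) (by first | omega | (simp only [Nat.reduceAdd, zero_add]; omega))
            interval_cases j <;> simp only [Nat.reduceAdd, zero_add] at * <;> grind
          have d4 : lam 4 = lam 8 ∨ lam 4 = lam 0 := by
            obtain ⟨j, ja, jb, jc⟩ := W.peak 4 (by first | omega | (simp only [Nat.reduceAdd, zero_add]; omega)) (by first | omega | (simp only [Nat.reduceAdd, zero_add]; omega))
            interval_cases j <;> simp only [Nat.reduceAdd, zero_add] at * <;> grind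
          have d6 : lam 6 = lam 0 ∨ lam 6 = lam 2 := by
            obtain ⟨j, ja, jb, jc⟩ := W.peak 6 (by first | omega | (simp only [Nat.reduceAdd, zero_add]; omega)) (by first | omega | (simp only [Nat.reduceAdd, zero_add]; omega))
            interval_cases j <;> simp only [Nat.reduceAdd, zero_add] at * <;> grind
          have d8 : lam 8 = lam 2 ∨ lam 8 = lam 4 := by
            obtain ⟨j, ja, jb, jc⟩ := W.peak 8 (by first | omega | (simp only [Nat.reduceAdd, zero_add]; omega)) (by first | omega | (simp only [Nat.reduceAdd, zero_add]; omega))
            interval_cases j <;> simp only [Nat.reduceAdd, zero_add] at * <;> grind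
          simp only [Nat.reduceAdd, zero_add] at *
          clear W
          grind
        · have _ := m1
          -- zeros [2, 4, 6]
          have e0 := W.peakeq 0 (by first | omega | (simp only [Nat.reduceAdd, zero_add]; omega)) (by first | omega | (simp only [Nat.reduceAdd, zero_add]; omega))
          have e2 := W.peakeq 2 (by first | omega | (simp only [Nat.reduceAdd, zero_add]; omega)) (by first | omega | (simp only [Nat.reduceAdd, zero_add]; omega))
          have e4 := W.peakeq 4 (by first | omega | (simp only [Nat.reduceAdd, zero_add]; omega)) (by first | omega | (simp only [Nat.reduceAdd, zero_add]; omega))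
          have e6 := W.matching 6 3 (by first | omega | (simp only [Nat.reduceAdd, zero_add]; omega)) (by intro j hj1 hj2; interval_cases j <;> first | omega | (simp only [Nat.reduceAdd, zero_add]; omega)) (by first | omega | (simp only [Nat.reduceAdd, zero_add]; omega))
          have v2 := W.valley 1 (by first | omega | (simp only [Nat.reduceAdd, zero_add]; omega)) (by first | omega | (simp only [Nat.reduceAdd, zero_add]; omega))
          have v4 := W.valley 3 (by first | omega | (simp only [Nat.reduceAdd, zero_add]; omega)) (by first | omega | (simp only [Nat.reduceAdd, zero_add]; omega))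
          have v6 := W.valley 5 (by first | omega | (simp only [Nat.reduceAdd, zero_add]; omega)) (by first | omega | (simp only [Nat.reduceAdd, zero_add]; omega))
          have v10 := W.valley 9 (by first | omega | (simp only [Nat.reduceAdd, zero_add]; omega)) (by first | omega | (simp only [Nat.reduceAdd, zero_add]; omega))
          obtain ⟨j7, ja7, jb7, jc7⟩ := W.peak 7 (by first | omega | (simp only [Nat.reduceAdd, zero_add]; omega)) (by first | omega | (simp only [Nat.reduceAdd, zero_add]; omega))
          have jd7 := W.level _ _ jc7
          interval_cases j7 <;> simp only [Nat.reduceAdd, zero_add] at * <;> first | (exfalso; omega) | (exfalso; grind)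
      · have _ := m1
        by_cases z8 : h 8 = h 0
        · have _ := m1
          -- zeros [2, 4, 8]
          have e0 := W.peakeq 0 (by first | omega | (simp only [Nat.reduceAdd, zero_add]; omega)) (by first | omega | (simp only [Nat.reduceAdd, zero_add]; omega))
          have e2 := W.peakeq 2 (by first | omega | (simp only [Nat.reduceAdd, zero_add]; omega)) (by first | omega | (simp only [Nat.reduceAdd, zero_add]; omega))
          have e4 := W.matching 4 3 (by first | omega | (simp only [Nat.reduceAdd, zero_add]; omega)) (by intro j hj1 hj2; interval_cases j <;> first | omega | (simp only [Nat.reduceAdd, zero_add]; omega)) (by first | omega | (simp only [Nat.reduceAdd, zero_add]; omega))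
          have e8 := W.peakeq 8 (by first | omega | (simp only [Nat.reduceAdd, zero_add]; omega)) (by first | omega | (simp only [Nat.reduceAdd, zero_add]; omega))
          have v2 := W.valley 1 (by first | omega | (simp only [Nat.reduceAdd, zero_add]; omega)) (by first | omega | (simp only [Nat.reduceAdd, zero_add]; omega))
          have v4 := W.valley 3 (by first | omega | (simp only [Nat.reduceAdd, zero_add]; omega)) (by first | omega | (simp only [Nat.reduceAdd, zero_add]; omega))
          have v8 := W.valley 7 (by first | omega | (simp only [Nat.reduceAdd, zero_add]; omega)) (by first | omega | (simp only [Nat.reduceAdd, zero_add]; omega))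
          have v10 := W.valley 9 (by first | omega | (simp only [Nat.reduceAdd, zero_add]; omega)) (by first | omega | (simp only [Nat.reduceAdd, zero_add]; omega))
          obtain ⟨j5, ja5, jb5, jc5⟩ := W.peak 5 (by first | omega | (simp only [Nat.reduceAdd, zero_add]; omega)) (by first | omega | (simp only [Nat.reduceAdd, zero_add]; omega))
          have jd5 := W.level _ _ jc5
          interval_cases j5 <;> simp only [Nat.reduceAdd, zero_add] at * <;> first | (exfalso; omega) | (exfalso; grind)
        · have _ := m1
          -- zeros [2, 4]
          have e0 := W.peakeq 0 (by first | omega | (simp only [Nat.reduceAdd, zero_add]; omega)) (by first | omega | (simp only [Nat.reduceAdd, zero_add]; omega))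
          have e2 := W.peakeq 2 (by first | omega | (simp only [Nat.reduceAdd, zero_add]; omega)) (by first | omega | (simp only [Nat.reduceAdd, zero_add]; omega))
          have e4 := W.matching 4 5 (by first | omega | (simp only [Nat.reduceAdd, zero_add]; omega)) (by intro j hj1 hj2; interval_cases j <;> first | omega | (simp only [Nat.reduceAdd, zero_add]; omega)) (by first | omega | (simp only [Nat.reduceAdd, zero_add]; omega))
          have v2 := W.valley 1 (by first | omega | (simp only [Nat.reduceAdd, zero_add]; omega)) (by first | omega | (simp only [Nat.reduceAdd, zero_add]; omega))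
          have v4 := W.valley 3 (by first | omega | (simp only [Nat.reduceAdd, zero_add]; omega)) (by first | omega | (simp only [Nat.reduceAdd, zero_add]; omega))
          have v10 := W.valley 9 (by first | omega | (simp only [Nat.reduceAdd, zero_add]; omega)) (by first | omega | (simp only [Nat.reduceAdd, zero_add]; omega))
          obtain ⟨j0, ja0, jb0, jc0⟩ := W.peak 0 (by first | omega | (simp only [Nat.reduceAdd, zero_add]; omega)) (by first | omega | (simp only [Nat.reduceAdd, zero_add]; omega))
          have jd0 := W.level _ _ jc0
          interval_cases j0 <;> simp only [Nat.reduceAdd, zero_add] at * <;> first | (exfalso; omega) | (exfalso; grind)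
    · have _ := m1
      by_cases z6 : h 6 = h 0
      · have _ := m1
        by_cases z8 : h 8 = h 0
        · have _ := m1
          -- zeros [2, 6, 8]
          have e0 := W.peakeq 0 (by first | omega | (simp only [Nat.reduceAdd, zero_add]; omega)) (by first | omega | (simp only [Nat.reduceAdd, zero_add]; omega))
          have e2 := W.matching 2 3 (by first | omega | (simp only [Nat.reduceAdd, zero_add]; omega)) (by intro j hj1 hj2; interval_cases j <;> first | omega | (simp only [Nat.reduceAdd, zero_add]; omega)) (by first | omega | (simp only [Nat.reduceAdd, zero_add]; omega))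
          have e6 := W.peakeq 6 (by first | omega | (simp only [Nat.reduceAdd, zero_add]; omega)) (by first | omega | (simp only [Nat.reduceAdd, zero_add]; omega))
          have e8 := W.peakeq 8 (by first | omega | (simp only [Nat.reduceAdd, zero_add]; omega)) (by first | omega | (simp only [Nat.reduceAdd, zero_add]; omega))
          have v2 := W.valley 1 (by first | omega | (simp only [Nat.reduceAdd, zero_add]; omega)) (by first | omega | (simp only [Nat.reduceAdd, zero_add]; omega))
          have v6 := W.valley 5 (by first | omega | (simp only [Nat.reduceAdd, zero_add]; omega)) (by first | omega | (simp only [Nat.reduceAdd, zero_add]; omega))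
          have v8 := W.valley 7 (by first | omega | (simp only [Nat.reduceAdd, zero_add]; omega)) (by first | omega | (simp only [Nat.reduceAdd, zero_add]; omega))
          have v10 := W.valley 9 (by first | omega | (simp only [Nat.reduceAdd, zero_add]; omega)) (by first | omega | (simp only [Nat.reduceAdd, zero_add]; omega))
          obtain ⟨j3, ja3, jb3, jc3⟩ := W.peak 3 (by first | omega | (simp only [Nat.reduceAdd, zero_add]; omega)) (by first | omega | (simp only [Nat.reduceAdd, zero_add]; omega))
          have jd3 := W.level _ _ jc3
          interval_cases j3 <;> simp only [Nat.reduceAdd, zero_add] at * <;> first | (exfalso; omega) | (exfalso; grind)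
        · have _ := m1
          -- zeros [2, 6]
          have e0 := W.peakeq 0 (by first | omega | (simp only [Nat.reduceAdd, zero_add]; omega)) (by first | omega | (simp only [Nat.reduceAdd, zero_add]; omega))
          have e2 := W.matching 2 3 (by first | omega | (simp only [Nat.reduceAdd, zero_add]; omega)) (by intro j hj1 hj2; interval_cases j <;> first | omega | (simp only [Nat.reduceAdd, zero_add]; omega)) (by first | omega | (simp only [Nat.reduceAdd, zero_add]; omega))
          have e6 := W.matching 6 3 (by first | omega | (simp only [Nat.reduceAdd, zero_add]; omega)) (by intro j hj1 hj2; interval_cases j <;> first | omega | (simp only [Nat.reduceAdd, zero_add]; omega)) (by first | omega | (simp only [Nat.reduceAdd, zero_add]; omega))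
          have v2 := W.valley 1 (by first | omega | (simp only [Nat.reduceAdd, zero_add]; omega)) (by first | omega | (simp only [Nat.reduceAdd, zero_add]; omega))
          have v6 := W.valley 5 (by first | omega | (simp only [Nat.reduceAdd, zero_add]; omega)) (by first | omega | (simp only [Nat.reduceAdd, zero_add]; omega))
          have v10 := W.valley 9 (by first | omega | (simp only [Nat.reduceAdd, zero_add]; omega)) (by first | omega | (simp only [Nat.reduceAdd, zero_add]; omega))
          obtain ⟨j0, ja0, jb0, jc0⟩ := W.peak 0 (by first | omega | (simp only [Nat.reduceAdd, zero_add]; omega)) (by first | omega | (simp only [Nat.reduceAdd, zero_add]; omega))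
          have jd0 := W.level _ _ jc0
          interval_cases j0 <;> simp only [Nat.reduceAdd, zero_add] at * <;> first | (exfalso; omega) | (exfalso; grind)
      · have _ := m1
        by_cases z8 : h 8 = h 0
        · have _ := m1
          -- zeros [2, 8]
          have e0 := W.peakeq 0 (by first | omega | (simp only [Nat.reduceAdd, zero_add]; omega)) (by first | omega | (simp only [Nat.reduceAdd, zero_add]; omega))
          have e2 := W.matching 2 5 (by first | omega | (simp only [Nat.reduceAdd, zero_add]; omega)) (by intro j hj1 hj2; interval_cases j <;> first | omega | (simp only [Nat.reduceAdd, zero_add]; omega)) (by first | omega | (simp only [Nat.reduceAdd, zero_add]; omega))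
          have e8 := W.peakeq 8 (by first | omega | (simp only [Nat.reduceAdd, zero_add]; omega)) (by first | omega | (simp only [Nat.reduceAdd, zero_add]; omega))
          have v2 := W.valley 1 (by first | omega | (simp only [Nat.reduceAdd, zero_add]; omega)) (by first | omega | (simp only [Nat.reduceAdd, zero_add]; omega))
          have v8 := W.valley 7 (by first | omega | (simp only [Nat.reduceAdd, zero_add]; omega)) (by first | omega | (simp only [Nat.reduceAdd, zero_add]; omega))
          have v10 := W.valley 9 (by first | omega | (simp only [Nat.reduceAdd, zero_add]; omega)) (by first | omega | (simp only [Nat.reduceAdd, zero_add]; omega))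
          obtain ⟨j0, ja0, jb0, jc0⟩ := W.peak 0 (by first | omega | (simp only [Nat.reduceAdd, zero_add]; omega)) (by first | omega | (simp only [Nat.reduceAdd, zero_add]; omega))
          have jd0 := W.level _ _ jc0
          interval_cases j0 <;> simp only [Nat.reduceAdd, zero_add] at * <;> first | (exfalso; omega) | (exfalso; grind)
        · have _ := m1
          -- zeros [2]
          have e0 := W.peakeq 0 (by first | omega | (simp only [Nat.reduceAdd, zero_add]; omega)) (by first | omega | (simp only [Nat.reduceAdd, zero_add]; omega))
          have e2 := W.matching 2 7 (by first | omega | (simp only [Nat.reduceAdd, zero_add]; omega)) (by intro j hj1 hj2; interval_cases j <;> first | omega | (simp only [Nat.reduceAdd, zero_add]; omega)) (by first | omega | (simp only [Nat.reduceAdd, zero_add]; omega))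
          have v2 := W.valley 1 (by first | omega | (simp only [Nat.reduceAdd, zero_add]; omega)) (by first | omega | (simp only [Nat.reduceAdd, zero_add]; omega))
          have v10 := W.valley 9 (by first | omega | (simp only [Nat.reduceAdd, zero_add]; omega)) (by first | omega | (simp only [Nat.reduceAdd, zero_add]; omega))
          obtain ⟨j0, ja0, jb0, jc0⟩ := W.peak 0 (by first | omega | (simp only [Nat.reduceAdd, zero_add]; omega)) (by first | omega | (simp only [Nat.reduceAdd, zero_add]; omega))
          have jd0 := W.level _ _ jc0
          interval_cases j0 <;> simp only [Nat.reduceAdd, zero_add] at * <;> first | (exfalso; omega) | (exfalso; grind)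
  · have _ := m1
    by_cases z4 : h 4 = h 0
    · have _ := m1
      by_cases z6 : h 6 = h 0
      · have _ := m1
        by_cases z8 : h 8 = h 0
        · have _ := m1
          -- zeros [4, 6, 8]
          have e0 := W.matching 0 3 (by first | omega | (simp only [Nat.reduceAdd, zero_add]; omega)) (by intro j hj1 hj2; interval_cases j <;> first | omega | (simp only [Nat.reduceAdd, zero_add]; omega)) (by first | omega | (simp only [Nat.reduceAdd, zero_add]; omega))
          have e4 := W.peakeq 4 (by first | omega | (simp only [Nat.reduceAdd, zero_add]; omega)) (by first | omega | (simp only [Nat.reduceAdd, zero_add]; omega))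
          have e6 := W.peakeq 6 (by first | omega | (simp only [Nat.reduceAdd, zero_add]; omega)) (by first | omega | (simp only [Nat.reduceAdd, zero_add]; omega))
          have e8 := W.peakeq 8 (by first | omega | (simp only [Nat.reduceAdd, zero_add]; omega)) (by first | omega | (simp only [Nat.reduceAdd, zero_add]; omega))
          have v4 := W.valley 3 (by first | omega | (simp only [Nat.reduceAdd, zero_add]; omega)) (by first | omega | (simp only [Nat.reduceAdd, zero_add]; omega))
          have v6 := W.valley 5 (by first | omega | (simp only [Nat.reduceAdd, zero_add]; omega)) (by first | omega | (simp only [Nat.reduceAdd, zero_add]; omega))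
          have v8 := W.valley 7 (by first | omega | (simp only [Nat.reduceAdd, zero_add]; omega)) (by first | omega | (simp only [Nat.reduceAdd, zero_add]; omega))
          have v10 := W.valley 9 (by first | omega | (simp only [Nat.reduceAdd, zero_add]; omega)) (by first | omega | (simp only [Nat.reduceAdd, zero_add]; omega))
          obtain ⟨j1, ja1, jb1, jc1⟩ := W.peak 1 (by first | omega | (simp only [Nat.reduceAdd, zero_add]; omega)) (by first | omega | (simp only [Nat.reduceAdd, zero_add]; omega))
          have jd1 := W.level _ _ jc1
          interval_cases j1 <;> simp only [Nat.reduceAdd, zero_add] at * <;> first | (exfalso; omega) | (exfalso; grind)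
        · have _ := m1
          -- zeros [4, 6]
          have e0 := W.matching 0 3 (by first | omega | (simp only [Nat.reduceAdd, zero_add]; omega)) (by intro j hj1 hj2; interval_cases j <;> first | omega | (simp only [Nat.reduceAdd, zero_add]; omega)) (by first | omega | (simp only [Nat.reduceAdd, zero_add]; omega))
          have e4 := W.peakeq 4 (by first | omega | (simp only [Nat.reduceAdd, zero_add]; omega)) (by first | omega | (simp only [Nat.reduceAdd, zero_add]; omega))
          have e6 := W.matching 6 3 (by first | omega | (simp only [Nat.reduceAdd, zero_add]; omega)) (by intro j hj1 hj2; interval_cases j <;> first | omega | (simp only [Nat.reduceAdd, zero_add]; omega)) (by first | omega | (simp only [Nat.reduceAdd, zero_add]; omega))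
          have v4 := W.valley 3 (by first | omega | (simp only [Nat.reduceAdd, zero_add]; omega)) (by first | omega | (simp only [Nat.reduceAdd, zero_add]; omega))
          have v6 := W.valley 5 (by first | omega | (simp only [Nat.reduceAdd, zero_add]; omega)) (by first | omega | (simp only [Nat.reduceAdd, zero_add]; omega))
          have v10 := W.valley 9 (by first | omega | (simp only [Nat.reduceAdd, zero_add]; omega)) (by first | omega | (simp only [Nat.reduceAdd, zero_add]; omega))
          obtain ⟨j4, ja4, jb4, jc4⟩ := W.peak 4 (by first | omega | (simp only [Nat.reduceAdd, zero_add]; omega)) (by first | omega | (simp only [Nat.reduceAdd, zero_add]; omega))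
          have jd4 := W.level _ _ jc4
          interval_cases j4 <;> simp only [Nat.reduceAdd, zero_add] at * <;> first | (exfalso; omega) | (exfalso; grind)
      · have _ := m1
        by_cases z8 : h 8 = h 0
        · have _ := m1
          -- zeros [4, 8]
          have e0 := W.matching 0 3 (by first | omega | (simp only [Nat.reduceAdd, zero_add]; omega)) (by intro j hj1 hj2; interval_cases j <;> first | omega | (simp only [Nat.reduceAdd, zero_add]; omega)) (by first | omega | (simp only [Nat.reduceAdd, zero_add]; omega))
          have e4 := W.matching 4 3 (by first | omega | (simp only [Nat.reduceAdd, zero_add]; omega)) (by intro j hj1 hj2; interval_cases j <;> first | omega | (simp only [Nat.reduceAdd, zero_add]; omega)) (by first | omega | (simp only [Nat.reduceAdd, zero_add]; omega))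
          have e8 := W.peakeq 8 (by first | omega | (simp only [Nat.reduceAdd, zero_add]; omega)) (by first | omega | (simp only [Nat.reduceAdd, zero_add]; omega))
          have v4 := W.valley 3 (by first | omega | (simp only [Nat.reduceAdd, zero_add]; omega)) (by first | omega | (simp only [Nat.reduceAdd, zero_add]; omega))
          have v8 := W.valley 7 (by first | omega | (simp only [Nat.reduceAdd, zero_add]; omega)) (by first | omega | (simp only [Nat.reduceAdd, zero_add]; omega))
          have v10 := W.valley 9 (by first | omega | (simp only [Nat.reduceAdd, zero_add]; omega)) (by first | omega | (simp only [Nat.reduceAdd, zero_add]; omega))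
          obtain ⟨j8, ja8, jb8, jc8⟩ := W.peak 8 (by first | omega | (simp only [Nat.reduceAdd, zero_add]; omega)) (by first | omega | (simp only [Nat.reduceAdd, zero_add]; omega))
          have jd8 := W.level _ _ jc8
          interval_cases j8 <;> simp only [Nat.reduceAdd, zero_add] at * <;> first | (exfalso; omega) | (exfalso; grind)
        · have _ := m1
          -- zeros [4]
          have e0 := W.matching 0 3 (by first | omega | (simp only [Nat.reduceAdd, zero_add]; omega)) (by intro j hj1 hj2; interval_cases j <;> first | omega | (simp only [Nat.reduceAdd, zero_add]; omega)) (by first | omega | (simp only [Nat.reduceAdd, zero_add]; omega))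
          have e4 := W.matching 4 5 (by first | omega | (simp only [Nat.reduceAdd, zero_add]; omega)) (by intro j hj1 hj2; interval_cases j <;> first | omega | (simp only [Nat.reduceAdd, zero_add]; omega)) (by first | omega | (simp only [Nat.reduceAdd, zero_add]; omega))
          have v4 := W.valley 3 (by first | omega | (simp only [Nat.reduceAdd, zero_add]; omega)) (by first | omega | (simp only [Nat.reduceAdd, zero_add]; omega))
          have v10 := W.valley 9 (by first | omega | (simp only [Nat.reduceAdd, zero_add]; omega)) (by first | omega | (simp only [Nat.reduceAdd, zero_add]; omega))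
          have e1 := W.peakeq 1 (by first | omega | (simp only [Nat.reduceAdd, zero_add]; omega)) (by first | omega | (simp only [Nat.reduceAdd, zero_add]; omega))
          by_cases w : h 7 = h 0 + 3
          · obtain ⟨j, ja, jb, jc⟩ := W.peak 6 (by first | omega | (simp only [Nat.reduceAdd, zero_add]; omega)) (by first | omega | (simp only [Nat.reduceAdd, zero_add]; omega))
            have jd := W.level _ _ jc
            interval_cases j <;> simp only [Nat.reduceAdd, zero_add] at * <;> first | (exfalso; omega) | (exfalso; grind)
          · have ey := W.peakeq 5 (by first | omega | (simp only [Nat.reduceAdd, zero_add]; omega)) (by first | omega | (simp only [Nat.reduceAdd, zero_add]; omega))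
            have ez := W.peakeq 7 (by first | omega | (simp only [Nat.reduceAdd, zero_add]; omega)) (by first | omega | (simp only [Nat.reduceAdd, zero_add]; omega))
            have vy := W.valley 6 (by first | omega | (simp only [Nat.reduceAdd, zero_add]; omega)) (by first | omega | (simp only [Nat.reduceAdd, zero_add]; omega))
            have d1 : lam 1 = lam 5 ∨ lam 1 = lam 7 := by
              obtain ⟨j, ja, jb, jc⟩ := W.peak 1 (by first | omega | (simp only [Nat.reduceAdd, zero_add]; omega)) (by first | omega | (simp only [Nat.reduceAdd, zero_add]; omega))
              have jd := W.level _ _ jc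
              interval_cases j <;> simp only [Nat.reduceAdd, zero_add] at * <;> first | (exfalso; omega) | grind
            have d5 : lam 5 = lam 1 ∨ lam 5 = lam 7 := by
              obtain ⟨j, ja, jb, jc⟩ := W.peak 5 (by first | omega | (simp only [Nat.reduceAdd, zero_add]; omega)) (by first | omega | (simp only [Nat.reduceAdd, zero_add]; omega))
              have jd := W.level _ _ jc
              interval_cases j <;> simp only [Nat.reduceAdd, zero_add] at * <;> first | (exfalso; omega) | grind
            have d7 : lam 7 = lam 1 ∨ lam 7 = lam 5 := by
              obtain ⟨j, ja, jb, jc⟩ := W.peak 7 (by first | omega | (simp only [Nat.reduceAdd, zero_add]; omega)) (by first | omega | (simp only [Nat.reduceAdd, zero_add]; omega))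
              have jd := W.level _ _ jc
              interval_cases j <;> simp only [Nat.reduceAdd, zero_add] at * <;> first | (exfalso; omega) | grind
            simp only [Nat.reduceAdd, zero_add] at *
            grind
    · have _ := m1
      by_cases z6 : h 6 = h 0
      · have _ := m1
        by_cases z8 : h 8 = h 0
        · have _ := m1
          -- zeros [6, 8]
          have e0 := W.matching 0 5 (by first | omega | (simp only [Nat.reduceAdd, zero_add]; omega)) (by intro j hj1 hj2; interval_cases j <;> first | omega | (simp only [Nat.reduceAdd, zero_add]; omega)) (by first | omega | (simp only [Nat.reduceAdd, zero_add]; omega))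
          have e6 := W.peakeq 6 (by first | omega | (simp only [Nat.reduceAdd, zero_add]; omega)) (by first | omega | (simp only [Nat.reduceAdd, zero_add]; omega))
          have e8 := W.peakeq 8 (by first | omega | (simp only [Nat.reduceAdd, zero_add]; omega)) (by first | omega | (simp only [Nat.reduceAdd, zero_add]; omega))
          have v6 := W.valley 5 (by first | omega | (simp only [Nat.reduceAdd, zero_add]; omega)) (by first | omega | (simp only [Nat.reduceAdd, zero_add]; omega))
          have v8 := W.valley 7 (by first | omega | (simp only [Nat.reduceAdd, zero_add]; omega)) (by first | omega | (simp only [Nat.reduceAdd, zero_add]; omega))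
          have v10 := W.valley 9 (by first | omega | (simp only [Nat.reduceAdd, zero_add]; omega)) (by first | omega | (simp only [Nat.reduceAdd, zero_add]; omega))
          obtain ⟨j6, ja6, jb6, jc6⟩ := W.peak 6 (by first | omega | (simp only [Nat.reduceAdd, zero_add]; omega)) (by first | omega | (simp only [Nat.reduceAdd, zero_add]; omega))
          have jd6 := W.level _ _ jc6
          interval_cases j6 <;> simp only [Nat.reduceAdd, zero_add] at * <;> first | (exfalso; omega) | (exfalso; grind)
        · have _ := m1
          -- zeros [6]
          have e0 := W.matching 0 5 (by first | omega | (simp only [Nat.reduceAdd, zero_add]; omega)) (by intro j hj1 hj2; interval_cases j <;> first | omega | (simp only [Nat.reduceAdd, zero_add]; omega)) (by first | omega | (simp only [Nat.reduceAdd, zero_add]; omega))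
          have e6 := W.matching 6 3 (by first | omega | (simp only [Nat.reduceAdd, zero_add]; omega)) (by intro j hj1 hj2; interval_cases j <;> first | omega | (simp only [Nat.reduceAdd, zero_add]; omega)) (by first | omega | (simp only [Nat.reduceAdd, zero_add]; omega))
          have v6 := W.valley 5 (by first | omega | (simp only [Nat.reduceAdd, zero_add]; omega)) (by first | omega | (simp only [Nat.reduceAdd, zero_add]; omega))
          have v10 := W.valley 9 (by first | omega | (simp only [Nat.reduceAdd, zero_add]; omega)) (by first | omega | (simp only [Nat.reduceAdd, zero_add]; omega))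
          have e7 := W.peakeq 7 (by first | omega | (simp only [Nat.reduceAdd, zero_add]; omega)) (by first | omega | (simp only [Nat.reduceAdd, zero_add]; omega))
          by_cases w : h 3 = h 0 + 3
          · obtain ⟨j, ja, jb, jc⟩ := W.peak 2 (by first | omega | (simp only [Nat.reduceAdd, zero_add]; omega)) (by first | omega | (simp only [Nat.reduceAdd, zero_add]; omega))
            have jd := W.level _ _ jc
            interval_cases j <;> simp only [Nat.reduceAdd, zero_add] at * <;> first | (exfalso; omega) | (exfalso; grind)
          · have ey := W.peakeq 1 (by first | omega | (simp only [Nat.reduceAdd, zero_add]; omega)) (by first | omega | (simp only [Nat.reduceAdd, zero_add]; omega))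
            have ez := W.peakeq 3 (by first | omega | (simp only [Nat.reduceAdd, zero_add]; omega)) (by first | omega | (simp only [Nat.reduceAdd, zero_add]; omega))
            have vy := W.valley 2 (by first | omega | (simp only [Nat.reduceAdd, zero_add]; omega)) (by first | omega | (simp only [Nat.reduceAdd, zero_add]; omega))
            have d7 : lam 7 = lam 1 ∨ lam 7 = lam 3 := by
              obtain ⟨j, ja, jb, jc⟩ := W.peak 7 (by first | omega | (simp only [Nat.reduceAdd, zero_add]; omega)) (by first | omega | (simp only [Nat.reduceAdd, zero_add]; omega))
              have jd := W.level _ _ jc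
              interval_cases j <;> simp only [Nat.reduceAdd, zero_add] at * <;> first | (exfalso; omega) | grind
            have d1 : lam 1 = lam 7 ∨ lam 1 = lam 3 := by
              obtain ⟨j, ja, jb, jc⟩ := W.peak 1 (by first | omega | (simp only [Nat.reduceAdd, zero_add]; omega)) (by first | omega | (simp only [Nat.reduceAdd, zero_add]; omega))
              have jd := W.level _ _ jc
              interval_cases j <;> simp only [Nat.reduceAdd, zero_add] at * <;> first | (exfalso; omega) | grind
            have d3 : lam 3 = lam 7 ∨ lam 3 = lam 1 := by
              obtain ⟨j, ja, jb, jc⟩ := W.peak 3 (by first | omega | (simp only [Nat.reduceAdd, zero_add]; omega)) (by first | omega | (simp only [Nat.reduceAdd, zero_add]; omega))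
              have jd := W.level _ _ jc
              interval_cases j <;> simp only [Nat.reduceAdd, zero_add] at * <;> first | (exfalso; omega) | grind
            simp only [Nat.reduceAdd, zero_add] at *
            grind
      · have _ := m1
        by_cases z8 : h 8 = h 0
        · have _ := m1
          -- zeros [8]
          have e0 := W.matching 0 7 (by first | omega | (simp only [Nat.reduceAdd, zero_add]; omega)) (by intro j hj1 hj2; interval_cases j <;> first | omega | (simp only [Nat.reduceAdd, zero_add]; omega)) (by first | omega | (simp only [Nat.reduceAdd, zero_add]; omega))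
          have e8 := W.peakeq 8 (by first | omega | (simp only [Nat.reduceAdd, zero_add]; omega)) (by first | omega | (simp only [Nat.reduceAdd, zero_add]; omega))
          have v8 := W.valley 7 (by first | omega | (simp only [Nat.reduceAdd, zero_add]; omega)) (by first | omega | (simp only [Nat.reduceAdd, zero_add]; omega))
          have v10 := W.valley 9 (by first | omega | (simp only [Nat.reduceAdd, zero_add]; omega)) (by first | omega | (simp only [Nat.reduceAdd, zero_add]; omega))
          obtain ⟨j8, ja8, jb8, jc8⟩ := W.peak 8 (by first | omega | (simp only [Nat.reduceAdd, zero_add]; omega)) (by first | omega | (simp only [Nat.reduceAdd, zero_add]; omega))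
          have jd8 := W.level _ _ jc8
          interval_cases j8 <;> simp only [Nat.reduceAdd, zero_add] at * <;> first | (exfalso; omega) | (exfalso; grind)
        · have _ := m1
          -- zeros []
          have e0 := W.matching 0 9 (by first | omega | (simp only [Nat.reduceAdd, zero_add]; omega)) (by intro j hj1 hj2; interval_cases j <;> first | omega | (simp only [Nat.reduceAdd, zero_add]; omega)) (by first | omega | (simp only [Nat.reduceAdd, zero_add]; omega))
          have v10 := W.valley 9 (by first | omega | (simp only [Nat.reduceAdd, zero_add]; omega)) (by first | omega | (simp only [Nat.reduceAdd, zero_add]; omega))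
          simp only [Nat.reduceAdd, zero_add] at *
          grind

end Prof

end Pool.Agent.Chi73
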