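import Pool.Agent.Chi73.Path

set_option autoImplicit false

namespace Pool.Agent.Chi73

lemma bad_card {ι F : Type} [Fintype ι] [DecidableEq ι] [DecidableEq F] [Zero F]
    (Zf : ι → Finset F) (r : ℕ) (hr : ∀ p, (Zf p).card = r) (p0 : ι) (P : (ι → F) → Prop)
    [DecidablePred P]
    (huniq : ∀ s s', s ∈ Fintype.piFinset Zf → s' ∈ Fintype.piFinset Zf → P s → P s' →
      (∀ p, p ≠ p0 → s p = s' p) → s p0 = s' p0) :
    ((Fintype.piFinset Zf).filter P).card ≤ r ^ (Fintype.card ι - 1) := by
  set S' : Finset (ι → F) := Fintype.piFinset (fun p => if p = p0 then {0} else Zf p) with hS'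
  have hcard : S'.card = r ^ (Fintype.card ι - 1) := by
    rw [hS', Fintype.card_piFinset]
    rw [← Finset.mul_prod_erase Finset.univ _ (Finset.mem_univ p0)]
    rw [if_pos rfl, Finset.card_singleton, one_mul]
    have : ∀ p ∈ Finset.univ.erase p0, (if p = p0 then ({0} : Finset F) else Zf p).card = r := by
      intro p hp
      rw [if_neg (Finset.ne_of_mem_erase hp), hr]
    rw [Finset.prod_congr rfl this, Finset.prod_const, Finset.card_erase_of_mem (Finset.mem_univ _),
      Finset.card_univ]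
  rw [← hcard]
  apply Finset.card_le_card_of_injOn (fun s => Function.update s p0 0)
  · intro s hs
    simp only [Finset.coe_filter, Set.mem_ofPred_eq, Fintype.mem_piFinset] at hs
    simp only [hS', Finset.mem_coe, Fintype.mem_piFinset]
    intro p
    by_cases hp : p = p0
    · subst hp
      simp
    · rw [Function.update_of_ne hp, if_neg hp]
      exact hs.1 p
  · intro s hs s' hs' h
    simp only [Finset.coe_filter, Set.mem_ofPred_eq] at hs hs'
    have h1 : ∀ p, p ≠ p0 → s p = s' p := by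
      intro p hp
      have := congrFun h p
      simp only at this
      rw [Function.update_of_ne hp, Function.update_of_ne hp] at this
      exact this
    funext p
    by_cases hp : p = p0
    · rw [hp]
      exact huniq s s' hs.1 hs'.1 hs.2 hs'.2 h1
    · exact h1 p hp

variable {F : Type} [Field F]

lemma Hk_top (D : Dat F) (b : Bool) (s : Idx D.M → F) (p0 p1 p2 p3 p4 : Idx D.M)
    (h0 : p0 = ⟨b, 0, by have := D.hM b; omega⟩) (h1 : p1 = ⟨b, 1, by have := D.hM b; omega⟩)
    (h2 : p2 = ⟨b, 2, by have := D.hM b; omega⟩) (h3 : p3 = ⟨b, 3, by have := D.hM b; omega⟩)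
    (h4 : p4 = ⟨b, 4, by have := D.hM b; omega⟩) :
    Hk (crd b (Vx.top s)) = s p2 * (s p2 * s p2 - s p1 * s p3)
      - s p1 * (s p3 * s p2 - s p1 * s p4) + s p0 * (s p3 * s p3 - s p2 * s p4) := by
  have hM := D.hM b
  subst h0 h1 h2 h3 h4
  unfold Hk
  rw [crd_top_low b s 0 (by omega), crd_top_low b s 1 (by omega), crd_top_low b s 2 (by omega),
    crd_top_low b s 3 (by omega), crd_top_low b s 4 (by omega)]

lemma count_good [DecidableEq F] (D : Dat F) (Zf : Idx D.M → Finset F) (r : ℕ)
    (hr : ∀ p, (Zf p).card = r) (hZ : ∀ b (j : Fin (D.M b)) z, z ∈ Zf ⟨b, j⟩ ↔ z ∈ D.Z b j)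
    [DecidablePred (Good D)] (hr8 : 8 ≤ r) :
    r ^ D.t ≤ 2 * ((Fintype.piFinset Zf).filter (Good D)).card := by
  classical
  have hcardI : Fintype.card (Idx D.M) = D.t := by
    simp [Idx, Dat.t, add_comm]
  have hbad : ∀ b : Bool,
      ((Fintype.piFinset Zf).filter (fun s => Hk (crd b (Vx.top s)) = 0)).card
        ≤ 2 * r ^ (D.t - 1) := by
    intro b
    have hM := D.hM b
    obtain ⟨p0, h0⟩ : ∃ p0 : Idx D.M, p0 = ⟨b, 0, by omega⟩ := ⟨_, rfl⟩
    obtain ⟨p1, h1⟩ : ∃ p1 : Idx D.M, p1 = ⟨b, 1, by omega⟩ := ⟨_, rfl⟩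
    obtain ⟨p2, h2⟩ : ∃ p2 : Idx D.M, p2 = ⟨b, 2, by omega⟩ := ⟨_, rfl⟩
    obtain ⟨p3, h3⟩ : ∃ p3 : Idx D.M, p3 = ⟨b, 3, by omega⟩ := ⟨_, rfl⟩
    obtain ⟨p4, h4⟩ : ∃ p4 : Idx D.M, p4 = ⟨b, 4, by omega⟩ := ⟨_, rfl⟩
    have n02 : p0 ≠ p2 := by rw [h0, h2]; simp
    have n12 : p1 ≠ p2 := by rw [h1, h2]; simp
    have n04 : p0 ≠ p4 := by rw [h0, h4]; simp
    have n14 : p1 ≠ p4 := by rw [h1, h4]; simp
    have n24 : p2 ≠ p4 := by rw [h2, h4]; simp
    have n34 : p3 ≠ p4 := by rw [h3, h4]; simp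
    have hH := fun s => Hk_top D b s p0 p1 p2 p3 p4 h0 h1 h2 h3 h4
    have hnz : ∀ s ∈ Fintype.piFinset Zf, s p0 ≠ 0 := by
      intro s hs h
      rw [Fintype.mem_piFinset] at hs
      have := hs p0
      rw [h, h0, hZ] at this
      exact D.hZ0 _ _ this
    have b1 := bad_card Zf r hr p2 (fun s => s p0 * s p2 = s p1 * s p1)
      (by
        intro s s' hs hs' hp hp' he
        have e0 := he p0 n02
        have e1 := he p1 n12
        rw [← e0, ← e1, ← hp] at hp'
        exact (mul_left_cancel₀ (hnz s hs) hp').symm)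
    have b2 := bad_card Zf r hr p4
      (fun s => s p0 * s p2 ≠ s p1 * s p1 ∧ Hk (crd b (Vx.top s)) = 0)
      (by
        intro s s' hs hs' hp hp' he
        have e0 := he p0 n04
        have e1 := he p1 n14
        have e2 := he p2 n24
        have e3 := he p3 n34
        obtain ⟨hp1, hp2⟩ := hp
        obtain ⟨_, hp2'⟩ := hp'
        rw [hH] at hp2 hp2'
        rw [← e0, ← e1, ← e2, ← e3] at hp2'
        have h5 : (s p0 * s p2 - s p1 * s p1) * (s p4 - s' p4) = 0 := by
          linear_combination hp2' - hp2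
        rcases mul_eq_zero.1 h5 with h6 | h6
        · exact absurd (sub_eq_zero.1 h6) hp1
        · exact sub_eq_zero.1 h6)
    rw [hcardI] at b1 b2
    have hsub : (Fintype.piFinset Zf).filter (fun s => Hk (crd b (Vx.top s)) = 0) ⊆
        (Fintype.piFinset Zf).filter (fun s => s p0 * s p2 = s p1 * s p1) ∪
        (Fintype.piFinset Zf).filter
          (fun s => s p0 * s p2 ≠ s p1 * s p1 ∧ Hk (crd b (Vx.top s)) = 0) := by
      intro s hs
      rw [Finset.mem_filter] at hs
      rw [Finset.mem_union, Finset.mem_filter, Finset.mem_filter]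
      by_cases hc : s p0 * s p2 = s p1 * s p1
      · exact Or.inl ⟨hs.1, hc⟩
      · exact Or.inr ⟨hs.1, hc, hs.2⟩
    have h7 := Finset.card_le_card hsub
    have h8 := Finset.card_union_le
      ((Fintype.piFinset Zf).filter (fun s => s p0 * s p2 = s p1 * s p1))
      ((Fintype.piFinset Zf).filter
          (fun s => s p0 * s p2 ≠ s p1 * s p1 ∧ Hk (crd b (Vx.top s)) = 0))
    omega
  have hall : (Fintype.piFinset Zf).card = r ^ D.t := by
    rw [Fintype.card_piFinset, Finset.prod_congr rfl (fun p _ => hr p), Finset.prod_const,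
      Finset.card_univ, hcardI]
  have hsub : Fintype.piFinset Zf ⊆ (Fintype.piFinset Zf).filter (Good D) ∪
      ((Fintype.piFinset Zf).filter (fun s => Hk (crd false (Vx.top s)) = 0) ∪
        (Fintype.piFinset Zf).filter (fun s => Hk (crd true (Vx.top s)) = 0)) := by
    intro s hs
    simp only [Finset.mem_union, Finset.mem_filter]
    by_cases h1 : Hk (crd false (Vx.top s)) = 0
    · exact Or.inr (Or.inl ⟨hs, h1⟩)
    · by_cases h2 : Hk (crd true (Vx.top s)) = 0
      · exact Or.inr (Or.inr ⟨hs, h2⟩)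
      · left
        refine ⟨hs, ?_, ?_⟩
        · intro b j
          rw [Fintype.mem_piFinset] at hs
          exact (hZ b j _).1 (hs ⟨b, j⟩)
        · intro b
          cases b
          · exact h1
          · exact h2
  have h1 := Finset.card_le_card hsub
  have h2 := Finset.card_union_le ((Fintype.piFinset Zf).filter (Good D))
    ((Fintype.piFinset Zf).filter (fun s => Hk (crd false (Vx.top s)) = 0) ∪
        (Fintype.piFinset Zf).filter (fun s => Hk (crd true (Vx.top s)) = 0))
  have h3 := Finset.card_union_le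
    ((Fintype.piFinset Zf).filter (fun s => Hk (crd false (Vx.top s)) = 0))
    ((Fintype.piFinset Zf).filter (fun s => Hk (crd true (Vx.top s)) = 0))
  have h4 := hbad false
  have h5 := hbad true
  have ht : D.t = D.t - 1 + 1 := by
    have := D.hM false
    have := D.t_eq false
    omega
  have h6 : r ^ D.t = r * r ^ (D.t - 1) := by
    conv_lhs => rw [ht, pow_succ]
    ring
  have h7 : 8 * r ^ (D.t - 1) ≤ r ^ D.t := by
    rw [h6]
    exact Nat.mul_le_mul_right _ hr8
  omega

end Pool.Agent.Chi73
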