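import Pool.Agent.Chi73.Graph

set_option autoImplicit false

namespace Pool.Agent.Chi73

variable {F : Type} [Field F]

open Classical in
/-- the side of an edge -/
noncomputable def sd (D : Dat F) (u w : Vx F D.M) : Bool :=
  if ∃ i, Ed D true i u w ∨ Ed D true i w u then true else false

lemma sd_spec {D : Dat F} {u w : Vx F D.M} (h : (Gr D).Adj u w) :
    ∃ i, Ed D (sd D u w) i u w ∨ Ed D (sd D u w) i w u := by
  unfold sd
  by_cases hc : ∃ i, Ed D true i u w ∨ Ed D true i w u
  · rw [if_pos hc]
    exact hc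
  · rw [if_neg hc]
    rcases (adj_iff.1 h).2 with ⟨b, i, h1⟩ | ⟨b, i, h1⟩
    · cases b with
      | true => exact absurd ⟨i, Or.inl h1⟩ hc
      | false => exact ⟨i, Or.inl h1⟩
    · cases b with
      | true => exact absurd ⟨i, Or.inr h1⟩ hc
      | false => exact ⟨i, Or.inr h1⟩

/-- a closed non-backtracking walk of length `ℓ`, as a periodic sequence -/
structure CW (D : Dat F) (ℓ : ℕ) (v : ℕ → Vx F D.M) : Prop where
  per : ∀ k, v (k + ℓ) = v k
  adj : ∀ k, (Gr D).Adj (v k) (v (k + 1))
  nb : ∀ k, v k ≠ v (k + 2)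

/-- the vertex is a top -/
def isTop {M : Bool → ℕ} : Vx F M → Prop
  | Vx.top _ => True
  | _ => False

namespace CW

variable {D : Dat F} {ℓ : ℕ} {v : ℕ → Vx F D.M}

lemma shift (C : CW D ℓ v) (r : ℕ) : CW D ℓ (fun k => v (k + r)) where
  per k := by
    have := C.per (k + r)
    rw [show k + ℓ + r = k + r + ℓ by ring]
    exact this
  adj k := by
    have := C.adj (k + r)
    rw [show k + 1 + r = k + r + 1 by ring]
    exact this
  nb k := by
    have := C.nb (k + r)
    rw [show k + 2 + r = k + r + 2 by ring]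
    exact this

lemma spec (C : CW D ℓ v) (k : ℕ) : ∃ i, Ed D (sd D (v k) (v (k + 1))) i (v k) (v (k + 1)) ∨
    Ed D (sd D (v k) (v (k + 1))) i (v (k + 1)) (v k) := sd_spec (C.adj k)

lemma at_left (C : CW D ℓ v) (k : ℕ) :
    At D (sd D (v k) (v (k + 1))) (dp (sd D (v k) (v (k + 1))) (v k)) (v k) := by
  obtain ⟨i, h | h⟩ := C.spec k
  · rw [h.1.dp]
    exact h.1
  · rw [h.2.1.dp]
    exact h.2.1

lemma at_right (C : CW D ℓ v) (k : ℕ) :
    At D (sd D (v k) (v (k + 1))) (dp (sd D (v k) (v (k + 1))) (v (k + 1))) (v (k + 1)) := by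
  obtain ⟨i, h | h⟩ := C.spec k
  · rw [h.2.1.dp]
    exact h.2.1
  · rw [h.1.dp]
    exact h.1

lemma per_sd (C : CW D ℓ v) (k : ℕ) :
    sd D (v (k + ℓ)) (v (k + ℓ + 1)) = sd D (v k) (v (k + 1)) := by
  rw [show k + ℓ + 1 = k + 1 + ℓ by ring, C.per, C.per]

/-- Case A -/
lemma walkA (C : CW D ℓ v)
    (hA : ∀ k, isTop (v (k + 1)) → sd D (v k) (v (k + 1)) = sd D (v (k + 1)) (v (k + 2))) :
    WalkA D ℓ (fun k => sd D (v k) (v (k + 1))) (fun k => dp (sd D (v k) (v (k + 1))) (v k))
      (fun k => crd (sd D (v k) (v (k + 1))) (v k)) := by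
  have hdp : ∀ k, dp (sd D (v k) (v (k + 1))) (v (k + 1))
      = dp (sd D (v (k + 1)) (v (k + 2))) (v (k + 1)) := by
    intro k
    have h1 := hA k
    generalize sd D (v k) (v (k + 1)) = s1 at h1 ⊢
    generalize sd D (v (k + 1)) (v (k + 2)) = s2 at h1 ⊢
    cases hv : v (k + 1) with
    | pt y => rfl
    | mid b i x => rfl
    | top s =>
      rw [hv] at h1
      rw [h1 trivial]
  have hcrd : ∀ k, crd (sd D (v k) (v (k + 1))) (v (k + 1))
      = crd (sd D (v (k + 1)) (v (k + 2))) (v (k + 1)) := by
    intro k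
    have h1 := hA k
    generalize sd D (v k) (v (k + 1)) = s1 at h1 ⊢
    generalize sd D (v (k + 1)) (v (k + 2)) = s2 at h1 ⊢
    cases hv : v (k + 1) with
    | pt y => rfl
    | mid b i x => rfl
    | top s =>
      rw [hv] at h1
      rw [h1 trivial]
  refine ⟨C.per_sd, ?_, ?_, ?_, ?_, ?_⟩
  · intro k
    rw [C.per_sd, C.per]
  · intro k
    rw [C.per_sd, C.per]
  · intro k
    have e1 := hdp k
    have e2 := hcrd k
    obtain ⟨i, h | h⟩ := C.spec k
    · left
      have h1 := h.1.dp
      have h2 := h.2.1.dp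
      refine ⟨?_, ?_⟩
      · rw [h1, ← h2, e1]
      · have h3 := h.2.2
        rw [e2] at h3
        rw [h1]
        exact h3
    · right
      have h1 := h.1.dp
      have h2 := h.2.1.dp
      refine ⟨?_, ?_⟩
      · rw [h2, ← h1, e1]
      · have h3 := h.2.2
        rw [e2] at h3
        rw [← e1, h1]
        exact h3
  · intro k hk
    have h1 := C.at_right k
    have h2 := C.at_left (k + 1)
    have h3 := hA k
    rw [show k + 1 + 1 = k + 2 by ring] at *
    generalize sd D (v k) (v (k + 1)) = s1 at h1 h3 ⊢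
    generalize sd D (v (k + 1)) (v (k + 2)) = s2 at h2 h3 hk ⊢
    cases hv : v (k + 1) with
    | pt y =>
      rw [hv] at hk
      simp only [Chi73.dp] at hk
      omega
    | mid b i x =>
      rw [hv] at h1 h2
      exact h1.1.symm.trans h2.1
    | top s =>
      rw [hv] at h3
      exact h3 trivial
  · intro k hσ hh hX
    apply C.nb k
    have h1 := C.at_left k
    have h2 := C.at_right (k + 1)
    have e1 := hdp (k + 1)
    have e2 := hcrd (k + 1)
    rw [show k + 1 + 1 = k + 2 by ring, show k + 1 + 2 = k + 2 + 1 by ring] at *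
    rw [e1, ← hh, ← hσ] at h2
    apply h1.unique h2
    intro j hj
    rw [hX j hj, ← e2, ← hσ]

/-- codepth at most `k` and not a point -/
def near {M : Bool → ℕ} (k : ℕ) : Vx F M → Prop
  | Vx.pt _ => False
  | Vx.mid b i _ => M b ≤ i.1 + k
  | Vx.top _ => True

lemma near_adj {D : Dat F} {u w : Vx F D.M} (h : (Gr D).Adj u w) (k : ℕ) (hk : k ≤ 6)
    (hu : near k u) : near (k + 1) w := by
  rcases (adj_iff.1 h).2 with ⟨b, i, h1⟩ | ⟨b, i, h1⟩
  · have hM := D.hM b
    have e1 := h1.1
    have e2 := h1.2.1
    have l1 := h1.2.2.lt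
    cases u with
    | pt y => exact hu.elim
    | top s =>
      have := e1.1
      omega
    | mid b1 i1 x =>
      simp only [At] at e1
      obtain ⟨rfl, e3, _, _⟩ := e1
      simp only [near] at hu
      cases w with
      | pt y =>
        simp only [At] at e2
        omega
      | top s => trivial
      | mid b2 i2 x2 =>
        simp only [At] at e2
        obtain ⟨rfl, e4, _, _⟩ := e2
        simp only [near]
        omega
  · have hM := D.hM b
    have e1 := h1.1
    have e2 := h1.2.1
    have l1 := h1.2.2.lt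
    cases u with
    | pt y => exact hu.elim
    | top s =>
      have e3 := e2.1
      cases w with
      | pt y =>
        simp only [At] at e1
        omega
      | top s => trivial
      | mid b2 i2 x2 =>
        simp only [At] at e1
        obtain ⟨rfl, e4, _, _⟩ := e1
        simp only [near]
        omega
    | mid b1 i1 x =>
      simp only [At] at e2
      obtain ⟨rfl, e3, _, _⟩ := e2
      simp only [near] at hu
      cases w with
      | pt y =>
        simp only [At] at e1
        omega
      | top s => trivial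
      | mid b2 i2 x2 =>
        simp only [At] at e1
        obtain ⟨rfl, e4, _, _⟩ := e1
        simp only [near]
        omega

lemma near_mono {M : Bool → ℕ} (k k' : ℕ) (hk : k ≤ k') (u : Vx F M) (h : near k u) :
    near k' u := by
  cases u with
  | pt y => exact h.elim
  | top s => trivial
  | mid b i x =>
    simp only [near] at *
    omega

lemma near_all (C : CW D ℓ v) (hℓ : ℓ ≤ 10) (hℓ2 : 0 < ℓ) (h0 : isTop (v 0)) :
    ∀ k, near 5 (v k) := by
  have hn0 : near 0 (v 0) := by
    cases hv : v 0 with
    | pt y => rw [hv] at h0; exact h0.elim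
    | mid b i x => rw [hv] at h0; exact h0.elim
    | top s => trivial
  have up : ∀ k, k ≤ 5 → near k (v k) := by
    intro k
    induction k with
    | zero => intro _; exact hn0
    | succ k ih =>
      intro hk
      exact near_adj (C.adj k) k (by omega) (ih (by omega))
  have down : ∀ k, k ≤ 5 → k ≤ ℓ → near k (v (ℓ - k)) := by
    intro k
    induction k with
    | zero =>
      intro _ _
      have := C.per 0
      rw [zero_add] at this
      rw [Nat.sub_zero, this]
      exact hn0
    | succ k ih =>
      intro hk hk2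
      have h1 := C.adj (ℓ - (k + 1))
      rw [show ℓ - (k + 1) + 1 = ℓ - k by omega] at h1
      exact near_adj h1.symm k (by omega) (ih (by omega) (by omega))
  intro k
  have hper : ∀ m n, v (m + n * ℓ) = v m := by
    intro m n
    induction n with
    | zero => simp
    | succ n ih => rw [show m + (n + 1) * ℓ = (m + n * ℓ) + ℓ by ring, C.per, ih]
  have h1 : v k = v (k % ℓ) := by
    conv_lhs => rw [← Nat.mod_add_div k ℓ, mul_comm]
    rw [hper]
  rw [h1]
  have h2 := Nat.mod_lt k hℓ2
  rcases le_or_gt (k % ℓ) 5 with h3 | h3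
  · exact near_mono _ _ h3 _ (up _ h3)
  · have h4 := down (ℓ - k % ℓ) (by omega) (by omega)
    rw [show ℓ - (ℓ - k % ℓ) = k % ℓ by omega] at h4
    exact near_mono _ _ (by omega) _ h4

/-- Case B -/
lemma walkB (C : CW D ℓ v) (hn : ∀ k, near 5 (v k)) :
    WalkB D ℓ (fun k => sd D (v k) (v (k + 1)))
      (fun k => D.M (sd D (v k) (v (k + 1))) - dp (sd D (v k) (v (k + 1))) (v k))
      (fun b k => crd b (v k)) := by
  have hcod : ∀ k, D.M (sd D (v k) (v (k + 1))) - dp (sd D (v k) (v (k + 1))) (v (k + 1))
      = D.M (sd D (v (k + 1)) (v (k + 2))) - dp (sd D (v (k + 1)) (v (k + 2))) (v (k + 1)) := by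
    intro k
    have h0 := hn (k + 1)
    have h1 := C.at_right k
    have h2 := C.at_left (k + 1)
    rw [show k + 1 + 1 = k + 2 by ring] at *
    generalize sd D (v k) (v (k + 1)) = s1 at h1 ⊢
    generalize sd D (v (k + 1)) (v (k + 2)) = s2 at h2 ⊢
    cases hv : v (k + 1) with
    | pt y => rw [hv] at h0; exact h0.elim
    | mid b i x =>
      rw [hv] at h1 h2
      rw [← h1.1, ← h2.1]
    | top s => simp [Chi73.dp]
  have hsame : ∀ k, 0 < D.M (sd D (v (k + 1)) (v (k + 2))) -
      dp (sd D (v (k + 1)) (v (k + 2))) (v (k + 1)) →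
      sd D (v k) (v (k + 1)) = sd D (v (k + 1)) (v (k + 2)) := by
    intro k hk
    have h0 := hn (k + 1)
    have h1 := C.at_right k
    have h2 := C.at_left (k + 1)
    rw [show k + 1 + 1 = k + 2 by ring] at *
    generalize sd D (v k) (v (k + 1)) = s1 at h1 ⊢
    generalize sd D (v (k + 1)) (v (k + 2)) = s2 at h2 hk ⊢
    cases hv : v (k + 1) with
    | pt y => rw [hv] at h0; exact h0.elim
    | mid b i x =>
      rw [hv] at h1 h2
      rw [← h1.1, ← h2.1]
    | top s =>
      rw [hv] at hk
      simp [Chi73.dp] at hk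
  have hle : ∀ k, dp (sd D (v k) (v (k + 1))) (v k) ≤ D.M (sd D (v k) (v (k + 1))) := by
    intro k
    have h0 := hn k
    have h1 := C.at_left k
    generalize sd D (v k) (v (k + 1)) = s1 at h1 ⊢
    cases hv : v k with
    | pt y => simp [Chi73.dp]
    | mid b i x =>
      rw [hv] at h1
      have := h1.2.2.2
      simp only [Chi73.dp] at *
      omega
    | top s => simp [Chi73.dp]
  refine ⟨C.per_sd, ?_, ?_, ?_, ?_, ?_, ?_, ?_⟩
  · intro k
    rw [C.per_sd, C.per]
  · intro b k
    rw [C.per]
  · intro k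
    have h0 := hn k
    have h1 := C.at_left k
    generalize sd D (v k) (v (k + 1)) = s1 at h1 ⊢
    cases hv : v k with
    | pt y => rw [hv] at h0; exact h0.elim
    | mid b i x =>
      rw [hv] at h1 h0
      obtain ⟨rfl, -, -, -⟩ := h1
      simp only [near] at h0
      simp only [Chi73.dp]
      omega
    | top s => simp [Chi73.dp]
  · intro k
    have e1 := hcod k
    rw [show k + 1 + 1 = k + 2 by ring] at *
    obtain ⟨i, h | h⟩ := C.spec k
    · left
      have h1 := h.1.dp
      have h2 := h.2.1.dp
      have h3 := h.2.2.lt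
      rw [h2] at e1
      refine ⟨?_, ?_⟩
      · rw [h1, ← e1]
        omega
      · rw [h1, show D.M (sd D (v k) (v (k + 1))) - (D.M (sd D (v k) (v (k + 1))) - i) = i by omega]
        exact h.2.2
    · right
      have h1 := h.1.dp
      have h2 := h.2.1.dp
      have h3 := h.2.2.lt
      rw [h1] at e1
      refine ⟨?_, ?_⟩
      · rw [h2, ← e1]
        omega
      · rw [← e1, show D.M (sd D (v k) (v (k + 1))) - (D.M (sd D (v k) (v (k + 1))) - i) = i by omega]
        exact h.2.2
  · intro k hk
    exact hsame k hk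
  · intro k hk b
    have h0 := hn k
    have h1 := C.at_left k
    generalize sd D (v k) (v (k + 1)) = s1 at h1 hk
    cases hv : v k with
    | pt y => rw [hv] at h0; exact h0.elim
    | mid b' i x =>
      rw [hv] at h1 hk
      simp only [Chi73.dp] at hk
      have := h1.2.2.2
      simp only [Chi73.dp] at this
      omega
    | top s =>
      rw [hv] at h1
      have hg := h1.2
      refine ⟨fun j hj => crd_top_swap b s j hj, ?_, hg.2 b⟩
      intro j hj
      rw [crd_top_low b s j hj]
      exact hg.1 b ⟨j, hj⟩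
  · intro k b hb hb1 he hX
    apply C.nb k
    have h1 := C.at_left k
    have h2 := C.at_right (k + 1)
    have e1 := hcod (k + 1)
    have e2 := hle k
    rw [show k + 1 + 1 = k + 2 by ring] at *
    rw [show k + 1 + 2 = k + 2 + 1 by ring] at *
    rw [← e1] at he
    rw [hb] at h1 he e2
    rw [hb1] at h2 he
    have e3 : dp b (v (k + 2)) ≤ D.M b := by
      have h0 := hn (k + 2)
      cases hv : v (k + 2) with
      | pt y => simp [Chi73.dp]
      | mid b' i x =>
        rw [hv] at h2
        have := h2.2.2.2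
        simp only [Chi73.dp] at *
        omega
      | top s => simp [Chi73.dp]
    have e4 : dp b (v k) = dp b (v (k + 2)) := by omega
    rw [← e4] at h2
    exact h1.unique h2 hX

theorem false (C : CW D ℓ v) (hℓ : ℓ = 4 ∨ ℓ = 6 ∨ ℓ = 10) : False := by
  by_cases hA : ∀ k, isTop (v (k + 1)) → sd D (v k) (v (k + 1)) = sd D (v (k + 1)) (v (k + 2))
  · exact (C.walkA hA).false hℓ
  · push Not at hA
    obtain ⟨k, h1, h2⟩ := hA
    have C' := C.shift (k + 1)
    have h0 : isTop ((fun j => v (j + (k + 1))) 0) := by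
      simp only [zero_add]
      exact h1
    have hn := C'.near_all (by omega) (by omega) h0
    refine (C'.walkB hn).false hℓ ?_ ?_
    · have hh := hn 0
      simp only [zero_add] at hh h0 ⊢
      generalize sd D (v (k + 1)) (v (1 + (k + 1))) = s1
      cases hv : v (k + 1) with
      | pt y => rw [hv] at h0; exact h0.elim
      | mid b i x => rw [hv] at h0; exact h0.elim
      | top s => simp [Chi73.dp]
    · simp only [zero_add]
      rw [show ℓ - 1 + (k + 1) = k + ℓ by omega, show ℓ - 1 + 1 + (k + 1) = k + 1 + ℓ by omega,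
        C.per, C.per, show 1 + (k + 1) = k + 2 by ring]
      exact h2

end CW

end Pool.Agent.Chi73
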