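import Pool.Agent.Chi73.CaseB

set_option autoImplicit false

namespace Pool.Agent.Chi73

variable {F : Type} [Field F]

namespace WalkB

variable {D : Dat F} {ℓ : ℕ} {σ : ℕ → Bool} {e : ℕ → ℕ} {Y : Bool → ℕ → ℕ → F}

lemma parity (W : WalkB D ℓ σ e Y) (e0 : e 0 = 0) (k : ℕ) : e k % 2 = k % 2 := by
  induction k with
  | zero => rw [e0]
  | succ k ih =>
    have := W.step_e k
    omega

lemma pair (W : WalkB D ℓ σ e Y) (e0 : e 0 = 0) (j : ℕ) : σ (2 * j + 1) = σ (2 * j) := by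
  have := W.parity e0 (2 * j + 1)
  exact (W.same (2 * j) (by omega)).symm

lemma top_of_ne (W : WalkB D ℓ σ e Y) (k : ℕ) (h : σ k ≠ σ (k + 1)) : e (k + 1) = 0 := by
  by_contra hc
  exact h (W.same k (by omega))

lemma false4 (W : WalkB D 4 σ e Y) (e0 : e 0 = 0) (h : σ 3 ≠ σ 0) : False := by
  have p0 : σ 1 = σ 0 := W.pair e0 0
  have p1 : σ 3 = σ 2 := W.pair e0 1
  have n : σ 1 ≠ σ 2 := by
    rw [p0, ← p1]
    exact h.symm
  have e2 : e 2 = 0 := W.top_of_ne 1 n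
  refine W.M1 (by omega) (by omega) (σ 0) e0 e2 rfl p0 ?_
  intro k hk1 hk2
  have : k = 2 ∨ k = 3 := by omega
  rcases this with rfl | rfl
  · cases h0 : σ 0 <;> cases h2 : σ 2 <;> simp_all
  · cases h0 : σ 0 <;> cases h2 : σ 3 <;> simp_all

/-- the patterns of sides -/
lemma M1' (W : WalkB D ℓ σ e Y) (hℓ : ℓ ≤ 10) (hℓ2 : 4 ≤ ℓ) (b : Bool) (r : ℕ) (er : e r = 0)
    (e2 : e (2 + r) = 0) (s0 : σ r = b) (s1 : σ (1 + r) = b)
    (s2 : ∀ k, 2 ≤ k → k < ℓ → σ (k + r) = !b) : False := by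
  refine (W.shift r).M1 hℓ hℓ2 b ?_ e2 ?_ s1 s2
  · simpa using er
  · simpa using s0

lemma M2' (W : WalkB D ℓ σ e Y) (hℓ : ℓ ≤ 10) (hℓ2 : 4 ≤ ℓ) (b : Bool) (r : ℕ) (er : e r = 0)
    (e4 : e (4 + r) = 0) (s0 : σ r = b) (s1 : σ (1 + r) = b) (s2 : σ (2 + r) = b)
    (s3 : σ (3 + r) = b) (s4 : ∀ k, 4 ≤ k → k < ℓ → σ (k + r) = !b) : False := by
  refine (W.shift r).M2 hℓ hℓ2 b ?_ e4 ?_ s1 s2 s3 s4
  · simpa using er
  · simpa using s0

lemma M3' (W : WalkB D 10 σ e Y) (b : Bool) (r : ℕ) (er : e r = 0) (e2 : e (2 + r) = 0)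
    (e4 : e (4 + r) = 0) (e8 : e (8 + r) = 0) (s0 : σ r = b) (s1 : σ (1 + r) = b)
    (s2 : σ (2 + r) = !b) (s3 : σ (3 + r) = !b)
    (s4 : σ (4 + r) = b) (s5 : σ (5 + r) = b) (s6 : σ (6 + r) = b) (s7 : σ (7 + r) = b)
    (s8 : σ (8 + r) = !b) (s9 : σ (9 + r) = !b) : False := by
  refine (W.shift r).M3 b ?_ e2 e4 e8 ?_ s1 s2 s3 s4 s5 s6 s7 s8 s9
  · simpa using er
  · simpa using s0

lemma false6 (W : WalkB D 6 σ e Y) (e0 : e 0 = 0) (h : σ 5 ≠ σ 0) : False := by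
  have p0 : σ 1 = σ 0 := W.pair e0 0
  have p1 : σ 3 = σ 2 := W.pair e0 1
  have p2 : σ 5 = σ 4 := W.pair e0 2
  have q0 : σ 6 = σ 0 := W.perσ 0
  have q1 : σ 7 = σ 1 := W.perσ 1
  have q2 : σ 8 = σ 2 := W.perσ 2
  have q3 : σ 9 = σ 3 := W.perσ 3
  have e6 : e 6 = 0 := by
    have : e 6 = e 0 := W.pere 0
    omega
  by_cases h02 : σ 2 = σ 0
  · -- τ = b b !b
    have e4 : e 4 = 0 := by
      apply W.top_of_ne 3
      rw [p1, h02]
      intro h1
      rw [← p2] at h1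
      exact h h1.symm
    refine W.M1' (by omega) (by omega) (σ 4) 4 e4 e6 rfl p2 ?_
    intro k hk1 hk2
    interval_cases k <;> simp only [Nat.reduceAdd] <;>
      cases h0 : σ 0 <;> cases h4 : σ 4 <;> simp_all
  · have e2 : e 2 = 0 := by
      apply W.top_of_ne 1
      rw [p0]
      exact fun h1 => h02 h1.symm
    refine W.M1' (by omega) (by omega) (σ 0) 0 e0 e2 rfl p0 ?_
    intro k hk1 hk2
    interval_cases k <;> simp only [Nat.reduceAdd, add_zero] <;>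
      cases h0 : σ 0 <;> cases h2 : σ 2 <;> cases h4 : σ 4 <;> simp_all

lemma false10 (W : WalkB D 10 σ e Y) (e0 : e 0 = 0) (h : σ 9 ≠ σ 0) : False := by
  have p0 : σ 1 = σ 0 := W.pair e0 0
  have p1 : σ 3 = σ 2 := W.pair e0 1
  have p2 : σ 5 = σ 4 := W.pair e0 2
  have p3 : σ 7 = σ 6 := W.pair e0 3
  have p4 : σ 9 = σ 8 := W.pair e0 4
  have q0 : σ 10 = σ 0 := W.perσ 0
  have q1 : σ 11 = σ 1 := W.perσ 1
  have q2 : σ 12 = σ 2 := W.perσ 2
  have q3 : σ 13 = σ 3 := W.perσ 3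
  have q4 : σ 14 = σ 4 := W.perσ 4
  have q5 : σ 15 = σ 5 := W.perσ 5
  have q6 : σ 16 = σ 6 := W.perσ 6
  have q7 : σ 17 = σ 7 := W.perσ 7
  have q8 : σ 18 = σ 8 := W.perσ 8
  have r0 : e 10 = e 0 := W.pere 0
  have r2 : e 12 = e 2 := W.pere 2
  have r4 : e 14 = e 4 := W.pere 4
  have r6 : e 16 = e 6 := W.pere 6
  have r8 : e 18 = e 8 := W.pere 8
  have z2 : σ 0 ≠ σ 2 → e 2 = 0 := fun hh => W.top_of_ne 1 (by rw [p0]; exact hh)
  have z4 : σ 2 ≠ σ 4 → e 4 = 0 := fun hh => W.top_of_ne 3 (by rw [p1]; exact hh)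
  have z6 : σ 4 ≠ σ 6 → e 6 = 0 := fun hh => W.top_of_ne 5 (by rw [p2]; exact hh)
  have z8 : σ 6 ≠ σ 8 → e 8 = 0 := fun hh => W.top_of_ne 7 (by rw [p3]; exact hh)
  -- the ten possible patterns, as a boolean statement
  have key : ∀ b : Bool, σ 0 = b → σ 8 = (!b) → False := by
    intro b hb hb8
    by_cases c2 : σ 2 = b <;> by_cases c4 : σ 4 = b <;> by_cases c6 : σ 6 = b
    · -- 1 1 1 1 0
      refine W.M1' (by omega) (by omega) (!b) 8 (z8 (by simp [c6, hb8])) (by simpa using by omega)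
        hb8 (by simpa using by rw [p4, hb8]) ?_
      intro k hk1 hk2
      interval_cases k <;> simp_all
    · -- 1 1 1 0 0
      have c6' : σ 6 = !b := by cases b <;> simp_all
      refine W.M2' (by omega) (by omega) (!b) 6 (z6 (by simp [c4, c6'])) (by simpa using by omega)
        c6' (by simpa using by rw [p3, c6']) hb8 (by simpa using by rw [p4, hb8]) ?_
      intro k hk1 hk2
      interval_cases k <;> simp_all
    · -- 1 1 0 1 0
      have c4' : σ 4 = !b := by cases b <;> simp_all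
      refine W.M3' b 6 (z6 (by simp [c4', c6])) ?_ ?_ ?_ c6 ?_ ?_ ?_ ?_ ?_ ?_ ?_ ?_ ?_
        <;> simp only [Nat.reduceAdd]
      · exact z8 (by simp [c6, hb8])
      · omega
      · rw [r4]; exact z4 (by simp [c2, c4'])
      all_goals simp_all
    · -- 1 1 0 0 0
      have c4' : σ 4 = !b := by cases b <;> simp_all
      have c6' : σ 6 = !b := by cases b <;> simp_all
      refine W.M2' (by omega) (by omega) b 0 e0 (z4 (by simp [c2, c4'])) hb
        (by simpa using by rw [p0, hb]) c2 (by simpa using by rw [p1, c2]) ?_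
      intro k hk1 hk2
      interval_cases k <;> simp_all
    · -- 1 0 1 1 0
      have c2' : σ 2 = !b := by cases b <;> simp_all
      refine W.M3' b 0 e0 ?_ ?_ ?_ hb ?_ ?_ ?_ ?_ ?_ ?_ ?_ ?_ ?_
        <;> simp only [Nat.reduceAdd]
      · exact z2 (by simp [hb, c2'])
      · exact z4 (by simp [c2', c4])
      · exact z8 (by simp [c6, hb8])
      all_goals simp_all
    · -- 1 0 1 0 0
      have c2' : σ 2 = !b := by cases b <;> simp_all
      have c6' : σ 6 = !b := by cases b <;> simp_all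
      refine W.M3' (!b) 2 (z2 (by simp [hb, c2'])) ?_ ?_ ?_ c2' ?_ ?_ ?_ ?_ ?_ ?_ ?_ ?_ ?_
        <;> simp only [Nat.reduceAdd]
      · exact z4 (by simp [c2', c4])
      · exact z6 (by simp [c4, c6'])
      · omega
      all_goals simp_all
    · -- 1 0 0 1 0
      have c2' : σ 2 = !b := by cases b <;> simp_all
      have c4' : σ 4 = !b := by cases b <;> simp_all
      refine W.M3' (!b) 8 (z8 (by simp [c6, hb8])) ?_ ?_ ?_ hb8 ?_ ?_ ?_ ?_ ?_ ?_ ?_ ?_ ?_
        <;> simp only [Nat.reduceAdd]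
      · omega
      · rw [r2]; exact z2 (by simp [hb, c2'])
      · rw [r6]; exact z6 (by simp [c4', c6])
      all_goals simp_all
    · -- 1 0 0 0 0
      have c2' : σ 2 = !b := by cases b <;> simp_all
      have c4' : σ 4 = !b := by cases b <;> simp_all
      have c6' : σ 6 = !b := by cases b <;> simp_all
      refine W.M1' (by omega) (by omega) b 0 e0 (z2 (by simp [hb, c2'])) hb
        (by simpa using by rw [p0, hb]) ?_
      intro k hk1 hk2
      interval_cases k <;> simp_all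
  apply key (σ 0) rfl
  rw [p4] at h
  cases h0 : σ 0 <;> cases h8 : σ 8 <;> simp_all

theorem false (W : WalkB D ℓ σ e Y) (hℓ : ℓ = 4 ∨ ℓ = 6 ∨ ℓ = 10) (e0 : e 0 = 0)
    (h : σ (ℓ - 1) ≠ σ 0) : False := by
  rcases hℓ with rfl | rfl | rfl
  · exact W.false4 e0 h
  · exact W.false6 e0 h
  · exact W.false10 e0 h

end WalkB

end Pool.Agent.Chi73
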