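import Pool.Agent.Chi73.NoA
import Pool.Agent.Chi73.NoB

set_option autoImplicit false

namespace Pool.Agent.Chi73

variable {F : Type} [Field F]

/-- index set of the entries of a top -/
abbrev Idx (M : Bool → ℕ) : Type := Σ b : Bool, Fin (M b)

/-- vertices: points, intermediate vertices (side, depth, coordinates), tops -/
inductive Vx (F : Type) (M : Bool → ℕ) : Type
  | pt (y : Fin (M false + M true) → F)
  | mid (b : Bool) (i : Fin (M false + M true)) (x : Fin (M false + M true) → F)
  | top (s : Idx M → F)

/-- coordinates of a vertex on side `b` -/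
def crd {M : Bool → ℕ} (b : Bool) : Vx F M → ℕ → F
  | Vx.pt y => ext y
  | Vx.mid _ _ x => ext x
  | Vx.top s => fun j => if h : j < M b then s ⟨b, j, h⟩ else
      if h' : j - M b < M (!b) then s ⟨!b, j - M b, h'⟩ else 0

/-- depth of a vertex on side `b` -/
def dp {M : Bool → ℕ} (b : Bool) : Vx F M → ℕ
  | Vx.pt _ => 0
  | Vx.mid _ i _ => i.1
  | Vx.top _ => M b

/-- the good tops -/
def Good (D : Dat F) (s : Idx D.M → F) : Prop :=
  (∀ b (j : Fin (D.M b)), s ⟨b, j⟩ ∈ D.Z b j) ∧ ∀ b, Hk (crd b (Vx.top s)) ≠ 0

/-- the vertex lies on side `b` at depth `i` -/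
def At (D : Dat F) (b : Bool) (i : ℕ) : Vx F D.M → Prop
  | Vx.pt _ => i = 0
  | Vx.mid b' i' _ => b' = b ∧ i'.1 = i ∧ 0 < i ∧ i < D.M b
  | Vx.top s => i = D.M b ∧ Good D s

/-- the edges -/
def Ed (D : Dat F) (b : Bool) (i : ℕ) (u w : Vx F D.M) : Prop :=
  At D b i u ∧ At D b (i + 1) w ∧ Step D b i (crd b u) (crd b w)

/-- the graph -/
def Gr (D : Dat F) : SimpleGraph (Vx F D.M) :=
  SimpleGraph.fromRel (fun u w => ∃ b i, Ed D b i u w)

lemma crd_top_low {M : Bool → ℕ} (b : Bool) (s : Idx M → F) (j : ℕ) (h : j < M b) :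
    crd b (Vx.top s) j = s ⟨b, j, h⟩ := by
  simp [crd, h]

lemma crd_top_high {M : Bool → ℕ} (b : Bool) (s : Idx M → F) (j : ℕ) (h : j < M (!b)) :
    crd b (Vx.top s) (M b + j) = s ⟨!b, j, h⟩ := by
  simp [crd, h]

lemma crd_top_swap {M : Bool → ℕ} (b : Bool) (s : Idx M → F) (j : ℕ) (h : j < M (!b)) :
    crd b (Vx.top s) (M b + j) = crd (!b) (Vx.top s) j := by
  rw [crd_top_high b s j h, crd_top_low (!b) s j h]

lemma At.dp {D : Dat F} {b : Bool} {i : ℕ} {v : Vx F D.M} (h : At D b i v) : dp b v = i := by
  cases v with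
  | pt y => exact h.symm
  | mid b' i' x => exact h.2.1
  | top s => exact h.1.symm

lemma At.unique {D : Dat F} {b : Bool} {i : ℕ} {u v : Vx F D.M} (hu : At D b i u)
    (hv : At D b i v) (h : ∀ j < D.t, crd b u j = crd b v j) : u = v := by
  have hM := D.hM b
  cases u with
  | pt y =>
    cases v with
    | pt y' =>
      congr 1
      funext j
      have := h j j.2
      simp only [crd] at this
      rw [ext_lt y j j.2, ext_lt y' j j.2] at this
      exact this
    | mid b' i' x =>
      simp only [At] at hu hv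
      omega
    | top s =>
      simp only [At] at hu hv
      omega
  | mid b1 i1 x =>
    cases v with
    | pt y' =>
      simp only [At] at hu hv
      omega
    | mid b' i' x' =>
      obtain ⟨rfl, h2, _, _⟩ := hu
      obtain ⟨rfl, h2', _, _⟩ := hv
      have : i1 = i' := Fin.ext (by omega)
      subst this
      congr 1
      funext j
      have := h j j.2
      simp only [crd] at this
      rw [ext_lt x j j.2, ext_lt x' j j.2] at this
      exact this
    | top s =>
      simp only [At] at hu hv
      omega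
  | top s =>
    cases v with
    | pt y' =>
      simp only [At] at hu hv
      omega
    | mid b' i' x' =>
      simp only [At] at hu hv
      omega
    | top s' =>
      congr 1
      funext p
      obtain ⟨b', j⟩ := p
      have ht := D.t_eq b
      have hj := j.2
      by_cases hb : b' = b
      · subst hb
        have := h j (by omega)
        rw [crd_top_low b' s j j.2, crd_top_low b' s' j j.2] at this
        exact this
      · have hb' : b' = !b := by
          cases b' <;> cases b <;> simp_all
        subst hb'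
        have := h (D.M b + j) (by omega)
        rw [crd_top_high b s j j.2, crd_top_high b s' j j.2] at this
        exact this

lemma adj_iff {D : Dat F} {u w : Vx F D.M} :
    (Gr D).Adj u w ↔ u ≠ w ∧ ((∃ b i, Ed D b i u w) ∨ ∃ b i, Ed D b i w u) := by
  simp [Gr, SimpleGraph.fromRel_adj]

lemma Ed.ne {D : Dat F} {b : Bool} {i : ℕ} {u w : Vx F D.M} (h : Ed D b i u w) : u ≠ w := by
  intro he
  subst he
  have h1 := h.1.dp
  have h2 := h.2.1.dp
  omega

lemma Ed.adj {D : Dat F} {b : Bool} {i : ℕ} {u w : Vx F D.M} (h : Ed D b i u w) :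
    (Gr D).Adj u w := adj_iff.2 ⟨h.ne, Or.inl ⟨b, i, h⟩⟩

lemma At.top_lt {D : Dat F} {b : Bool} {i : ℕ} {s : Idx D.M → F} (h : At D b i (Vx.top s))
    (hi : i < D.M b) : False := by
  have := h.1
  omega

section Degree

/-- the tag of a neighbour -/
def tg {M : Bool → ℕ} (b d : Bool) : Vx F M → Bool
  | Vx.pt _ => b
  | Vx.mid _ _ _ => d
  | Vx.top _ => b

/-- the neighbour `w` of `v` has tag and value `p` -/
def Rl (D : Dat F) (v : Vx F D.M) (p : Bool × F) (w : Vx F D.M) : Prop :=
  ∃ b i, (Ed D b i v w ∧ p.1 = tg b true v ∧ p.2 = crd b w i) ∨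
    (Ed D b i w v ∧ p.1 = tg b false v ∧ p.2 = crd b w i)

lemma Rl_cover {D : Dat F} {v w : Vx F D.M} (h : (Gr D).Adj v w) : ∃ p, Rl D v p w := by
  rcases (adj_iff.1 h).2 with ⟨b, i, h1⟩ | ⟨b, i, h1⟩
  · exact ⟨(tg b true v, crd b w i), b, i, Or.inl ⟨h1, rfl, rfl⟩⟩
  · exact ⟨(tg b false v, crd b w i), b, i, Or.inr ⟨h1, rfl, rfl⟩⟩

lemma Rl_unique {D : Dat F} {v w w' : Vx F D.M} {p : Bool × F} (h : Rl D v p w)
    (h' : Rl D v p w') : w = w' := by
  obtain ⟨b, i, h⟩ := h
  obtain ⟨b', i', h'⟩ := h'
  rcases h with ⟨h1, h2, h3⟩ | ⟨h1, h2, h3⟩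
  · rcases h' with ⟨h1', h2', h3'⟩ | ⟨h1', h2', h3'⟩
    · have hbi : b = b' ∧ i = i' := by
        have e1 := h1.1
        have e1' := h1'.1
        cases v with
        | pt y =>
          simp only [At] at e1 e1'
          simp only [tg] at h2 h2'
          exact ⟨by rw [← h2, h2'], by omega⟩
        | mid b1 i1 x =>
          simp only [At] at e1 e1'
          exact ⟨e1.1.symm.trans e1'.1, by omega⟩
        | top s => exact absurd h1.2.2.lt (by have := e1.1; omega)
      obtain ⟨rfl, rfl⟩ := hbi
      exact h1.2.1.unique h1'.2.1 (h1.2.2.up_unique h1'.2.2 (by rw [← h3, h3']))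
    · exfalso
      have e1 := h1.1
      have e1' := h1'.2.1
      have l1 := h1.2.2.lt
      cases v with
      | pt y =>
        simp only [At] at e1'
        omega
      | mid b1 i1 x =>
        simp only [tg] at h2 h2'
        rw [h2] at h2'
        exact absurd h2' (by simp)
      | top s =>
        have := e1.1
        omega
  · rcases h' with ⟨h1', h2', h3'⟩ | ⟨h1', h2', h3'⟩
    · exfalso
      have e1 := h1.2.1
      have e1' := h1'.1
      have l1 := h1'.2.2.lt
      cases v with
      | pt y =>
        simp only [At] at e1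
        omega
      | mid b1 i1 x =>
        simp only [tg] at h2 h2'
        rw [h2] at h2'
        exact absurd h2' (by simp)
      | top s =>
        have := e1'.1
        omega
    · have hbi : b = b' ∧ i = i' := by
        have e1 := h1.2.1
        have e1' := h1'.2.1
        cases v with
        | pt y =>
          simp only [At] at e1
          omega
        | mid b1 i1 x =>
          simp only [At] at e1 e1'
          exact ⟨e1.1.symm.trans e1'.1, by omega⟩
        | top s =>
          simp only [tg] at h2 h2'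
          have hb : b = b' := by rw [← h2, h2']
          subst hb
          have := e1.1
          have := e1'.1
          exact ⟨rfl, by omega⟩
      obtain ⟨rfl, rfl⟩ := hbi
      exact h1.1.unique h1'.1 (h1.2.2.down_unique h1'.2.2 (by rw [← h3, h3']))

lemma degree_le [Fintype F] (D : Dat F) (v : Vx F D.M) :
    ((Gr D).neighborSet v).ncard ≤ 2 * Fintype.card F := by
  classical
  have h1 : ∀ w : (Gr D).neighborSet v, ∃ p, Rl D v p w := fun w => Rl_cover w.2
  choose f hf using h1
  have hinj : Function.Injective f := by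
    intro w w' h
    apply Subtype.ext
    have h2 := hf w
    rw [h] at h2
    exact Rl_unique h2 (hf w')
  have h3 := Nat.card_le_card_of_injective f hinj
  rw [Nat.card_coe_set_eq] at h3
  refine le_trans h3 ?_
  simp

end Degree

end Pool.Agent.Chi73
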