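import Mathlib

set_option autoImplicit false

namespace Pool.Agent.Chi73

lemma greedy (n K : ℕ) (H : SimpleGraph (Fin n)) (hdeg : ∀ v, (H.neighborSet v).ncard ≤ K) :
    H.Colorable (K + 1) := by
  classical
  have key : ∀ m ≤ n, ∃ c : Fin n → Fin (K + 1), ∀ u w : Fin n, u.1 < m → w.1 < m →
      H.Adj u w → c u ≠ c w := by
    intro m
    induction m with
    | zero =>
      intro _
      exact ⟨fun _ => 0, fun u w hu => by omega⟩
    | succ m ih =>
      intro hm
      obtain ⟨c, hc⟩ := ih (by omega)
      set v : Fin n := ⟨m, by omega⟩ with hv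
      have hcard : (c '' (H.neighborSet v)).ncard < (Set.univ : Set (Fin (K + 1))).ncard := by
        have h1 := Set.ncard_image_le (f := c) (Set.toFinite (H.neighborSet v))
        have h2 := hdeg v
        rw [Set.ncard_univ, Nat.card_eq_fintype_card, Fintype.card_fin]
        omega
      obtain ⟨a, _, ha⟩ := Set.exists_mem_notMem_of_ncard_lt_ncard hcard
      refine ⟨Function.update c v a, ?_⟩
      intro u w hu hw huw
      by_cases h1 : u = v
      · have h2 : w ≠ v := by
          rintro rfl
          exact huw.ne h1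
        rw [h1, Function.update_self, Function.update_of_ne h2]
        intro h
        apply ha
        rw [h]
        refine ⟨w, ?_, rfl⟩
        rw [← h1]
        exact huw
      · by_cases h2 : w = v
        · rw [h2, Function.update_self, Function.update_of_ne h1]
          intro h
          apply ha
          rw [← h]
          refine ⟨u, ?_, rfl⟩
          rw [← h2]
          exact huw.symm
        · rw [Function.update_of_ne h1, Function.update_of_ne h2]
          have h3 : u.1 ≠ m := fun h => h1 (Fin.ext h)
          have h4 : w.1 ≠ m := fun h => h2 (Fin.ext h)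
          exact hc u w (by omega) (by omega) huw
  obtain ⟨c, hc⟩ := key n le_rfl
  exact ⟨SimpleGraph.Coloring.mk c (fun {u w} h => hc u w u.2 w.2 h)⟩

lemma ball_le (n d : ℕ) (G : SimpleGraph (Fin n)) (hdeg : ∀ v, (G.neighborSet v).ncard ≤ d)
    (v : Fin n) (s : ℕ) : {w | G.edist v w ≤ (s : ℕ∞)}.ncard ≤ (d + 1) ^ s := by
  classical
  induction s with
  | zero =>
    have : {w | G.edist v w ≤ ((0 : ℕ) : ℕ∞)} = {v} := by
      ext w
      rw [Set.mem_singleton_iff, Set.mem_ofPred_eq, Nat.cast_zero, nonpos_iff_eq_zero,
        SimpleGraph.edist_eq_zero_iff]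
      exact eq_comm
    rw [this]
    simp
  | succ s ih =>
    set B : Finset (Fin n) := Finset.univ.filter (fun w => G.edist v w ≤ (s : ℕ∞)) with hB
    have hBc : B.card ≤ (d + 1) ^ s := by
      rw [← Set.ncard_coe_finset]
      refine le_trans (le_of_eq ?_) ih
      congr 1
      ext w
      simp [hB]
    set N : Fin n → Finset (Fin n) := fun u => insert u (Finset.univ.filter (fun w => G.Adj u w))
      with hN
    have hNc : ∀ u, (N u).card ≤ d + 1 := by
      intro u
      simp only [hN]
      refine le_trans (Finset.card_insert_le _ _) ?_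
      apply Nat.add_le_add_right
      refine le_trans (le_of_eq ?_) (hdeg u)
      rw [← Set.ncard_coe_finset]
      congr 1
      ext w
      simp
    have hsub : {w | G.edist v w ≤ ((s + 1 : ℕ) : ℕ∞)} ⊆ ((B.biUnion N : Finset (Fin n)) : Set (Fin n)) := by
      intro w hw
      simp only [Set.mem_ofPred_eq] at hw
      have hne : G.edist v w ≠ ⊤ := ne_top_of_le_ne_top (ENat.natCast_ne_top _) hw
      obtain ⟨p, hp⟩ := SimpleGraph.exists_walk_of_edist_ne_top hne
      rw [← hp] at hw
      have hlen : p.length ≤ s + 1 := by exact_mod_cast hw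
      simp only [Finset.coe_biUnion, Set.mem_iUnion, Finset.mem_coe]
      rcases Nat.lt_or_ge s p.length with h1 | h1
      · have hpl : p.length = s + 1 := by omega
        refine ⟨p.penultimate, ?_, ?_⟩
        · simp only [hB, Finset.mem_filter, Finset.mem_univ, true_and]
          refine le_trans (SimpleGraph.edist_le p.dropLast) ?_
          rw [SimpleGraph.Walk.length_dropLast, hpl]
          simp
        · simp only [hN, Finset.mem_insert, Finset.mem_filter, Finset.mem_univ, true_and]
          right
          apply SimpleGraph.Walk.adj_penultimate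
          intro hnil
          have := SimpleGraph.Walk.length_eq_zero_iff.2 hnil
          omega
      · refine ⟨w, ?_, ?_⟩
        · simp only [hB, Finset.mem_filter, Finset.mem_univ, true_and]
          rw [← hp]
          exact_mod_cast h1
        · simp [hN]
    refine le_trans (Set.ncard_le_ncard hsub (Finset.finite_toSet _)) ?_
    rw [Set.ncard_coe_finset]
    refine le_trans (Finset.card_biUnion_le_card_mul _ _ (d + 1) (fun u _ => hNc u)) ?_
    rw [pow_succ]
    exact Nat.mul_le_mul_right _ hBc

/-- the trivial upper bound -/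
lemma upper (t n d : ℕ) (hd : 1 ≤ d) (G : SimpleGraph (Fin n))
    (hdeg : ∀ v, (G.neighborSet v).ncard ≤ d) :
    ∃ k : ℕ, (k : ℝ) ≤ (2 * 2 ^ t : ℝ) * (d : ℝ) ^ t ∧
      (SimpleGraph.fromRel (fun u v : Fin n => G.edist u v ≤ (t : ℕ∞))).Colorable k := by
  refine ⟨(d + 1) ^ t + 1, ?_, ?_⟩
  · have h1 : (d + 1) ^ t ≤ (2 * d) ^ t := Nat.pow_le_pow_left (by omega) t
    have h2 : 1 ≤ (2 * d) ^ t := Nat.one_le_pow _ _ (by omega)
    have h3 : (d + 1) ^ t + 1 ≤ 2 * (2 * d) ^ t := by omega
    have h4 : (((d + 1) ^ t + 1 : ℕ) : ℝ) ≤ ((2 * (2 * d) ^ t : ℕ) : ℝ) := by exact_mod_cast h3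
    refine le_trans h4 (le_of_eq ?_)
    push_cast
    rw [mul_pow]
    ring
  · apply greedy
    intro v
    refine le_trans (Set.ncard_le_ncard ?_ (Set.toFinite _)) (ball_le n d G hdeg v t)
    intro w hw
    simp only [SimpleGraph.mem_neighborSet, SimpleGraph.fromRel_adj] at hw
    simp only [Set.mem_ofPred_eq]
    rcases hw.2 with h | h
    · exact h
    · rw [SimpleGraph.edist_comm]
      exact h

end Pool.Agent.Chi73
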