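import Pool.Agent.Chi73.Count
import Pool.Agent.Chi73.Upper

set_option autoImplicit false

namespace Pool.Agent.Chi73

variable {F : Type} [Field F]

theorem vxFinite [Finite F] (M : Bool → ℕ) : Finite (Vx F M) := by
  let f : Vx F M → (Fin (M false + M true) → F) ⊕
      ((Bool × Fin (M false + M true) × (Fin (M false + M true) → F)) ⊕ (Idx M → F)) := fun v =>
    match v with
    | Vx.pt y => Sum.inl y
    | Vx.mid b i x => Sum.inr (Sum.inl (b, i, x))
    | Vx.top s => Sum.inr (Sum.inr s)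
  have hf : Function.Injective f := by
    intro u v h
    cases u <;> cases v <;> simp_all [f]
  exact Finite.of_injective f hf

/-- a cycle of the graph gives a closed non-backtracking walk -/
lemma cw_of_cycle (D : Dat F) {n : ℕ} (e : Fin n ≃ Vx F D.M) (u : Fin n)
    (p : ((Gr D).comap e).Walk u u) (hp : p.IsCycle) (ℓ : ℕ) (hℓ : p.length = ℓ) :
    CW D ℓ (fun k => e (p.getVert (k % ℓ))) := by
  have h3 := hp.three_le_length
  have hℓ3 : 3 ≤ ℓ := by omega
  refine ⟨?_, ?_, ?_⟩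
  · intro k
    simp
  · intro k
    have hlt : k % ℓ < ℓ := Nat.mod_lt _ (by omega)
    have h1 := p.adj_getVert_succ (i := k % ℓ) (by omega)
    have h2 : p.getVert ((k + 1) % ℓ) = p.getVert (k % ℓ + 1) := by
      rcases Nat.lt_or_ge (k % ℓ + 1) ℓ with h | h
      · rw [Nat.add_mod, Nat.mod_eq_of_lt (show 1 < ℓ by omega), Nat.mod_eq_of_lt h]
      · have h4 : k % ℓ + 1 = ℓ := by omega
        have h5 : (k + 1) % ℓ = 0 := by
          rw [Nat.add_mod, Nat.mod_eq_of_lt (show 1 < ℓ by omega), h4, Nat.mod_self]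
        rw [h4, h5, SimpleGraph.Walk.getVert_zero, ← hℓ, SimpleGraph.Walk.getVert_length]
    rw [h2]
    exact h1
  · intro k h
    have h1 := e.injective h
    have hlt : k % ℓ < ℓ := Nat.mod_lt _ (by omega)
    have hlt2 : (k + 2) % ℓ < ℓ := Nat.mod_lt _ (by omega)
    have h2 := hp.getVert_injOn' (by rw [Set.mem_ofPred_eq]; omega)
      (by rw [Set.mem_ofPred_eq]; omega) h1
    have h3 : (k + 2) % ℓ = (k % ℓ + 2) % ℓ := by
      rw [Nat.add_mod, Nat.mod_eq_of_lt (show 2 < ℓ by omega)]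
    rw [h3] at h2
    generalize k % ℓ = a at h2 hlt
    rcases Nat.lt_or_ge (a + 2) ℓ with h4 | h4
    · rw [Nat.mod_eq_of_lt h4] at h2
      omega
    · have h5 : (a + 2) % ℓ = a + 2 - ℓ := by
        rw [Nat.mod_eq_sub_mod h4, Nat.mod_eq_of_lt (by omega)]
      omega

lemma transfer [Fintype F] [DecidableEq F] (D : Dat F) (Zf : Idx D.M → Finset F) (r : ℕ)
    (hr : ∀ p, (Zf p).card = r) (hZ : ∀ b (j : Fin (D.M b)) z, z ∈ Zf ⟨b, j⟩ ↔ z ∈ D.Z b j)
    (hr8 : 8 ≤ r) :
    ∃ n : ℕ, ∃ G : SimpleGraph (Fin n), (∀ v, (G.neighborSet v).ncard ≤ 2 * Fintype.card F) ∧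
      (∀ ℓ : ℕ, (ℓ = 4 ∨ ℓ = 6 ∨ ℓ = 10) →
        ¬ ∃ u : Fin n, ∃ p : G.Walk u u, p.IsCycle ∧ p.length = ℓ) ∧
      ∀ k : ℕ, (SimpleGraph.fromRel (fun u v : Fin n => G.edist u v ≤ (D.t : ℕ∞))).Colorable k →
        r ^ D.t ≤ 2 * k := by
  classical
  have := vxFinite (F := F) D.M
  obtain ⟨n, ⟨e'⟩⟩ := Finite.exists_equiv_fin (Vx F D.M)
  set e : Fin n ≃ Vx F D.M := e'.symm
  refine ⟨n, (Gr D).comap e, ?_, ?_, ?_⟩
  · intro v
    refine le_trans (le_of_eq ?_) (degree_le D (e v))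
    rw [← Set.ncard_image_of_injective _ e.injective]
    congr 1
    ext w
    constructor
    · rintro ⟨x, hx, rfl⟩
      exact hx
    · intro hw
      refine ⟨e.symm w, ?_, by simp⟩
      simp only [SimpleGraph.mem_neighborSet, SimpleGraph.comap_adj, Equiv.apply_symm_apply]
      exact hw
  · rintro ℓ hℓ ⟨u, p, hp, hlen⟩
    exact (cw_of_cycle D e u p hp ℓ hlen).false hℓ
  · intro k hk
    refine le_trans (count_good D Zf r hr hZ hr8) ?_
    apply Nat.mul_le_mul_left
    obtain ⟨C⟩ := hk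
    have hinj : Set.InjOn (fun s : Idx D.M → F => C (e.symm (Vx.top s)))
        ((Fintype.piFinset Zf).filter (Good D) : Finset _) := by
      intro s hs s' hs' h
      by_contra hne
      simp only [Finset.coe_filter, Set.mem_ofPred_eq] at hs hs'
      apply C.valid _ h
      rw [SimpleGraph.fromRel_adj]
      refine ⟨?_, Or.inl ?_⟩
      · intro h2
        have := e.symm.injective h2
        simp only [Vx.top.injEq] at this
        exact hne this
      · have h3 := top_edist D s s' hs.2 hs'.2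
        have hne2 : (Gr D).edist (Vx.top s) (Vx.top s') ≠ ⊤ :=
          ne_top_of_le_ne_top (ENat.natCast_ne_top _) h3
        obtain ⟨p, hp⟩ := SimpleGraph.exists_walk_of_edist_ne_top hne2
        let φ : Gr D →g (Gr D).comap e :=
          ⟨e.symm, by intro a b hab; simpa [SimpleGraph.comap_adj] using hab⟩
        have h4 := SimpleGraph.edist_le (p.map φ)
        rw [SimpleGraph.Walk.length_map, hp] at h4
        exact le_trans h4 h3
    have h5 := Finset.card_le_card_of_injOn (t := (Finset.univ : Finset (Fin k)))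
      (fun s : Idx D.M → F => C (e.symm (Vx.top s))) (fun _ _ => Finset.mem_univ _) hinj
    simpa using h5

/-- the data over `ZMod q` -/
lemma exists_dat (q t r : ℕ) [Fact q.Prime] (ht : 16 ≤ t) (hr : t * r ≤ q - 1) (hr8 : 8 ≤ r) :
    ∃ n : ℕ, ∃ G : SimpleGraph (Fin n), (∀ v, (G.neighborSet v).ncard ≤ 2 * q) ∧
      (∀ ℓ : ℕ, (ℓ = 4 ∨ ℓ = 6 ∨ ℓ = 10) →
        ¬ ∃ u : Fin n, ∃ p : G.Walk u u, p.IsCycle ∧ p.length = ℓ) ∧
      ∀ k : ℕ, (SimpleGraph.fromRel (fun u v : Fin n => G.edist u v ≤ (t : ℕ∞))).Colorable k →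
        r ^ t ≤ 2 * k := by
  classical
  set M : Bool → ℕ := fun b => if b then t - t / 2 else t / 2 with hM
  have hMt : M false + M true = t := by
    simp [hM]
    omega
  have hcardI : Fintype.card (Idx M) = t := by
    simp [Idx, hM]
    omega
  have hemb : Nonempty (Idx M × Fin r ↪ (ZMod q)ˣ) := by
    apply Function.Embedding.nonempty_of_card_le
    rw [Fintype.card_prod, hcardI, Fintype.card_fin, ZMod.card_units]
    exact hr
  obtain ⟨g⟩ := hemb
  let D : Dat (ZMod q) :=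
    { M := M
      Z := fun b i => {z | ∃ (h : i < M b) (a : Fin r), z = (g (⟨b, i, h⟩, a) : ZMod q)}
      hM := by
        intro b
        cases b <;> simp only [hM] <;> simp <;> omega
      hZ0 := by
        rintro b i ⟨h, a, h0⟩
        exact (g (⟨b, i, h⟩, a)).ne_zero h0.symm
      hZd := by
        rintro b i b' i' z ⟨h, a, h0⟩ ⟨h', a', h0'⟩
        rw [h0] at h0'
        have h1 := g.injective (Units.ext h0')
        simp only [Prod.mk.injEq] at h1
        have h2 := h1.1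
        rw [Sigma.mk.injEq] at h2
        obtain ⟨rfl, h3⟩ := h2
        refine ⟨rfl, ?_⟩
        have := eq_of_heq h3
        simpa using this }
  have hDt : D.t = t := hMt
  let Zf : Idx D.M → Finset (ZMod q) := fun p =>
    (Finset.univ : Finset (Fin r)).image (fun a => (g (p, a) : ZMod q))
  have hcard : ∀ p, (Zf p).card = r := by
    intro p
    simp only [Zf]
    rw [Finset.card_image_of_injective]
    · simp
    · intro a a' h
      have := g.injective (Units.ext h)
      simpa using this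
  have hmem : ∀ b (j : Fin (D.M b)) z, z ∈ Zf ⟨b, j⟩ ↔ z ∈ D.Z b j := by
    intro b j z
    simp only [Zf, Finset.mem_image, Finset.mem_univ, true_and, D, Set.mem_ofPred_eq]
    constructor
    · rintro ⟨a, rfl⟩
      exact ⟨j.2, a, rfl⟩
    · rintro ⟨h, a, rfl⟩
      exact ⟨a, rfl⟩
  have := transfer D Zf r hcard hmem hr8
  rw [hDt, ZMod.card] at this
  exact this

/-- the lower bound -/
theorem lower (t : ℕ) (ht : 16 ≤ t) : ∃ c : ℝ, 0 < c ∧ ∃ d0 : ℕ, ∀ d : ℕ, d0 ≤ d →
    ∃ n : ℕ, ∃ G : SimpleGraph (Fin n), (∀ v, (G.neighborSet v).ncard ≤ d) ∧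
      (∀ ℓ : ℕ, (ℓ = 4 ∨ ℓ = 6 ∨ ℓ = 10) →
        ¬ ∃ u : Fin n, ∃ p : G.Walk u u, p.IsCycle ∧ p.length = ℓ) ∧
      ∀ k : ℕ, (k : ℝ) < c * (d : ℝ) ^ t →
        ¬ (SimpleGraph.fromRel (fun u v : Fin n => G.edist u v ≤ (t : ℕ∞))).Colorable k := by
  refine ⟨1 / (2 * (8 * (t : ℝ)) ^ t), by positivity, 64 * t, ?_⟩
  intro d hd
  obtain ⟨q, hq, hq1, hq2⟩ := Nat.exists_prime_lt_and_le_two_mul (d / 4) (by omega)
  have : Fact q.Prime := ⟨hq⟩
  have h4 : d < 4 * q := by omega
  have hq2' : 2 * q ≤ d := by omega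
  set r : ℕ := (q - 1) / t with hr
  have hrt : t * r ≤ q - 1 := Nat.mul_div_le _ _
  have hrt2 : q - 1 < t * r + t := by
    have := Nat.lt_mul_div_succ (q - 1) (show 0 < t by omega)
    rw [← hr] at this
    calc q - 1 < t * (r + 1) := this
      _ = t * r + t := by ring
  have hq16 : 16 * t < q := by omega
  -- 2 t r ≥ q
  have h2 : q ≤ 2 * (t * r) := by omega
  have hd8 : d < 8 * t * r := by
    have : 8 * t * r = 4 * (2 * (t * r)) := by ring
    omega
  have hr8 : 8 ≤ r := by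
    by_contra hc
    have : t * r ≤ t * 7 := Nat.mul_le_mul_left _ (by omega)
    omega
  obtain ⟨n, G, h5, h6, h7⟩ := exists_dat q t r ht hrt hr8
  refine ⟨n, G, fun v => le_trans (h5 v) hq2', h6, ?_⟩
  intro k hk hcol
  have h8 := h7 k hcol
  have h9 : ((r : ℝ)) ^ t ≤ 2 * (k : ℝ) := by exact_mod_cast h8
  have h10 : (d : ℝ) ≤ 8 * (t : ℝ) * (r : ℝ) := by exact_mod_cast hd8.le
  have h11 : (d : ℝ) ^ t ≤ (8 * (t : ℝ)) ^ t * (r : ℝ) ^ t := by
    rw [← mul_pow]
    exact pow_le_pow_left₀ (by positivity) h10 t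
  have hpos : (0 : ℝ) < (8 * (t : ℝ)) ^ t := by
    have : (0 : ℝ) < t := by exact_mod_cast (show 0 < t by omega)
    positivity
  rw [div_mul_eq_mul_div, one_mul, lt_div_iff₀ (by positivity)] at hk
  nlinarith

end Pool.Agent.Chi73
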