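import Pool.Agent.Chi73.CaseA
import Pool.Agent.Chi73.CombA

set_option autoImplicit false

namespace Pool.Agent.Chi73

variable {F : Type} [Field F]

lemma WalkA.toProf {D : Dat F} {ℓ : ℕ} {σ : ℕ → Bool} {h : ℕ → ℕ} {X : ℕ → ℕ → F}
    (W : WalkA D ℓ σ h X) (hℓ : ℓ ≤ 10) (hℓ2 : 2 ≤ ℓ) : Prof F ℓ h (lam h X) where
  perh := W.perh
  perl k := by
    have h1 := W.perh k
    have h2 := W.perh (k + 1)
    have h3 := W.perX k
    have h4 := W.perX (k + 1)
    rw [show k + 1 + ℓ = k + ℓ + 1 by ring] at h2 h4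
    unfold lam
    rw [h1, h2, h3, h4]
  step k := by
    rcases W.edge k with ⟨h1, _⟩ | ⟨h1, _⟩
    · exact Or.inl h1
    · exact Or.inr h1
  valley := W.valley
  peakeq := fun k h1 h2 => WalkA.peak_eq k h1 h2
  peak := W.peak hℓ hℓ2
  level := W.level
  matching := W.matching

theorem WalkA.false {D : Dat F} {ℓ : ℕ} {σ : ℕ → Bool} {h : ℕ → ℕ} {X : ℕ → ℕ → F}
    (W : WalkA D ℓ σ h X) (hℓ : ℓ = 4 ∨ ℓ = 6 ∨ ℓ = 10) : False := by
  obtain ⟨r, hr⟩ := Prof.exists_min (h := h) (ℓ := ℓ) W.perh (by omega)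
  have P := (W.toProf (by omega) (by omega)).shift r
  have hmin : ∀ k, (fun k => h (k + r)) 0 ≤ (fun k => h (k + r)) k := by
    intro k
    simp only [zero_add]
    exact hr (k + r)
  rcases hℓ with h4 | h6 | h10
  · subst h4
    exact P.no4 hmin
  · subst h6
    exact P.no6 hmin
  · subst h10
    exact P.no10 hmin

end Pool.Agent.Chi73
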