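import Pool.Agent.Chi73.Cycle

set_option autoImplicit false

namespace Pool.Agent.Chi73

variable {F : Type} [Field F]

/-- the coordinates at depth `i` on the path from the point `y` with labels `α` -/
def pc (α : ℕ → F) (y : ℕ → F) (i : ℕ) : ℕ → F :=
  fun j => if j < i then α j else TN α i y (j - i)

lemma pc_step (D : Dat F) (b : Bool) (α y : ℕ → F) (hα : ∀ i < D.M b, α i ∈ D.Z b i) (i : ℕ)
    (hi : i < D.M b) : Step D b i (pc α y i) (pc α y (i + 1)) where
  lt := hi
  labx := by
    intro j hj
    simp only [pc, if_pos hj]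
    exact hα j (by omega)
  laby := by
    simp only [pc, if_pos (Nat.lt_succ_self i)]
    exact hα i hi
  low := by
    intro j hj
    simp only [pc, if_pos hj, if_pos (show j < i + 1 by omega)]
  high := by
    intro j hj _
    simp only [pc, if_neg (show ¬ j < i by omega), if_neg (show ¬ j + 1 < i by omega),
      if_neg (show ¬ j + 1 < i + 1 by omega), if_pos (Nat.lt_succ_self i), TN, T]
    rw [show j + 1 - (i + 1) = j - i by omega, show j - i + 1 = j + 1 - i by omega]

lemma Step.congr {D : Dat F} {b : Bool} {i : ℕ} {x y x' y' : ℕ → F} (hs : Step D b i x y)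
    (hx : ∀ j < D.t, x j = x' j) (hy : ∀ j < D.t, y j = y' j) : Step D b i x' y' := by
  have hM := D.hM (!b)
  have ht := D.t_eq b
  have hlt := hs.lt
  refine ⟨hs.lt, ?_, ?_, ?_, ?_⟩
  · intro j hj
    rw [← hx j (by omega)]
    exact hs.labx j hj
  · rw [← hy i (by omega)]
    exact hs.laby
  · intro j hj
    rw [← hx j (by omega), ← hy j (by omega)]
    exact hs.low j hj
  · intro j hj hj2
    rw [← hx j (by omega), ← hx (j + 1) (by omega), ← hy i (by omega), ← hy (j + 1) (by omega)]
    exact hs.high j hj hj2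

/-- the vertices of the path -/
def nd (D : Dat F) (b : Bool) (α : ℕ → F) (y : Fin (D.M false + D.M true) → F)
    (s : Idx D.M → F) (i : ℕ) : Vx F D.M :=
  if i = 0 then Vx.pt y else
    if h : i < D.M b then Vx.mid b ⟨i, by cases b <;> omega⟩ (fun j => pc α (ext y) i j)
    else Vx.top s

lemma path_edist (D : Dat F) (b : Bool) (α : ℕ → F) (y : Fin (D.M false + D.M true) → F)
    (s : Idx D.M → F) (hs : Good D s) (hα : ∀ i (h : i < D.M b), s ⟨b, i, h⟩ = α i)
    (hβ : ∀ k (h : k < D.M (!b)), s ⟨!b, k, h⟩ = TN α (D.M b) (ext y) k) :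
    (Gr D).edist (Vx.pt y) (Vx.top s) ≤ (D.M b : ℕ∞) := by
  have hM := D.hM b
  have ht := D.t_eq b
  have hαZ : ∀ i < D.M b, α i ∈ D.Z b i := by
    intro i hi
    rw [← hα i hi]
    exact hs.1 b ⟨i, hi⟩
  have hat : ∀ i ≤ D.M b, At D b i (nd D b α y s i) := by
    intro i hi
    unfold nd
    split_ifs with h1 h2
    · exact h1
    · exact ⟨rfl, rfl, by omega, h2⟩
    · exact ⟨by omega, hs⟩
  have hcrd : ∀ i ≤ D.M b, ∀ j < D.t, pc α (ext y) i j = crd b (nd D b α y s i) j := by
    intro i hi j hj
    unfold nd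
    split_ifs with h1 h2
    · subst h1
      simp [pc, TN, crd]
    · simp only [crd]
      have hj' : j < D.M false + D.M true := hj
      rw [ext_lt _ j hj']
    · have hiM : i = D.M b := by omega
      subst hiM
      by_cases hj2 : j < D.M b
      · rw [crd_top_low b s j hj2]
        simp only [pc, if_pos hj2]
        exact (hα j hj2).symm
      · obtain ⟨k, rfl⟩ := Nat.exists_eq_add_of_le (not_lt.1 hj2)
        rw [crd_top_high b s k (by omega), hβ k (by omega)]
        simp only [pc, if_neg hj2]
        rw [Nat.add_sub_cancel_left]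
  have hadj : ∀ i < D.M b, (Gr D).Adj (nd D b α y s i) (nd D b α y s (i + 1)) := by
    intro i hi
    refine Ed.adj ⟨hat i hi.le, hat (i + 1) hi, ?_⟩
    exact (pc_step D b α (ext y) hαZ i hi).congr (hcrd i hi.le) (hcrd (i + 1) hi)
  have hind : ∀ i ≤ D.M b, (Gr D).edist (nd D b α y s 0) (nd D b α y s i) ≤ (i : ℕ∞) := by
    intro i
    induction i with
    | zero => intro _; simp
    | succ i ih =>
      intro hi
      refine le_trans ((Gr D).edist_triangle (v := nd D b α y s i)) ?_
      push_cast
      refine add_le_add (ih (by omega)) ?_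
      rw [SimpleGraph.edist_eq_one_iff_adj.2 (hadj i (by omega))]
  have h0 : nd D b α y s 0 = Vx.pt y := by simp [nd]
  have h1 : nd D b α y s (D.M b) = Vx.top s := by
    unfold nd
    rw [if_neg (by omega), dif_neg (by omega)]
  have := hind (D.M b) le_rfl
  rw [h0, h1] at this
  exact this

lemma top_edist [Fintype F] (D : Dat F) (s s' : Idx D.M → F) (hs : Good D s) (hs' : Good D s') :
    (Gr D).edist (Vx.top s) (Vx.top s') ≤ (D.t : ℕ∞) := by
  classical
  set α : ℕ → F := fun i => if h : i < D.M false then s ⟨false, i, h⟩ else 0 with hα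
  set β : ℕ → F := fun i => if h : i < D.M true then s' ⟨true, i, h⟩ else 0 with hβ
  set u : ℕ → F := fun i => if h : i < D.M true then s ⟨true, i, h⟩ else 0 with hu
  set v : ℕ → F := fun i => if h : i < D.M false then s' ⟨false, i, h⟩ else 0 with hv
  obtain ⟨y, hy1, hy2⟩ := exists_point α β (D.M false) (D.M true)
    (by
      intro i hi j hj h
      simp only [hα, hβ, dif_pos hi, dif_pos hj] at h
      have h1 := hs.1 false ⟨i, hi⟩
      have h2 := hs'.1 true ⟨j, hj⟩
      rw [h] at h1
      have := (D.hZd _ _ _ _ _ h1 h2).1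
      exact absurd this (by simp)) u v
  have e1 : (Gr D).edist (Vx.pt y) (Vx.top s) ≤ (D.M false : ℕ∞) := by
    apply path_edist D false α y s hs
    · intro i h
      simp only [hα, dif_pos h]
    · intro k h
      rw [hy1 k h]
      simp only [hu]
      rw [dif_pos (show k < D.M true from h)]
      rfl
  have e2 : (Gr D).edist (Vx.pt y) (Vx.top s') ≤ (D.M true : ℕ∞) := by
    apply path_edist D true β y s' hs'
    · intro i h
      simp only [hβ, dif_pos h]
    · intro k h
      rw [hy2 k h]
      simp only [hv]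
      rw [dif_pos (show k < D.M false from h)]
      rfl
  refine le_trans ((Gr D).edist_triangle (v := Vx.pt y)) ?_
  rw [SimpleGraph.edist_comm (u := Vx.top s) (v := Vx.pt y)]
  unfold Dat.t
  push_cast
  exact add_le_add e1 e2

end Pool.Agent.Chi73
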