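import Mathlib

set_option autoImplicit false

namespace Pool.Agent.Chi73

variable {F : Type} [Field F]

/-- the operator `E - z` on sequences -/
def T (z : F) (x : ℕ → F) : ℕ → F := fun k => x (k + 1) - z * x k

/-- iterated operator: `(E - α 0) ... (E - α (n-1))` -/
def TN (α : ℕ → F) : ℕ → (ℕ → F) → (ℕ → F)
  | 0, x => x
  | (n + 1), x => T (α n) (TN α n x)

lemma T_comm (a b : F) (x : ℕ → F) : T a (T b x) = T b (T a x) := by
  funext k
  simp only [T]
  ring

lemma T_sub (a : F) (x y : ℕ → F) : T a (fun k => x k - y k) = fun k => T a x k - T a y k := by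
  funext k
  simp only [T]
  ring

lemma TN_T (α : ℕ → F) (n : ℕ) (z : F) (x : ℕ → F) : TN α n (T z x) = T z (TN α n x) := by
  induction n with
  | zero => rfl
  | succ n ih =>
    simp only [TN]
    rw [ih, T_comm]

lemma TN_sub (α : ℕ → F) (n : ℕ) (x y : ℕ → F) :
    TN α n (fun k => x k - y k) = fun k => TN α n x k - TN α n y k := by
  induction n with
  | zero => rfl
  | succ n ih =>
    simp only [TN]
    rw [ih, T_sub]

lemma TN_geo (a : F) (β : ℕ → F) (n : ℕ) : ∀ x : ℕ → F, (∀ k < n, x (k + 1) = a * x k) →
    TN β n x 0 = (∏ j ∈ Finset.range n, (a - β j)) * x 0 := by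
  induction n with
  | zero => intro x _; simp [TN]
  | succ n ih =>
    intro x hx
    have h1 : TN β (n + 1) x = TN β n (T (β n) x) := by
      simp only [TN]
      rw [TN_T]
    rw [h1, ih]
    · rw [Finset.prod_range_succ]
      simp only [T]
      rw [hx 0 (by omega)]
      ring
    · intro k hk
      simp only [T]
      rw [hx (k + 1) (by omega), hx k (by omega)]
      ring

lemma TN_inj (α β : ℕ → F) (m n : ℕ) (hne : ∀ i < m, ∀ j < n, α i ≠ β j) :
    ∀ x : ℕ → F, (∀ k < n, TN α m x k = 0) → (∀ k < m, TN β n x k = 0) →
      ∀ k < m + n, x k = 0 := by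
  induction m with
  | zero =>
    intro x hx _ k hk
    exact hx k (by omega)
  | succ m ih =>
    intro x h1 h2
    have ih' := ih (fun i hi j hj => hne i (by omega) j hj) (T (α m) x)
      (by
        intro k hk
        have := h1 k hk
        simp only [TN] at this
        rw [TN_T]
        exact this)
      (by
        intro k hk
        rw [TN_T]
        simp only [T]
        rw [h2 (k + 1) (by omega), h2 k (by omega)]
        ring)
    have hgeo : ∀ k < m + n, x (k + 1) = α m * x k := by
      intro k hk
      have := ih' k hk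
      simp only [T] at this
      linear_combination this
    have h0 : x 0 = 0 := by
      have h3 := TN_geo (α m) β n x (fun k hk => hgeo k (by omega))
      rw [h2 0 (by omega)] at h3
      have h4 : (∏ j ∈ Finset.range n, (α m - β j)) ≠ 0 := by
        rw [Finset.prod_ne_zero_iff]
        intro j hj
        exact sub_ne_zero.2 (hne m (by omega) j (Finset.mem_range.1 hj))
      rcases mul_eq_zero.1 h3.symm with h | h
      · exact absurd h h4
      · exact h
    intro k
    induction k with
    | zero => intro _; exact h0
    | succ k ihk =>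
      intro hk
      rw [hgeo k (by omega), ihk (by omega), mul_zero]

/-- the extension by zero of a vector -/
def ext {t : ℕ} (y : Fin t → F) : ℕ → F := fun j => if h : j < t then y ⟨j, h⟩ else 0

lemma ext_lt {t : ℕ} (y : Fin t → F) (j : ℕ) (h : j < t) : ext y j = y ⟨j, h⟩ := by
  simp [ext, h]

lemma ext_restrict {t : ℕ} (x : ℕ → F) (j : ℕ) (h : j < t) :
    ext (fun i : Fin t => x i) j = x j := by
  simp [ext, h]

lemma exists_point [Fintype F] (α β : ℕ → F) (m n : ℕ) (hne : ∀ i < m, ∀ j < n, α i ≠ β j)
    (u v : ℕ → F) : ∃ y : Fin (m + n) → F, (∀ k < n, TN α m (ext y) k = u k) ∧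
      (∀ k < m, TN β n (ext y) k = v k) := by
  classical
  let Φ : (Fin (m + n) → F) → (Fin n → F) × (Fin m → F) :=
    fun y => (fun k => TN α m (ext y) k, fun k => TN β n (ext y) k)
  have hinj : Function.Injective Φ := by
    intro y y' hyy
    have h1 : ∀ k < n, TN α m (ext y) k = TN α m (ext y') k := by
      intro k hk
      have := congrFun (congrArg Prod.fst hyy) ⟨k, hk⟩
      exact this
    have h2 : ∀ k < m, TN β n (ext y) k = TN β n (ext y') k := by
      intro k hk
      have := congrFun (congrArg Prod.snd hyy) ⟨k, hk⟩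
      exact this
    have h3 := TN_inj α β m n hne (fun k => ext y k - ext y' k)
      (by
        intro k hk
        rw [TN_sub]
        simp only
        rw [h1 k hk, sub_self])
      (by
        intro k hk
        rw [TN_sub]
        simp only
        rw [h2 k hk, sub_self])
    funext j
    have := h3 j j.2
    rw [ext_lt y j j.2, ext_lt y' j j.2] at this
    exact sub_eq_zero.1 this
  have hbij : Function.Bijective Φ := by
    rw [Fintype.bijective_iff_injective_and_card]
    refine ⟨hinj, ?_⟩
    simp only [Fintype.card_pi, Fintype.card_prod, Finset.prod_const, Finset.card_univ,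
      Fintype.card_fin]
    rw [pow_add, mul_comm]
  obtain ⟨y, hy⟩ := hbij.2 (fun k => u k, fun k => v k)
  refine ⟨y, ?_, ?_⟩
  · intro k hk
    exact congrFun (congrArg Prod.fst hy) ⟨k, hk⟩
  · intro k hk
    exact congrFun (congrArg Prod.snd hy) ⟨k, hk⟩

end Pool.Agent.Chi73
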