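import Pool.Agent.Chi73.Seq

set_option autoImplicit false

namespace Pool.Agent.Chi73

variable {F : Type} [Field F]

/-- data of the construction: depths and label classes -/
structure Dat (F : Type) [Field F] where
  M : Bool → ℕ
  Z : Bool → ℕ → Set F
  hM : ∀ b, 8 ≤ M b
  hZ0 : ∀ b i, (0 : F) ∉ Z b i
  hZd : ∀ b i b' i' z, z ∈ Z b i → z ∈ Z b' i' → b = b' ∧ i = i'

/-- the length of the coordinate vectors -/
def Dat.t (D : Dat F) : ℕ := D.M false + D.M true

lemma Dat.t_eq (D : Dat F) (b : Bool) : D.t = D.M b + D.M (!b) := by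
  cases b <;> simp [Dat.t, add_comm]

/-- `x` has depth `i`, `y` has depth `i+1`, on side `b`; the label of the step is `y i` -/
structure Step (D : Dat F) (b : Bool) (i : ℕ) (x y : ℕ → F) : Prop where
  lt : i < D.M b
  labx : ∀ j < i, x j ∈ D.Z b j
  laby : y i ∈ D.Z b i
  low : ∀ j < i, y j = x j
  high : ∀ j, i ≤ j → j + 1 < D.t → y (j + 1) = x (j + 1) - y i * x j

end Pool.Agent.Chi73
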